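import Pool.Agent.Helper24.BC.P_Bl

/-!
# Project BC, block POT: values at the kernel, invariance
-/

open scoped MatrixGroups UpperHalfPlane
open MeasureTheory

namespace Pool.Agent.Helper24.BC

open Pool.Agent.Helper11.BC

theorem Bl_kap (b : List ℍ → ℝ) (L : List ℍ) : Bl b (L.map kap) = sm b L := by
  induction L generalizing b with
  | nil => rfl
  | cons z l ih =>
    simp only [List.map_cons, Bl, sm]
    apply integral_congr_ae
    filter_upwards [kap_ae z] with w hw
    rw [hw, ih]

private theorem Bl_rho_aux (g : G) (l : List V1) : ∀ b : List ℍ → ℝ,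
    Bl b (l.map (rho g)) = Bl (fun L => b (L.map (g • ·))) l := by
  induction l with
  | nil => intro b; rfl
  | cons φ l ih =>
    intro b
    simp only [List.map_cons, Bl]
    have hemb : MeasurableEmbedding (fun w : ℍ => g • w) :=
      (Homeomorph.smul g : ℍ ≃ₜ ℍ).measurableEmbedding
    rw [← (measurePreserving_smulG g).integral_comp hemb]
    apply integral_congr_ae
    have h1 := (measurePreserving_smulG g).quasiMeasurePreserving.ae_eq_comp (rho_ae g φ)
    filter_upwards [h1] with w hw
    simp only [Function.comp_apply, inv_smul_smul] at hw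
    rw [hw, ih]

/-- Induction on `l`, over all `b`: `Bl b (l.map (rho g)) = Bl (fun L => b (L.map (g • ·))) l`
(substitute `w = g w'` in the integral). -/
theorem Bl_rho (g : G) (b : List ℍ → ℝ) (hb : ∀ L, b (L.map (g • ·)) = b L) (l : List V1) :
    Bl b (l.map (rho g)) = Bl b l := by
  rw [Bl_rho_aux]
  congr 1
  funext L
  exact hb L

/-- A continuous bounded cochain is jointly measurable. -/
theorem jm_of_continuous {b : List ℍ → ℝ} {M : ℝ} (h : ∀ l, |b l| ≤ M)
    (hc : ∀ k, Continuous fun z : Fin k → ℍ => b (List.ofFn z)) : JM (fun _ : Unit => b) M where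
  bdd := fun _ l => h l
  meas := fun k => (hc k).measurable.comp measurable_snd

end Pool.Agent.Helper24.BC
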