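import Pool.Agent.Helper24.BC.PotDefs

/-!
# Project BC, block POT: the alternating sum over the faces of a list
-/

namespace Pool.Agent.Helper24.BC

open Pool.Agent.Helper11.BC

variable {T T' M : Type*} [AddCommGroup M] [Module ℝ M]

theorem dl_nil (Φ : List T → M) : dl Φ [] = 0 := by
  simp [dl]

theorem dl_cons (Φ : List T → M) (x : T) (l : List T) :
    dl Φ (x :: l) = Φ l - dl (fun l' => Φ (x :: l')) l := by
  unfold dl
  rw [List.length_cons, Finset.sum_range_succ']
  simp only [List.eraseIdx_cons_succ, List.eraseIdx_cons_zero, pow_zero, one_smul]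
  rw [add_comm, sub_eq_add_neg, ← Finset.sum_neg_distrib]
  congr 1
  apply Finset.sum_congr rfl
  intro i _
  rw [pow_succ, mul_neg_one, neg_smul]

theorem dl_map (Φ : List T' → M) (f : T → T') (l : List T) :
    dl Φ (l.map f) = dl (fun l' => Φ (l'.map f)) l := by
  unfold dl
  rw [List.length_map]
  apply Finset.sum_congr rfl
  intro i _
  rw [List.eraseIdx_map]

theorem dl_sub (Φ Ψ : List T → M) (l : List T) : dl (fun l' => Φ l' - Ψ l') l = dl Φ l - dl Ψ l := by
  unfold dl
  rw [← Finset.sum_sub_distrib]
  apply Finset.sum_congr rfl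
  intro i _
  rw [smul_sub]

theorem dl_congr {Φ Ψ : List T → M} {l : List T}
    (h : ∀ l' : List T, l'.length + 1 = l.length → Φ l' = Ψ l') : dl Φ l = dl Ψ l := by
  unfold dl
  apply Finset.sum_congr rfl
  intro i hi
  rw [h]
  exact List.length_eraseIdx_add_one (Finset.mem_range.1 hi)

/-- Induction with `dl_cons`. -/
theorem dl_dl (Φ : List T → M) (l : List T) : dl (fun l' => dl Φ l') l = 0 := by
  induction l generalizing Φ with
  | nil => exact dl_nil _
  | cons x l ih =>
    rw [dl_cons]
    have h : dl (fun l' => dl Φ (x :: l')) l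
        = dl (fun l' => Φ l' - dl (fun l'' => Φ (x :: l'')) l') l := by
      apply dl_congr
      intro l' _
      exact dl_cons Φ x l'
    rw [h, dl_sub, ih]
    simp

/-- Linear maps commute with `dl`. -/
theorem dl_linear {M' : Type*} [AddCommGroup M'] [Module ℝ M'] (L : M →ₗ[ℝ] M') (Φ : List T → M)
    (l : List T) : L (dl Φ l) = dl (fun l' => L (Φ l')) l := by
  unfold dl
  rw [map_sum]
  apply Finset.sum_congr rfl
  intro i _
  rw [map_smul]

theorem abs_dl_le {Φ : List T → ℝ} {l : List T} {C : ℝ}
    (h : ∀ l' : List T, l'.length + 1 = l.length → |Φ l'| ≤ C) : |dl Φ l| ≤ l.length * C := by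
  unfold dl
  calc |∑ i ∈ Finset.range l.length, (-1 : ℝ) ^ i • Φ (l.eraseIdx i)|
      ≤ ∑ i ∈ Finset.range l.length, |(-1 : ℝ) ^ i • Φ (l.eraseIdx i)| :=
        Finset.abs_sum_le_sum_abs _ _
    _ ≤ ∑ _i ∈ Finset.range l.length, C := by
        apply Finset.sum_le_sum
        intro i hi
        rw [smul_eq_mul, abs_mul, abs_pow, abs_neg, abs_one, one_pow, one_mul]
        exact h _ (List.length_eraseIdx_add_one (Finset.mem_range.1 hi))
    _ = l.length * C := by simp

/-- The faces of `l₁ ++ p :: l₂` and `l₁ ++ q :: l₂` are equal (when the changed entry is deleted) or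
differ in one entry. -/
theorem abs_dl_sub_le {Φ : List T → ℝ} {l₁ l₂ : List T} {p q : T} {C : ℝ} (hC : 0 ≤ C)
    (h : ∀ m₁ m₂ : List T, (m₁ ++ p :: m₂).length + 1 = (l₁ ++ p :: l₂).length →
      |Φ (m₁ ++ p :: m₂) - Φ (m₁ ++ q :: m₂)| ≤ C) :
    |dl Φ (l₁ ++ p :: l₂) - dl Φ (l₁ ++ q :: l₂)| ≤ (l₁.length + l₂.length + 1) * C := by
  have hlen : (l₁ ++ q :: l₂).length = (l₁ ++ p :: l₂).length := by simp
  unfold dl
  rw [hlen, ← Finset.sum_sub_distrib]
  calc |∑ i ∈ Finset.range (l₁ ++ p :: l₂).length,
        ((-1 : ℝ) ^ i • Φ ((l₁ ++ p :: l₂).eraseIdx i) -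
          (-1 : ℝ) ^ i • Φ ((l₁ ++ q :: l₂).eraseIdx i))|
      ≤ ∑ i ∈ Finset.range (l₁ ++ p :: l₂).length,
        |(-1 : ℝ) ^ i • Φ ((l₁ ++ p :: l₂).eraseIdx i) -
          (-1 : ℝ) ^ i • Φ ((l₁ ++ q :: l₂).eraseIdx i)| := Finset.abs_sum_le_sum_abs _ _
    _ ≤ ∑ _i ∈ Finset.range (l₁ ++ p :: l₂).length, C := by
        apply Finset.sum_le_sum
        intro i hi
        have hi' := Finset.mem_range.1 hi
        rw [← smul_sub, smul_eq_mul, abs_mul, abs_pow, abs_neg, abs_one, one_pow, one_mul]
        rcases lt_or_ge i l₁.length with h1 | h1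
        · rw [List.eraseIdx_append_of_lt_length h1, List.eraseIdx_append_of_lt_length h1]
          apply h
          have := List.length_eraseIdx_add_one h1
          simp only [List.length_append, List.length_cons]
          omega
        · rw [List.eraseIdx_append_of_length_le h1, List.eraseIdx_append_of_length_le h1]
          obtain ⟨k, rfl⟩ := Nat.exists_eq_add_of_le h1
          rw [Nat.add_sub_cancel_left]
          cases k with
          | zero => simpa using hC
          | succ k =>
            rw [List.eraseIdx_cons_succ, List.eraseIdx_cons_succ]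
            apply h
            have hk : k < l₂.length := by
              simp only [List.length_append, List.length_cons] at hi'
              omega
            have := List.length_eraseIdx_add_one hk
            simp only [List.length_append, List.length_cons]
            omega
    _ = (l₁.length + l₂.length + 1) * C := by
        simp only [Finset.sum_const, Finset.card_range, List.length_append, List.length_cons,
          nsmul_eq_mul, Nat.cast_add, Nat.cast_one]
        ring

end Pool.Agent.Helper24.BC
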