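import Pool.Agent.Helper24.BC.P_BlMul
import Pool.Agent.Helper24.BC.P_BlInv
import Pool.Agent.Helper24.BC.P_Dl

/-!
# Project BC, block POT: the smoothed cochain is a cocycle
-/

open scoped MatrixGroups UpperHalfPlane
open MeasureTheory

namespace Pool.Agent.Helper24.BC

open Pool.Agent.Helper11.BC

theorem abs_sm_le {b : List ℍ → ℝ} {M : ℝ} (h : ∀ l, |b l| ≤ M) (W : List ℍ) : |sm b W| ≤ M := by
  rw [← Bl_kap]
  refine (abs_Bl_le h _).trans (le_of_eq ?_)
  have h1 : ((W.map kap).map norm).prod = 1 := by
    induction W with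
    | nil => rfl
    | cons z l ih =>
      rw [List.map_cons, List.map_cons, List.prod_cons, norm_kap, ih, one_mul]
  rw [h1, mul_one]

theorem meas_sm {Θ : Type} [MeasurableSpace Θ] {b : Θ → List ℍ → ℝ} {M : ℝ} (h : JM b M)
    (W : List ℍ) : Measurable fun θ => sm (b θ) W := by
  have h1 := h.measurable_Bl (W.map kap)
  have h2 : (fun θ => Bl (b θ) (W.map kap)) = fun θ => sm (b θ) W :=
    funext fun θ => Bl_kap (b θ) W
  rwa [h2] at h1

theorem int_ker_mul (z : ℍ) {β : ℍ → ℝ} {M : ℝ} (hm : Measurable β) (hb : ∀ w, |β w| ≤ M) :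
    Integrable (fun w : ℍ => ker z w * β w) := by
  refine (integrable_ker z).mul_bdd (c := M) hm.aestronglyMeasurable ?_
  exact Filter.Eventually.of_forall fun w => by rw [Real.norm_eq_abs]; exact hb w

theorem int_sm {Θ : Type} [MeasurableSpace Θ] {b : Θ → List ℍ → ℝ} {M : ℝ} (h : JM b M)
    (θ : Θ) (z : ℍ) (W : List ℍ) :
    Integrable (fun w : ℍ => ker z w * sm (fun l' => b θ (w :: l')) W) := by
  refine int_ker_mul z (M := M) ?_ fun w => abs_sm_le (fun l => h.bdd θ (w :: l)) W
  exact (meas_sm h.cons W).comp (measurable_prodMk_left (x := θ))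

theorem sm_cons (b : List ℍ → ℝ) (z : ℍ) (l : List ℍ) :
    sm b (z :: l) = ∫ w : ℍ, ker z w * sm (fun l' => b (w :: l')) l := rfl

theorem sm_sub_fam (W : List ℍ) : ∀ {Θ : Type} [MeasurableSpace Θ] {b b' : Θ → List ℍ → ℝ}
    {M M' : ℝ}, JM b M → JM b' M' → ∀ θ : Θ,
    sm (fun L => b θ L - b' θ L) W = sm (b θ) W - sm (b' θ) W := by
  induction W with
  | nil => intro Θ _ b b' M M' h h' θ; rfl
  | cons z l ih =>
    intro Θ _ b b' M M' h h' θ
    rw [sm_cons, sm_cons, sm_cons, ← integral_sub (int_sm h θ z l) (int_sm h' θ z l)]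
    congr 1
    funext w
    have := ih h.cons h'.cons (θ, w)
    simp only at this
    rw [this]
    ring

/-- `sm` is linear in the cochain (induction on `W`, over all jointly measurable families; integrability
from `Bl_kap`, `abs_Bl_le`, `JM.measurable_Bl`). -/
theorem sm_sub {b b' : List ℍ → ℝ} {M : ℝ} (h : JM (fun _ : Unit => b) M)
    (h' : JM (fun _ : Unit => b') M) (W : List ℍ) :
    sm (fun L => b L - b' L) W = sm b W - sm b' W :=
  sm_sub_fam W h h' ()

/-- `sm b W` depends only on the values of `b` at the lists of the same length as `W`. -/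
theorem sm_congr {b b' : List ℍ → ℝ} {W : List ℍ}
    (h : ∀ L : List ℍ, L.length = W.length → b L = b' L) : sm b W = sm b' W := by
  induction W generalizing b b' with
  | nil => exact h [] rfl
  | cons z l ih =>
    rw [sm_cons, sm_cons]
    congr 1
    funext w
    rw [ih fun L hL => h (w :: L) (by simp [hL])]

theorem eraseIdx_ofFn' {m : ℕ} (f : Fin (m + 1) → ℍ) (i : ℕ) (hi : i < m + 1) :
    (List.ofFn f).eraseIdx i = List.ofFn fun j : Fin m => f (Fin.succAbove ⟨i, hi⟩ j) := by
  refine List.ext_getElem ?_ ?_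
  · rw [List.length_eraseIdx]
    simp [hi]
  · intro k h1 h2
    have hk : k < m := by simpa using h2
    rw [List.getElem_eraseIdx]
    split_ifs with hki
    · rw [List.getElem_ofFn, List.getElem_ofFn]
      congr 1
      ext
      rw [Fin.succAbove_of_castSucc_lt _ _ (by simpa [Fin.lt_def] using hki)]
      rfl
    · rw [List.getElem_ofFn, List.getElem_ofFn]
      congr 1
      ext
      rw [Fin.succAbove_of_le_castSucc _ _ (by simpa [Fin.le_def] using Nat.le_of_not_lt hki)]
      rfl

/-- The truncated coboundary. -/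
noncomputable def trd {Θ : Type} (n : ℕ) (b : Θ → List ℍ → ℝ) (θ : Θ) (L : List ℍ) : ℝ :=
  if L.length = n then dl (b θ) L else 0

theorem jm_trd {Θ : Type} [MeasurableSpace Θ] {b : Θ → List ℍ → ℝ} {M : ℝ} (h : JM b M) (n : ℕ) :
    JM (trd n b) (n * M) := by
  refine ⟨fun θ L => ?_, fun k => ?_⟩
  · have hM : 0 ≤ M := (abs_nonneg _).trans (h.bdd θ [])
    unfold trd
    split_ifs with hL
    · rw [← hL]
      exact abs_dl_le fun l' _ => h.bdd θ l'
    · rw [abs_zero]
      positivity
  · by_cases hk : k = n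
    · subst hk
      have h1 : (fun p : Θ × (Fin k → ℍ) => trd k b p.1 (List.ofFn p.2)) =
          fun p : Θ × (Fin k → ℍ) => dl (b p.1) (List.ofFn p.2) := by
        funext p
        unfold trd
        rw [if_pos (by simp)]
      rw [h1]
      unfold dl
      simp only [List.length_ofFn]
      refine Finset.measurable_sum _ fun i hi => ?_
      rw [Finset.mem_range] at hi
      obtain ⟨m, rfl⟩ : ∃ m, k = m + 1 := ⟨k - 1, by omega⟩
      simp only [smul_eq_mul]
      refine Measurable.const_mul ?_ _
      have h2 : (fun p : Θ × (Fin (m + 1) → ℍ) => b p.1 ((List.ofFn p.2).eraseIdx i)) =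
          (fun p : Θ × (Fin m → ℍ) => b p.1 (List.ofFn p.2)) ∘
            fun p : Θ × (Fin (m + 1) → ℍ) => (p.1, fun j : Fin m => p.2 (Fin.succAbove ⟨i, hi⟩ j)) := by
        funext p
        simp only [Function.comp]
        rw [eraseIdx_ofFn' p.2 i hi]
      rw [h2]
      refine (h.meas m).comp (Measurable.prodMk measurable_fst ?_)
      exact measurable_pi_lambda _ fun j => (measurable_pi_apply _).comp measurable_snd
    · have h1 : (fun p : Θ × (Fin k → ℍ) => trd n b p.1 (List.ofFn p.2)) = fun _ => 0 := by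
        funext p
        unfold trd
        rw [if_neg (by simpa using hk)]
      rw [h1]
      exact measurable_const

theorem sm_dl_fam (W : List ℍ) : ∀ {Θ : Type} [MeasurableSpace Θ] {b : Θ → List ℍ → ℝ}
    {M : ℝ}, JM b M → ∀ θ : Θ, sm (fun L => dl (b θ) L) W = dl (sm (b θ)) W := by
  induction W with
  | nil =>
    intro Θ _ b M h θ
    rw [dl_nil]
    exact dl_nil _
  | cons z l ih =>
    intro Θ _ b M h θ
    rw [sm_cons, dl_cons]
    have h1 : ∀ w : ℍ, sm (fun l' => dl (b θ) (w :: l')) l =
        sm (b θ) l - dl (fun l' => sm (fun L => b θ (w :: L)) l') l := by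
      intro w
      have h2 : sm (fun l' => dl (b θ) (w :: l')) l =
          sm (fun l' => b θ l' - trd l.length (fun (p : Θ × ℍ) L => b p.1 (p.2 :: L)) (θ, w) l') l := by
        refine sm_congr fun L hL => ?_
        rw [dl_cons]
        unfold trd
        rw [if_pos hL]
      rw [h2]
      have hJ : JM (fun (p : Θ × ℍ) L => b p.1 L) M :=
        ⟨fun p l => h.bdd p.1 l, fun k => (h.meas k).comp
          (Measurable.prodMk (measurable_fst.comp measurable_fst) measurable_snd)⟩
      have h3 := sm_sub_fam l hJ (jm_trd h.cons l.length) (θ, w)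
      simp only at h3
      rw [h3]
      congr 1
      rw [← ih h.cons (θ, w)]
      refine sm_congr fun L hL => ?_
      unfold trd
      rw [if_pos hL]
    simp only [h1]
    have h4 : ∀ w : ℍ, ker z w * (sm (b θ) l - dl (fun l' => sm (fun L => b θ (w :: L)) l') l) =
        ker z w * sm (b θ) l -
          ∑ i ∈ Finset.range l.length, (-1 : ℝ) ^ i *
            (ker z w * sm (fun L => b θ (w :: L)) (l.eraseIdx i)) := by
      intro w
      rw [mul_sub]
      congr 1
      unfold dl
      rw [Finset.mul_sum]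
      refine Finset.sum_congr rfl fun i _ => ?_
      rw [smul_eq_mul]
      ring
    simp only [h4]
    rw [integral_sub, integral_mul_const, integral_ker, one_mul, integral_finsetSum]
    · congr 1
      unfold dl
      refine Finset.sum_congr rfl fun i _ => ?_
      rw [integral_const_mul, smul_eq_mul]
      rfl
    · exact fun i _ => (int_sm h θ z _).const_mul _
    · exact (integrable_ker z).mul_const _
    · exact integrable_finsetSum _ fun i _ => (int_sm h θ z _).const_mul _

/-- The integral over a variable which does not occur is `1` (`integral_ker`).  By induction on `W`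
(over all `b`), with `dl_cons`: `dl (sm b) (z :: l) = sm b l - dl (fun l' => sm b (z :: l')) l`,
and `sm (dl b) (z :: l) = ∫ ker z w * sm (fun l' => b l' - dl (fun l'' => b (w :: l'')) l') l`. -/
theorem sm_dl {b : List ℍ → ℝ} {M : ℝ} (h : JM (fun _ : Unit => b) M) (W : List ℍ) :
    sm (fun L => dl b L) W = dl (sm b) W :=
  sm_dl_fam W h ()

theorem sm_cocycle {N : ℕ} {b : List ℍ → ℝ} {M : ℝ} (hb : IsCoc (N + 1) b M) {W : List ℍ}
    (hW : W.length = N + 3) : dl (sm b) W = 0 := by
  have hj : JM (fun _ : Unit => b) M := jm_of_continuous hb.bdd hb.cont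
  rw [← sm_dl hj W]
  have h0 : ∀ W' : List ℍ, sm (fun _ => (0 : ℝ)) W' = 0 := by
    intro W'
    induction W' with
    | nil => rfl
    | cons z l ih => simp [sm, ih]
  rw [← h0 W]
  exact sm_congr fun L hL => hb.coc L (by omega)

/-- The kernel data of the cocycle `b`. -/
noncomputable def kdata {N : ℕ} {b : List ℍ → ℝ} {M : ℝ} (hb : IsCoc (N + 1) b M) :
    KData N V1 where
  kap := kap
  Φ := Bl b
  M := M
  rho := rho
  kap_norm := fun z => (norm_kap z).le
  smooth := fun _ hz => contDiffAt_kap hz
  isMul := isMul_Bl (jm_of_continuous hb.bdd hb.cont)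
  rho_norm := norm_rho
  rho_kap := rho_kap
  Φ_inv := fun g l => Bl_rho g b (hb.inv g) l
  coc := fun W hW => by
    have : (fun L : List ℍ => Bl b (L.map kap)) = sm b := funext fun L => Bl_kap b L
    rw [this]
    exact sm_cocycle hb hW

end Pool.Agent.Helper24.BC
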