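import Pool.Agent.Helper24.BC.P_Mob

/-!
# Project BC, block POT: two points of the upper half plane lie on the line of a frame
-/

open scoped MatrixGroups UpperHalfPlane
open MeasureTheory

namespace Pool.Agent.Helper24.BC

open Pool.Agent.Helper11.BC

/-- The rotation of angle `θ` about `i`. -/
private noncomputable def frRot (θ : ℝ) : G :=
  ⟨!![Real.cos θ, Real.sin θ; -Real.sin θ, Real.cos θ], by
    rw [Matrix.det_fin_two_of]
    have := Real.sin_sq_add_cos_sq θ
    linear_combination this⟩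

private theorem frRot_apply (θ : ℝ) : (frRot θ) 0 0 = Real.cos θ ∧ (frRot θ) 0 1 = Real.sin θ ∧
    (frRot θ) 1 0 = -Real.sin θ ∧ (frRot θ) 1 1 = Real.cos θ := by
  refine ⟨?_, ?_, ?_, ?_⟩ <;> simp [frRot]

private theorem mob_frRot (θ : ℝ) (z : ℂ) : mob (frRot θ) z =
    ((Real.cos θ : ℝ) * z + (Real.sin θ : ℝ)) / (((-Real.sin θ : ℝ) : ℂ) * z + (Real.cos θ : ℝ)) := by
  obtain ⟨h1, h2, h3, h4⟩ := frRot_apply θ
  unfold mob
  rw [h1, h2, h3, h4]

private theorem frRot_smul_I (θ : ℝ) : frRot θ • UpperHalfPlane.I = UpperHalfPlane.I := by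
  apply UpperHalfPlane.ext
  have hd := den_ne (frRot θ) (z := Complex.I) (by simp)
  rw [coe_smul_eq, UpperHalfPlane.coe_I, mob_frRot]
  rw [(frRot_apply θ).2.2.1, (frRot_apply θ).2.2.2] at hd
  rw [div_eq_iff hd]
  push_cast
  linear_combination (Complex.sin θ) * Complex.I_mul_I

private theorem exists_frRot (t : ℍ) : ∃ θ : ℝ, (frRot θ • t).re = 0 := by
  have hf : Continuous fun θ : ℝ => (Real.cos θ ^ 2 - Real.sin θ ^ 2) * t.re +
      Real.cos θ * Real.sin θ * (1 - t.re ^ 2 - t.im ^ 2) := by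
    fun_prop
  have h0 : (0 : ℝ) ∈ Set.uIcc t.re (-t.re) := by
    rw [Set.mem_uIcc]
    rcases le_total t.re 0 with h | h
    · left; constructor <;> linarith
    · right; constructor <;> linarith
  have hiv := intermediate_value_uIcc (a := (0 : ℝ)) (b := Real.pi / 2) hf.continuousOn
  simp only [Real.cos_zero, Real.sin_zero, Real.cos_pi_div_two, Real.sin_pi_div_two] at hiv
  norm_num at hiv
  obtain ⟨θ, -, hθ⟩ := hiv h0
  refine ⟨θ, ?_⟩
  have h1 : (frRot θ • t).re = (mob (frRot θ) t).re := by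
    rw [← coe_smul_eq]
    rfl
  rw [h1, mob_frRot, Complex.div_re]
  have hre : ((t : ℂ)).re = t.re := rfl
  have him : ((t : ℂ)).im = t.im := rfl
  simp only [Complex.add_im, Complex.mul_im, Complex.ofReal_re, Complex.ofReal_im, zero_mul,
    add_zero, Complex.add_re, Complex.mul_re, sub_zero, hre, him]
  rw [← add_div, div_eq_zero_iff]
  left
  simp only at hθ
  linear_combination hθ

private theorem eq_vert {t : ℍ} (h : t.re = 0) : t = vert (Real.log t.im) := by
  apply UpperHalfPlane.ext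
  apply Complex.ext
  · exact h
  · show t.im = Real.exp (Real.log t.im)
    rw [Real.exp_log t.im_pos]

private theorem vert_zero : vert 0 = UpperHalfPlane.I := by
  apply UpperHalfPlane.ext
  apply Complex.ext
  · show (0 : ℝ) = Complex.I.re
    simp
  · show Real.exp 0 = Complex.I.im
    simp

private theorem dist_I_vert (τ : ℝ) : dist UpperHalfPlane.I (vert τ) = |τ| := by
  rw [← vert_zero, UpperHalfPlane.dist_of_re_eq (by rfl)]
  show dist (Real.log (Real.exp 0)) (Real.log (Real.exp τ)) = |τ|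
  rw [Real.log_exp, Real.log_exp, Real.dist_eq, zero_sub, abs_neg]

private theorem flip_vert (τ : ℝ) : Pool.Agent.Helper11.BC.flip • vert τ = vert (-τ) := by
  apply UpperHalfPlane.ext
  rw [coe_smul_eq]
  have h1 : Pool.Agent.Helper11.BC.flip 0 0 = 0 := by simp [Pool.Agent.Helper11.BC.flip]
  have h2 : Pool.Agent.Helper11.BC.flip 0 1 = -1 := by simp [Pool.Agent.Helper11.BC.flip]
  have h3 : Pool.Agent.Helper11.BC.flip 1 0 = 1 := by simp [Pool.Agent.Helper11.BC.flip]
  have h4 : Pool.Agent.Helper11.BC.flip 1 1 = 0 := by simp [Pool.Agent.Helper11.BC.flip]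
  unfold mob
  rw [h1, h2, h3, h4]
  have hv : ∀ σ : ℝ, ((vert σ : ℍ) : ℂ) = (Real.exp σ : ℝ) * Complex.I := by
    intro σ
    apply Complex.ext
    · show (0 : ℝ) = _
      simp
    · show Real.exp σ = _
      rw [Complex.im_ofReal_mul, Complex.I_im, mul_one]
  rw [hv, hv]
  rw [div_eq_iff (by simp [Complex.I_ne_zero])]
  rw [Real.exp_neg]
  push_cast
  have he' : (Complex.exp (τ : ℂ))⁻¹ * Complex.exp (τ : ℂ) = 1 :=
    inv_mul_cancel₀ (Complex.exp_ne_zero _)
  linear_combination (-(Complex.I ^ 2)) * he' - Complex.I_sq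

/-- By transitivity (`UpperHalfPlane.toSL2R`) and invariance of `dist`, take `s = i`.  For a rotation
`k_θ = !![cos θ, sin θ; -sin θ, cos θ]` (fixes `i`) the real part of `k_θ • t` is a continuous function
of `θ` with values `t.re` at `0` and `- t.re / |t|²` at `π / 2`: by the intermediate value theorem there
is a `θ` with `(k_θ • t).re = 0`, `k_θ • t = i e^τ`, `|τ| = dist i (i e^τ) = dist i t`
(`UpperHalfPlane.dist_of_re_eq`).  If `τ < 0`, compose with `z ↦ -1/z`. -/
theorem exists_frame (s t : ℍ) :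
    ∃ g : G, g • UpperHalfPlane.I = s ∧ g • vert (dist s t) = t := by
  obtain ⟨θ, hθ⟩ := exists_frRot (s.toSL2R⁻¹ • t)
  have hv := eq_vert hθ
  set τ := Real.log (frRot θ • s.toSL2R⁻¹ • t).im with hτ
  have hI : (s.toSL2R * (frRot θ)⁻¹) • UpperHalfPlane.I = s := by
    have h1 : (frRot θ)⁻¹ • UpperHalfPlane.I = UpperHalfPlane.I := by
      rw [inv_smul_eq_iff, frRot_smul_I]
    rw [mul_smul, h1, UpperHalfPlane.toSL2R_smul_I]
  have hT : (s.toSL2R * (frRot θ)⁻¹) • vert τ = t := by
    rw [← hv, mul_smul, inv_smul_smul, smul_inv_smul]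
  have hd : dist s t = |τ| := by
    have h1 := dist_smul (s.toSL2R * (frRot θ)⁻¹) UpperHalfPlane.I (vert τ)
    rw [hI, hT, dist_I_vert] at h1
    exact h1
  rcases le_total 0 τ with h | h
  · refine ⟨s.toSL2R * (frRot θ)⁻¹, hI, ?_⟩
    rw [hd, abs_of_nonneg h]
    exact hT
  · refine ⟨(s.toSL2R * (frRot θ)⁻¹) * Pool.Agent.Helper11.BC.flip, ?_, ?_⟩
    · rw [mul_smul]
      have h1 := flip_vert 0
      rw [neg_zero, vert_zero] at h1
      rw [h1]
      exact hI
    · rw [hd, abs_of_nonpos h, mul_smul, flip_vert, neg_neg]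
      exact hT

end Pool.Agent.Helper24.BC
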