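import Pool.Agent.Helper24.BC.P_Beta
import Pool.Agent.Helper24.BC.P_Fr

/-!
# Project BC, block POT: the potential and the functions `F` and `A`
-/

open scoped MatrixGroups UpperHalfPlane
open MeasureTheory

namespace Pool.Agent.Helper24.BC

open Pool.Agent.Helper11.BC

variable {N : ℕ}

open Classical in
/-- The potential of the closed form of `X`. -/
noncomputable def Forms.pot (S : Forms N) (X : List G) : ℂ → ℝ :=
  if h : X.length = N then (exists_potential (S.beta_prim X h)).choose else fun _ => 0

theorem Forms.pot_deriv (S : Forms N) {X : List G} (hX : X.length = N) {z : ℂ} (hz : 0 < z.im) :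
    HasFDerivAt (S.pot X) (S.beta X z) z := by
  unfold Forms.pot
  rw [dif_pos hX]
  exact (exists_potential (S.beta_prim X hX)).choose_spec z hz

/-- The function `F`. -/
noncomputable def Forms.F (S : Forms N) (X : List G) (s t : ℍ) : ℝ := S.pot X t - S.pot X s

/-- The frame of the segment from `s` to `t`. -/
noncomputable def fr (s t : ℍ) : G := (exists_frame s t).choose

theorem mob_fr_I (s t : ℍ) : mob (fr s t) Complex.I = s := by
  have h := (exists_frame s t).choose_spec.1
  have h2 := congrArg (fun z : ℍ => (z : ℂ)) h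
  simp only [coe_smul_eq] at h2
  exact h2

theorem coe_vert (τ : ℝ) : ((vert τ : ℍ) : ℂ) = (Real.exp τ : ℂ) * Complex.I := by
  apply Complex.ext
  · simp only [Complex.mul_re, Complex.ofReal_re, Complex.I_re, mul_zero, Complex.ofReal_im,
      Complex.I_im, mul_one, sub_zero]
    rfl
  · simp only [Complex.mul_im, Complex.ofReal_re, Complex.I_im, mul_one, Complex.ofReal_im,
      Complex.I_re, mul_zero, add_zero]
    rfl

theorem mob_fr_exp (s t : ℍ) :
    mob (fr s t) ((Real.exp (dist s t) : ℂ) * Complex.I) = t := by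
  have h := (exists_frame s t).choose_spec.2
  have h2 := congrArg (fun z : ℍ => (z : ℂ)) h
  simp only [coe_smul_eq, coe_vert] at h2
  exact h2

/-- The function `A`: the integral of `α` over the geodesic. -/
noncomputable def Forms.A (S : Forms N) (X : List G) (s t : ℍ) : ℝ :=
  vInt (pull (fr s t) (S.α (X.map pos))) (dist s t)

theorem Forms.beta_continuousOn (S : Forms N) {X : List G} (hX : X.length = N) :
    ContinuousOn (S.beta X) {z : ℂ | 0 < z.im} := (S.beta_prim X hX).continuousOn

theorem Forms.F_eq_vInt (S : Forms N) {X : List G} (hX : X.length = N) (s t : ℍ) :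
    S.F X s t = vInt (pull (fr s t) (S.beta X)) (dist s t) := by
  rw [vInt_pull_eq (S.beta_continuousOn hX) (fun z hz => S.pot_deriv hX hz), mob_fr_I, mob_fr_exp]
  rfl

theorem Forms.F_inv (S : Forms N) (hN : 2 ≤ N) (g : G) (X : List G) (s t : ℍ) :
    S.F (X.map (g * ·)) (g • s) (g • t) = S.F X s t := by
  by_cases hX : X.length = N
  · have hX' : (X.map (g * ·)).length = N := by rw [List.length_map, hX]
    have h1 : ∀ z : ℂ, 0 < z.im →
        HasFDerivAt (fun z => S.pot (X.map (g * ·)) (mob g z)) (S.beta X z) z := by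
      intro z hz
      have h2 := S.pot_deriv hX' (mob_im_pos g hz)
      have h3 : HasFDerivAt (mob g) (ContinuousLinearMap.mul ℝ ℂ (dmob g z)) z := by
        have := (hasDerivAt_mob g hz).hasFDerivAt.restrictScalars ℝ
        refine this.congr_fderiv ?_
        ext1 v
        simp [mul_comm]
      have h4 := h2.comp z h3
      refine h4.congr_fderiv ?_
      rw [← S.beta_inv hN g X hX hz]
      rfl
    have h5 := potential_unique h1 (fun z hz => S.pot_deriv hX hz) s.im_pos t.im_pos
    unfold Forms.F
    rw [coe_smul_eq, coe_smul_eq]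
    exact h5
  · have hX' : (X.map (g * ·)).length ≠ N := by rw [List.length_map]; exact hX
    unfold Forms.F Forms.pot
    rw [dif_neg hX, dif_neg hX']

theorem Forms.F_bd (S : Forms N) (Y : List G) (s t : ℍ) (hY : Y.length = N + 1) :
    dl (fun X => S.F X s t) Y = S.f (s :: Y.map pos) - S.f (t :: Y.map pos) := by
  have h1 : ∀ z : ℂ, 0 < z.im → HasFDerivAt (fun z => dl (fun X => S.pot X z) Y)
      (dl (fun X => S.α X z) (Y.map pos)) z := by
    intro z hz
    rw [← S.beta_dl]
    unfold dl
    refine HasFDerivAt.fun_sum fun i hi => ?_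
    have hi' : (Y.eraseIdx i).length = N := by
      rw [List.length_eraseIdx, if_pos (Finset.mem_range.1 hi), hY]
      rfl
    exact (S.pot_deriv hi' hz).const_smul ((-1 : ℝ) ^ i)
  have h2 : ∀ z : ℂ, 0 < z.im →
      HasFDerivAt (fun z => -S.f (UpperHalfPlane.ofComplex z :: Y.map pos))
      (dl (fun X => S.α X z) (Y.map pos)) z := by
    intro z hz
    have := (S.α_dl (Y.map pos) (by rw [List.length_map, hY]) z hz).neg
    rw [neg_neg] at this
    exact this
  have h3 := potential_unique h1 h2 s.im_pos t.im_pos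
  rw [UpperHalfPlane.ofComplex_apply, UpperHalfPlane.ofComplex_apply] at h3
  unfold Forms.F
  rw [dl_sub, h3]
  ring

/-- The integral of the form `La D` over the geodesic from `s` to `t`. -/
noncomputable def Forms.Li (S : Forms N) (D : List G) (s t : ℍ) : ℝ :=
  vInt (pull (fr s t) (S.La D)) (dist s t)

theorem Forms.F_sub_A (S : Forms N) {X : List G} (hX : X.length = N) (s t : ℍ) :
    S.F X s t - S.A X s t = -dl (fun D => S.Li D s t) X := by
  rw [S.F_eq_vInt hX]
  unfold Forms.A Forms.beta
  have h1 : ContinuousOn (S.α (X.map pos)) {z : ℂ | 0 < z.im} :=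
    (S.α_prim _ (by rw [List.length_map, hX])).continuousOn
  have h2 : ContinuousOn (fun z => dl (fun D : List G => S.La D z) X) {z : ℂ | 0 < z.im} :=
    (IsPrim.dl (a := fun D => S.La D) (w := fun D => S.w (D.map pos)) S.La_prim X).continuousOn
  have h3 : pull (fr s t) (fun z => S.α (X.map pos) z - dl (fun D : List G => S.La D z) X) =
      fun z => pull (fr s t) (S.α (X.map pos)) z -
        pull (fr s t) (fun z => dl (fun D : List G => S.La D z) X) z := by
    funext z
    exact pull_sub _ _ _ z
  rw [h3, vInt_sub (continuousOn_pull h1 _) (continuousOn_pull h2 _)]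
  have h4 : pull (fr s t) (fun z => dl (fun D : List G => S.La D z) X) =
      fun z => ∑ i ∈ Finset.range X.length,
        (-1 : ℝ) ^ i • pull (fr s t) (S.La (X.eraseIdx i)) z := by
    funext z
    rw [pull_dl]
    rfl
  rw [h4, vInt_sum]
  · unfold dl Forms.Li
    simp only [vInt_smul, smul_eq_mul]
    ring
  · intro i _
    exact (continuousOn_pull (S.La_prim _).continuousOn _).const_smul ((-1 : ℝ) ^ i)

/-- The integral of `La` changes little. -/
theorem Forms.Li_sub (S : Forms N) {l₁ l₂ : List G} {g h : G} (he : SameEnd g h) (s t : ℍ) :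
    |S.Li (l₁ ++ g :: l₂) s t - S.Li (l₁ ++ h :: l₂) s t| ≤
      Real.pi * (S.C * dist (pos g) (pos h)) := by
  have hend : SameEnd ((l₁ ++ g :: l₂).headD 1) ((l₁ ++ h :: l₂).headD 1) := by
    cases l₁ with
    | nil => exact he
    | cons x l =>
      show SameEnd x x
      unfold SameEnd
      rw [inv_mul_cancel]
      simp
  have h1 : S.Li (l₁ ++ h :: l₂) s t =
      vInt (pull (fr s t) (Lam ((l₁ ++ g :: l₂).headD 1) (S.w ((l₁ ++ h :: l₂).map pos))))
        (dist s t) := by
    unfold Forms.Li Forms.La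
    refine vInt_congr (fun z hz => ?_) _
    exact pull_congr _ (fun y hy => (Lam_end hend _ hy).symm) hz
  rw [h1]
  refine vInt_Lam_sub _ _ dist_nonneg (S.dens_pullw _ _) (S.dens_pullw _ _) fun z hz => ?_
  rw [List.map_append, List.map_append, List.map_cons, List.map_cons]
  exact S.w_lip _ _ _ _ z hz

theorem Lam_zero (h : G) (z : ℂ) : Lam h (fun _ => 0) z = 0 := by
  unfold Lam
  ext1 v
  rw [pull_apply]
  unfold lam0 pullw
  simp

theorem Forms.abs_Li_le (S : Forms N) (D : List G) (s t : ℍ) :
    |S.Li D s t| ≤ Real.pi * S.C := by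
  have hC0 : 0 ≤ S.C := le_trans zero_le_one S.one_le_C
  have h1 := vInt_Lam_sub (fr s t) (D.headD 1) (w := S.w (D.map pos)) (w' := fun _ => 0)
    (C := S.C) (δ := S.C) (T := dist s t) dist_nonneg (S.dens_pullw _ _) ?_ ?_
  · have h2 : vInt (pull (fr s t) (Lam (D.headD 1) fun _ => 0)) (dist s t) = 0 := by
      unfold vInt
      have : ∀ τ : ℝ, pull (fr s t) (Lam (D.headD 1) fun _ => 0) (Real.exp τ * Complex.I)
          (Real.exp τ * Complex.I) = 0 := by
        intro τ
        rw [pull_apply, Lam_zero]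
        rfl
      simp only [this]
      simp
    rw [h2, sub_zero] at h1
    exact h1
  · have : pullw (D.headD 1) (fun _ => 0) = fun _ => 0 := by
      funext z
      simp [pullw]
    rw [this]
    refine ⟨fun z _ => contDiffAt_const, fun z hz => ?_, fun z hz => ?_⟩
    · simp only [abs_zero]
      positivity
    · simp only [fderiv_fun_const, Pi.zero_apply, norm_zero]
      positivity
  · intro z hz
    rw [sub_zero]
    exact (S.w_dens _).bd z hz

theorem Forms.FA (S : Forms N) {X : List G} (hX : X.length = N) (s t : ℍ) :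
    |S.F X s t - S.A X s t| ≤ N * (Real.pi * S.C) := by
  rw [S.F_sub_A hX, abs_neg]
  have := abs_dl_le (Φ := fun D => S.Li D s t) (l := X) (C := Real.pi * S.C)
    (fun l' _ => S.abs_Li_le l' s t)
  rw [hX] at this
  exact this

theorem Forms.A_growth (S : Forms N) (X : List G) (s t : ℍ) :
    |S.A X s t| ≤ S.C * dist s t :=
  abs_vInt_pull_le (fun z v hz => S.α_bd _ z v hz) _ dist_nonneg

theorem Forms.A_lip (S : Forms N) (l₁ l₂ : List G) (g h : G) (s t : ℍ)
    (hl : (l₁ ++ g :: l₂).length = N) :
    |S.A (l₁ ++ g :: l₂) s t - S.A (l₁ ++ h :: l₂) s t| ≤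
      S.C * dist s t * dist (pos g) (pos h) := by
  unfold Forms.A
  have h1 : ContinuousOn (S.α ((l₁ ++ g :: l₂).map pos)) {z : ℂ | 0 < z.im} :=
    (S.α_prim _ (by rw [List.length_map, hl])).continuousOn
  have h2 : ContinuousOn (S.α ((l₁ ++ h :: l₂).map pos)) {z : ℂ | 0 < z.im} :=
    (S.α_prim _ (by rw [List.length_map, ← hl]; simp)).continuousOn
  rw [← vInt_sub (continuousOn_pull h1 _) (continuousOn_pull h2 _)]
  have h3 : (fun z => pull (fr s t) (S.α ((l₁ ++ g :: l₂).map pos)) z -
      pull (fr s t) (S.α ((l₁ ++ h :: l₂).map pos)) z) =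
      pull (fr s t) (fun z => S.α ((l₁ ++ g :: l₂).map pos) z -
        S.α ((l₁ ++ h :: l₂).map pos) z) := by
    funext z
    exact (pull_sub _ _ _ z).symm
  rw [h3]
  have h4 := abs_vInt_pull_le (a := fun z => S.α ((l₁ ++ g :: l₂).map pos) z -
        S.α ((l₁ ++ h :: l₂).map pos) z) (C := S.C * dist (pos g) (pos h)) (fun z v hz => ?_)
    (fr s t) (T := dist s t) dist_nonneg
  · linarith [h4]
  · rw [List.map_append, List.map_append, List.map_cons, List.map_cons]
    exact S.α_lip _ _ _ _ z v hz

theorem Forms.F_lip (S : Forms N) (l₁ l₂ : List G) (g h : G) (s t : ℍ)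
    (hl : (l₁ ++ g :: l₂).length = N) (he : SameEnd g h) :
    |S.F (l₁ ++ g :: l₂) s t - S.F (l₁ ++ h :: l₂) s t| ≤
      (S.C + N * (Real.pi * S.C)) * (1 + dist s t) * dist (pos g) (pos h) := by
  have hl' : (l₁ ++ h :: l₂).length = N := by rw [← hl]; simp
  have h1 := S.F_sub_A hl s t
  have h2 := S.F_sub_A hl' s t
  have hC : 0 ≤ S.C := le_trans zero_le_one S.one_le_C
  have h3 := abs_dl_sub_le (Φ := fun D => S.Li D s t) (l₁ := l₁) (l₂ := l₂) (p := g) (q := h)
    (C := Real.pi * (S.C * dist (pos g) (pos h))) (by positivity)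
    (fun m₁ m₂ _ => S.Li_sub he s t)
  have h4 := S.A_lip l₁ l₂ g h s t hl
  have h5 : ((l₁.length : ℝ) + l₂.length + 1) = N := by
    rw [← hl]
    push_cast [List.length_append, List.length_cons]
    ring
  rw [h5] at h3
  have h6 : S.F (l₁ ++ g :: l₂) s t - S.F (l₁ ++ h :: l₂) s t =
      (S.A (l₁ ++ g :: l₂) s t - S.A (l₁ ++ h :: l₂) s t) -
      (dl (fun D => S.Li D s t) (l₁ ++ g :: l₂) - dl (fun D => S.Li D s t) (l₁ ++ h :: l₂)) := by
    linarith
  rw [h6]
  refine (abs_sub _ _).trans ?_
  have h7 : 0 ≤ dist s t := dist_nonneg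
  have h8 : 0 ≤ dist (pos g) (pos h) := dist_nonneg
  have h9 : (0 : ℝ) ≤ N := Nat.cast_nonneg N
  have h10 := Real.pi_pos.le
  calc |S.A (l₁ ++ g :: l₂) s t - S.A (l₁ ++ h :: l₂) s t| +
        |dl (fun D => S.Li D s t) (l₁ ++ g :: l₂) - dl (fun D => S.Li D s t) (l₁ ++ h :: l₂)|
      ≤ S.C * dist s t * dist (pos g) (pos h) +
        N * (Real.pi * (S.C * dist (pos g) (pos h))) := add_le_add h4 h3
    _ ≤ (S.C + N * (Real.pi * S.C)) * (1 + dist s t) * dist (pos g) (pos h) := by
        have e1 : 0 ≤ S.C * dist (pos g) (pos h) := by positivity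
        have e2 : 0 ≤ N * (Real.pi * S.C) * dist s t * dist (pos g) (pos h) := by positivity
        nlinarith

/-- The forms of a smooth bounded cocycle give the data on interior points. -/
noncomputable def Forms.toPSys (S : Forms N) (hN : 2 ≤ N) : PSys N where
  f0 := fun s Y => S.f (s :: Y.map pos)
  fW := fun W => S.f (W.map pos)
  F := S.F
  A := S.A
  C := S.C + N * (Real.pi * S.C)
  one_le_C := by
    have := S.one_le_C
    have hC : 0 ≤ S.C := le_trans zero_le_one S.one_le_C
    have : 0 ≤ N * (Real.pi * S.C) := by positivity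
    linarith
  f0_bdd := fun s Y _ => by
    have hC : 0 ≤ S.C := le_trans zero_le_one S.one_le_C
    have : 0 ≤ N * (Real.pi * S.C) := by positivity
    linarith [S.f_bdd (s :: Y.map pos)]
  f0_lip := fun l₁ l₂ g h s _ _ => by
    have hC : 0 ≤ S.C := le_trans zero_le_one S.one_le_C
    have h0 : 0 ≤ N * (Real.pi * S.C) := by positivity
    have h1 := S.f_lip (s :: l₁.map pos) (l₂.map pos) (pos g) (pos h)
    rw [List.map_append, List.map_append, List.map_cons, List.map_cons]
    rw [List.cons_append, List.cons_append] at h1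
    refine h1.trans ?_
    have h8 : 0 ≤ dist (pos g) (pos h) := dist_nonneg
    nlinarith
  f0_inv := fun g s Y => by
    have := S.f_inv g (s :: Y.map pos)
    rw [List.map_cons, ← map_pos] at this
    exact this
  f0_bd := fun s W hW => by
    have h1 := S.f_coc (s :: W.map pos) (by simp [hW])
    rw [dl_cons, dl_map] at h1
    linarith
  F_inv := fun g X s t => S.F_inv hN g X s t
  F_add := fun X s t u _ => by
    unfold Forms.F
    ring
  F_bd := fun Y s t hY => S.F_bd Y s t hY
  F_lip := fun l₁ l₂ g h s t hl he => S.F_lip l₁ l₂ g h s t hl he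
  FA := fun X s t hX => by
    have hC : 0 ≤ S.C := le_trans zero_le_one S.one_le_C
    linarith [S.FA hX s t]
  A_growth := fun X s t _ => by
    have hC : 0 ≤ S.C := le_trans zero_le_one S.one_le_C
    have h0 : 0 ≤ N * (Real.pi * S.C) := by positivity
    have h1 := S.A_growth X s t
    have h7 : 0 ≤ dist s t := dist_nonneg
    nlinarith
  A_lip := fun l₁ l₂ g h s t hl => by
    have hC : 0 ≤ S.C := le_trans zero_le_one S.one_le_C
    have h0 : 0 ≤ N * (Real.pi * S.C) := by positivity
    have h1 := S.A_lip l₁ l₂ g h s t hl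
    have h7 : 0 ≤ dist s t := dist_nonneg
    have h8 : 0 ≤ dist (pos g) (pos h) := dist_nonneg
    have h9 : 0 ≤ N * (Real.pi * S.C) * dist s t * dist (pos g) (pos h) := by positivity
    nlinarith

end Pool.Agent.Helper24.BC
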