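import Pool.Agent.Helper24.BC.P_Jw
import Pool.Agent.Helper24.BC.P_F
import Pool.Agent.Helper24.BC.P_Coc

/-!
# Project BC, block POT: assembly
-/

open scoped MatrixGroups UpperHalfPlane
open MeasureTheory

namespace Pool.Agent.Helper24.BC

open Pool.Agent.Helper11.BC

variable {N : ℕ} {V : Type} [NormedAddCommGroup V] [NormedSpace ℝ V]

theorem KData.M_nonneg (K : KData N V) : 0 ≤ K.M := by
  have h := K.isMul.bd []
  simp only [List.map_nil, List.prod_nil, mul_one] at h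
  exact (abs_nonneg _).trans h

/-- The forms of the kernel data. -/
theorem KData.exists_forms (K : KData N V) : ∃ S : Forms N, ∀ L, S.f L = K.Φ (L.map K.kap) := by
  obtain ⟨C₁, h1, hC₁⟩ := K.exists_bd
  obtain ⟨C₂, h2, hC₂⟩ := K.exists_lip
  have hM := K.M_nonneg
  have hC1 : ∀ z : ℂ, 0 < z.im → ‖fderiv ℝ K.kc z‖ ≤ C₁ / z.im := fun z hz => (hC₁ z hz).1
  have p1 : 0 ≤ C₁ := le_trans zero_le_one h1
  have p2 : 0 ≤ C₂ := le_trans zero_le_one h2
  have a1 : 0 ≤ K.M * C₁ := by positivity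
  have a2 : 0 ≤ K.M * C₂ := by positivity
  have a3 : 0 ≤ K.M * C₁ * C₂ := by positivity
  have a4 : 0 ≤ 6 * K.M * C₁ ^ 3 := by positivity
  have a5 : 0 ≤ 2 * K.M * C₁ ^ 2 * C₂ := by positivity
  have a6 : 0 ≤ 2 * K.M * C₁ ^ 2 := by positivity
  set Cf : ℝ := 1 + K.M + K.M * C₁ + K.M * C₂ + K.M * C₁ * C₂ + 6 * K.M * C₁ ^ 3 +
    2 * K.M * C₁ ^ 2 * C₂ + 2 * K.M * C₁ ^ 2 with hCf
  refine ⟨{
    f := fun L => K.Φ (L.map K.kap)
    α := K.al
    w := K.wd
    C := Cf
    one_le_C := by linarith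
    f_bdd := fun L => ?_
    f_lip := fun l₁ l₂ p q => ?_
    f_inv := fun g L => ?_
    f_coc := fun W hW => K.coc W hW
    α_bd := fun X z v hz => ?_
    α_lip := fun l₁ l₂ p q z v hz => ?_
    α_inv := fun g X z hz => K.al_inv g X z hz
    α_prim := fun X hX => K.al_prim X hX
    α_dl := fun Y hY z hz => K.al_dl Y hY z hz
    w_dens := fun D => ⟨fun z hz => K.wd_contDiffAt D hz, fun z hz => ?_, fun z hz => ?_⟩
    w_lip := fun l₁ l₂ p q z hz => ?_
    w_inv := fun g D z hz => K.wd_inv g D z hz }, fun L => rfl⟩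
  · have := K.abs_Φ_le [] L
    simp only [List.nil_append, List.map_nil, List.prod_nil, mul_one] at this
    linarith
  · have := K.abs_Φ_sub_le hC₂ [] l₁ l₂ p q
    simp only [List.nil_append, List.map_nil, List.prod_nil, mul_one] at this
    refine this.trans ?_
    have hd : 0 ≤ dist p q := dist_nonneg
    rw [← mul_assoc]
    exact mul_le_mul_of_nonneg_right (by linarith) hd
  · rw [← K.Φ_inv g (L.map K.kap), List.map_map, List.map_map]
    congr 1
    exact List.map_congr_left fun z _ => K.rho_kap g z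
  · refine (K.al_bd hC1 X z v hz).trans ?_
    have : K.M * C₁ ≤ Cf := by linarith
    gcongr
  · refine (K.al_lip hC1 hC₂ l₁ l₂ p q z v hz).trans ?_
    have : K.M * C₁ * C₂ ≤ Cf := by linarith
    have hd : 0 ≤ dist p q := dist_nonneg
    gcongr
  · refine (K.wd_bd hC1 D hz).trans ?_
    have : 2 * K.M * C₁ ^ 2 ≤ Cf := by linarith
    gcongr
  · refine (K.wd_bd1 h1 hC₁ D hz).trans ?_
    have : 6 * K.M * C₁ ^ 3 ≤ Cf := by linarith
    gcongr
  · refine (K.wd_lip hC1 hC₂ l₁ l₂ p q hz).trans ?_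
    have : 2 * K.M * C₁ ^ 2 * C₂ ≤ Cf := by linarith
    have hd : 0 ≤ dist p q := dist_nonneg
    gcongr

/-- Block POT. -/
theorem exists_psys (hN : 2 ≤ N) (b : List ℍ → ℝ) (M : ℝ) (hb : IsCoc (N + 1) b M) :
    ∃ P : PSys N, ∀ W : List G, W.length = N + 2 → P.fW W = sm b (W.map pos) := by
  obtain ⟨S, hS⟩ := (kdata hb).exists_forms
  refine ⟨S.toPSys hN, fun W _ => ?_⟩
  show S.f (W.map pos) = _
  rw [hS]
  exact Bl_kap b _

end Pool.Agent.Helper24.BC
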