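import Pool.Agent.Helper24.BC.P_Lam0

/-!
# Project BC, block POT: equivariance of the primitives with ideal vertices
-/

open scoped MatrixGroups UpperHalfPlane
open MeasureTheory

namespace Pool.Agent.Helper24.BC

open Pool.Agent.Helper11.BC

theorem lam0_congr {w w' : ℂ → ℝ} (h : ∀ z : ℂ, 0 < z.im → w z = w' z) {z : ℂ} (hz : 0 < z.im) :
    lam0 w z = lam0 w' z := by
  unfold lam0
  congr 1
  refine setIntegral_congr_fun measurableSet_Ioi fun t ht => ?_
  refine h _ ?_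
  have : (0 : ℝ) < t := ht
  simp
  linarith

/-- `mob p z = a² z + a b`, `dmob p z = a²` (`a = p 0 0`, `b = p 0 1`); substitute `s = a² t` in the
integral (`integral_comp_mul_left_Ioi`). -/
theorem lam0_affine (p : G) (hp : p 1 0 = 0) (w : ℂ → ℝ) (z : ℂ) :
    pull p (lam0 w) z = lam0 (pullw p w) z := by
  have hdet := det_eq p
  rw [hp, mul_zero, sub_zero] at hdet
  have ha : p 0 0 ≠ 0 := fun h => by rw [h, zero_mul] at hdet; exact zero_ne_one hdet
  have hd : p 1 1 ≠ 0 := fun h => by rw [h, mul_zero] at hdet; exact zero_ne_one hdet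
  have hinv : p 1 1 = (p 0 0)⁻¹ := by field_simp; linarith
  have hda : ((p 1 1 : ℝ) : ℂ) = ((p 0 0 : ℝ) : ℂ)⁻¹ := by rw [hinv]; push_cast; rfl
  have hac : ((p 0 0 : ℝ) : ℂ) ≠ 0 := by exact_mod_cast ha
  have hmob : ∀ y : ℂ, mob p y = ((p 0 0 : ℝ) : ℂ) ^ 2 * y + ((p 0 0 : ℝ) : ℂ) * (p 0 1 : ℝ) := by
    intro y
    unfold mob
    rw [hp, hda]
    push_cast
    rw [zero_mul, zero_add, div_inv_eq_mul]
    ring
  have hdmob : ∀ y : ℂ, dmob p y = (((p 0 0) ^ 2 : ℝ) : ℂ) := by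
    intro y
    unfold dmob
    rw [hp, hda]
    push_cast
    rw [zero_mul, zero_add, inv_pow, inv_inv]
  ext1 v
  rw [pull_apply]
  unfold lam0
  simp only [smul_apply, Complex.reCLM_apply, smul_eq_mul]
  rw [hdmob z, Complex.re_ofReal_mul]
  have hpos : 0 < (p 0 0) ^ 2 := by positivity
  have key := integral_comp_mul_left_Ioi (fun s : ℝ => w (mob p z + s * Complex.I)) 0 hpos
  rw [mul_zero] at key
  have h2 : ∀ t : ℝ, pullw p w (z + t * Complex.I) =
      ((p 0 0) ^ 2) ^ 2 * w (mob p z + ((((p 0 0) ^ 2 * t : ℝ)) : ℂ) * Complex.I) := by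
    intro t
    unfold pullw
    rw [hdmob, Complex.normSq_ofReal, hmob (z + t * Complex.I), hmob z]
    have : ((p 0 0 : ℝ) : ℂ) ^ 2 * (z + t * Complex.I) + ((p 0 0 : ℝ) : ℂ) * (p 0 1 : ℝ) =
      ((p 0 0 : ℝ) : ℂ) ^ 2 * z + ((p 0 0 : ℝ) : ℂ) * (p 0 1 : ℝ) +
        ((((p 0 0) ^ 2 * t : ℝ)) : ℂ) * Complex.I := by
      push_cast
      ring
    rw [this]
    ring
  rw [setIntegral_congr_fun measurableSet_Ioi (fun t _ => h2 t), integral_const_mul, key]
  simp only [smul_eq_mul]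
  generalize (∫ x in Set.Ioi (0 : ℝ), w (mob p z + x * Complex.I)) = Q
  field_simp

theorem Lam_congr (h : G) {w w' : ℂ → ℝ} (hw : ∀ z : ℂ, 0 < z.im → w z = w' z) {z : ℂ}
    (hz : 0 < z.im) : Lam h w z = Lam h w' z := by
  refine pull_congr h⁻¹ (fun y hy => lam0_congr (fun x hx => pullw_congr h hw hx) hy) hz

theorem Lam_prim (h : G) {w : ℂ → ℝ} {C : ℝ} (hw : Dens0 (pullw h w) C) : IsPrim (Lam h w) w := by
  refine ((lam0_prim hw).pull h⁻¹).congr (fun _ _ => rfl) (fun z hz => ?_)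
  rw [← pullw_mul h h⁻¹ w hz, mul_inv_cancel, pullw_one]

theorem Lam_end {g h : G} (he : SameEnd g h) (w : ℂ → ℝ) {z : ℂ} (hz : 0 < z.im) :
    Lam g w z = Lam h w z := by
  obtain ⟨p, rfl⟩ : ∃ p : G, h = g * p := ⟨g⁻¹ * h, by group⟩
  have hp : p 1 0 = 0 := by
    have : g⁻¹ * (g * p) = p := by group
    rw [SameEnd, this] at he
    exact he
  unfold Lam
  rw [mul_inv_rev, pull_mul _ _ _ hz]
  refine pull_congr g⁻¹ (fun y hy => ?_) hz
  rw [← pull_one (lam0 (pullw g w)) y, ← mul_inv_cancel p, pull_mul _ _ _ hy]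
  refine pull_congr p⁻¹ (fun x hx => ?_) hy
  rw [lam0_affine p hp]
  exact lam0_congr (fun v hv => (pullw_mul g p w hv).symm) hx

theorem Lam_pull (g h : G) (w : ℂ → ℝ) {z : ℂ} (hz : 0 < z.im) :
    pull g (Lam (g * h) w) z = Lam h (pullw g w) z := by
  unfold Lam
  rw [← pull_mul _ _ _ hz]
  have : (g * h)⁻¹ * g = h⁻¹ := by group
  rw [this]
  exact pull_congr h⁻¹ (fun y hy => lam0_congr (fun x hx => pullw_mul g h w hx) hy) hz

end Pool.Agent.Helper24.BC
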