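import Pool.Agent.Helper24.BC.P_Pull

/-!
# Project BC, block POT: integrals over geodesic segments
-/

open scoped MatrixGroups UpperHalfPlane
open MeasureTheory

namespace Pool.Agent.Helper24.BC

open Pool.Agent.Helper11.BC

theorem expI_im (τ : ℝ) : 0 < ((Real.exp τ : ℂ) * Complex.I).im := by
  simp only [Complex.mul_im, Complex.ofReal_re, Complex.I_im, mul_one, Complex.ofReal_im,
    Complex.I_re, mul_zero, add_zero]
  exact Real.exp_pos τ

theorem continuous_expI : Continuous fun τ : ℝ => (Real.exp τ : ℂ) * Complex.I := by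
  have : Continuous fun τ : ℝ => ((Real.exp τ : ℝ) : ℂ) := Complex.continuous_ofReal.comp
    Real.continuous_exp
  exact this.mul continuous_const

/-- The integrand of `vInt` is continuous. -/
theorem continuous_integrand {a : Form} (ha : ContinuousOn a {z : ℂ | 0 < z.im}) :
    Continuous fun τ : ℝ => a (Real.exp τ * Complex.I) (Real.exp τ * Complex.I) := by
  have h1 : Continuous fun τ : ℝ => a ((Real.exp τ : ℂ) * Complex.I) := by
    rw [← continuousOn_univ]
    exact ha.comp continuous_expI.continuousOn (fun τ _ => expI_im τ)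
  exact h1.clm_apply continuous_expI

theorem intervalIntegrable_integrand {a : Form} (ha : ContinuousOn a {z : ℂ | 0 < z.im}) (T : ℝ) :
    IntervalIntegrable (fun τ : ℝ => a (Real.exp τ * Complex.I) (Real.exp τ * Complex.I))
      volume 0 T :=
  (continuous_integrand ha).intervalIntegrable _ _

theorem vInt_congr {a b : Form} (h : ∀ z : ℂ, 0 < z.im → a z = b z) (T : ℝ) :
    vInt a T = vInt b T := by
  unfold vInt
  refine intervalIntegral.integral_congr fun τ _ => ?_
  rw [h _ (expI_im τ)]

theorem vInt_sub {a b : Form} (ha : ContinuousOn a {z : ℂ | 0 < z.im})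
    (hb : ContinuousOn b {z : ℂ | 0 < z.im}) (T : ℝ) :
    vInt (fun z => a z - b z) T = vInt a T - vInt b T := by
  unfold vInt
  rw [← intervalIntegral.integral_sub (intervalIntegrable_integrand ha T)
    (intervalIntegrable_integrand hb T)]
  rfl

theorem vInt_smul (c : ℝ) (a : Form) (T : ℝ) : vInt (fun z => c • a z) T = c * vInt a T := by
  unfold vInt
  rw [← intervalIntegral.integral_const_mul]
  rfl

theorem vInt_sum {ι : Type*} (s : Finset ι) {a : ι → Form}
    (ha : ∀ i ∈ s, ContinuousOn (a i) {z : ℂ | 0 < z.im}) (T : ℝ) :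
    vInt (fun z => ∑ i ∈ s, a i z) T = ∑ i ∈ s, vInt (a i) T := by
  unfold vInt
  rw [← intervalIntegral.integral_finsetSum (fun i hi => intervalIntegrable_integrand (ha i hi) T)]
  refine intervalIntegral.integral_congr fun τ _ => ?_
  simp

theorem continuousOn_pull {a : Form} (ha : ContinuousOn a {z : ℂ | 0 < z.im}) (g : G) :
    ContinuousOn (pull g a) {z : ℂ | 0 < z.im} := by
  have h1 : ContinuousOn (mob g) {z : ℂ | 0 < z.im} := fun z hz =>
    (hasDerivAt_mob g hz).continuousAt.continuousWithinAt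
  have h2 : ContinuousOn (dmob g) {z : ℂ | 0 < z.im} := fun z hz => by
    obtain ⟨c, hc⟩ := hasDerivAt_dmob g hz
    exact hc.continuousAt.continuousWithinAt
  have h3 : ContinuousOn (fun z => a (mob g z)) {z : ℂ | 0 < z.im} :=
    ha.comp h1 (fun z hz => mob_im_pos g hz)
  have h4 : ContinuousOn (fun z => ContinuousLinearMap.mul ℝ ℂ (dmob g z)) {z : ℂ | 0 < z.im} :=
    (ContinuousLinearMap.mul ℝ ℂ).continuous.comp_continuousOn h2
  exact h3.clm_comp h4

/-- The fundamental theorem of calculus along a geodesic. -/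
theorem vInt_pull_eq {a : Form} {U : ℂ → ℝ} (ha : ContinuousOn a {z : ℂ | 0 < z.im})
    (hU : ∀ z : ℂ, 0 < z.im → HasFDerivAt U (a z) z) (g : G) (T : ℝ) :
    vInt (pull g a) T =
      U (mob g (Real.exp T * Complex.I)) - U (mob g Complex.I) := by
  have hd : ∀ τ : ℝ, HasDerivAt (fun τ : ℝ => U (mob g ((Real.exp τ : ℂ) * Complex.I)))
      (pull g a (Real.exp τ * Complex.I) (Real.exp τ * Complex.I)) τ := by
    intro τ
    have h1 : HasDerivAt (fun τ : ℝ => (Real.exp τ : ℂ) * Complex.I)
        ((Real.exp τ : ℂ) * Complex.I) τ :=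
      ((Real.hasDerivAt_exp τ).ofReal_comp).mul_const _
    have h2 := (hasDerivAt_mob g (expI_im τ)).comp_of_eq τ h1 rfl
    have h3 := (hU _ (mob_im_pos g (expI_im τ))).comp_hasDerivAt τ h2
    refine h3.congr_deriv ?_
    rw [pull_apply]
  unfold vInt
  rw [intervalIntegral.integral_eq_sub_of_hasDerivAt (fun τ _ => hd τ)
    (intervalIntegrable_integrand (continuousOn_pull ha g) T)]
  simp

/-- The integral of a form of bounded hyperbolic norm. -/
theorem abs_vInt_pull_le {a : Form} {C : ℝ}
    (h : ∀ z v : ℂ, 0 < z.im → |a z v| ≤ C * ‖v‖ / z.im) (g : G) {T : ℝ} (hT : 0 ≤ T) :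
    |vInt (pull g a) T| ≤ C * T := by
  unfold vInt
  have := intervalIntegral.norm_integral_le_of_norm_le_const (a := 0) (b := T) (C := C)
    (f := fun τ : ℝ => pull g a (Real.exp τ * Complex.I) (Real.exp τ * Complex.I)) ?_
  · rw [sub_zero, abs_of_nonneg hT] at this
    exact this
  · intro τ _
    rw [pull_apply, Real.norm_eq_abs]
    refine (h _ _ (mob_im_pos g (expI_im τ))).trans ?_
    rw [norm_mul, norm_dmob g (expI_im τ)]
    have h1 := mob_im_pos g (expI_im τ)
    have h2 : ‖(Real.exp τ : ℂ) * Complex.I‖ = ((Real.exp τ : ℂ) * Complex.I).im := by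
      rw [norm_mul, Complex.norm_I, mul_one, Complex.norm_real, Real.norm_eq_abs,
        abs_of_pos (Real.exp_pos τ)]
      simp only [Complex.mul_im, Complex.ofReal_re, Complex.I_im, mul_one, Complex.ofReal_im,
        Complex.I_re, mul_zero, add_zero]
    rw [h2]
    have h3 := expI_im τ
    apply le_of_eq
    field_simp

end Pool.Agent.Helper24.BC
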