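import Pool.Agent.Helper24.BC.P_Pi
import Pool.Agent.Helper24.BC.P_Ftc
import Pool.Agent.Helper24.BC.P_Dl

/-!
# Project BC, block POT: the closed form of a list
-/

open scoped MatrixGroups UpperHalfPlane
open MeasureTheory

namespace Pool.Agent.Helper24.BC

open Pool.Agent.Helper11.BC

variable {N : ℕ}

theorem pos_mul (g x : G) : pos (g * x) = g • pos x := by
  unfold pos
  rw [mul_smul]

theorem map_pos (g : G) (X : List G) : (X.map (g * ·)).map pos = (X.map pos).map (g • ·) := by
  rw [List.map_map, List.map_map]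
  refine List.map_congr_left fun x _ => ?_
  exact pos_mul g x

theorem Dens0.congr {w w' : ℂ → ℝ} {C : ℝ} (h : Dens0 w C)
    (hw : ∀ z : ℂ, 0 < z.im → w z = w' z) : Dens0 w' C := by
  have he : ∀ z : ℂ, 0 < z.im → w' =ᶠ[nhds z] w := by
    intro z hz
    filter_upwards [isOpen_uhp.mem_nhds hz] with y hy
    exact (hw y hy).symm
  refine ⟨fun z hz => (h.smooth z hz).congr_of_eventuallyEq (he z hz), fun z hz => ?_,
    fun z hz => ?_⟩
  · rw [← hw z hz]
    exact h.bd z hz
  · rw [(he z hz).fderiv_eq]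
    exact h.bd1 z hz

theorem Forms.pullw_w (S : Forms N) (h : G) (D : List ℍ) {z : ℂ} (hz : 0 < z.im) :
    pullw h (S.w D) z = S.w (D.map (h⁻¹ • ·)) z := by
  have h1 := S.w_inv h (D.map (h⁻¹ • ·)) z hz
  rw [← h1, List.map_map]
  congr 2
  have : ((fun x : ℍ => h • x) ∘ fun x : ℍ => h⁻¹ • x) = id := by
    funext x
    simp
  rw [this, List.map_id]

theorem Forms.dens_pullw (S : Forms N) (h : G) (D : List ℍ) : Dens0 (pullw h (S.w D)) S.C :=
  (S.w_dens _).congr fun _ hz => (S.pullw_w h D hz).symm

/-- The primitive of the density of the list `D` with vertex `g₁ • ∞`. -/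
noncomputable def Forms.La (S : Forms N) (D : List G) : Form :=
  Lam (D.headD 1) (S.w (D.map pos))

theorem Forms.La_prim (S : Forms N) (D : List G) : IsPrim (S.La D) (S.w (D.map pos)) :=
  Lam_prim _ (S.dens_pullw _ _)

/-- The closed form of the list `X`. -/
noncomputable def Forms.beta (S : Forms N) (X : List G) : Form := fun z =>
  S.α (X.map pos) z - dl (fun D : List G => S.La D z) X

theorem IsPrim.dl {T : Type*} {a : List T → Form} {w : List T → ℂ → ℝ}
    (h : ∀ D, IsPrim (a D) (w D)) (X : List T) :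
    IsPrim (fun z => dl (fun D => a D z) X) (fun z => Pool.Agent.Helper11.BC.dl (fun D => w D z) X) := by
  unfold Pool.Agent.Helper11.BC.dl
  exact IsPrim.sum _ fun i _ => (h _).smul _

theorem Forms.beta_prim (S : Forms N) (X : List G) (hX : X.length = N) :
    IsPrim (S.beta X) (fun _ => 0) := by
  have h1 := S.α_prim (X.map pos) (by rw [List.length_map, hX])
  have h2 := IsPrim.dl (a := fun D => S.La D) (w := fun D => S.w (D.map pos)) S.La_prim X
  refine (h1.sub h2).congr (fun _ _ => rfl) fun z _ => ?_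
  rw [dl_map, sub_self]

theorem pull_dl {T : Type*} (g : G) (a : List T → Form) (X : List T) (z : ℂ) :
    pull g (fun z => dl (fun D => a D z) X) z = dl (fun D => pull g (a D) z) X := by
  ext1 v
  rw [pull_apply]
  unfold dl
  simp [pull_apply]

theorem Forms.La_inv (S : Forms N) (g : G) (D : List G) (hD : D ≠ []) {z : ℂ} (hz : 0 < z.im) :
    pull g (S.La (D.map (g * ·))) z = S.La D z := by
  obtain ⟨x, l, rfl⟩ := List.exists_cons_of_ne_nil hD
  unfold Forms.La
  rw [List.map_cons, List.headD_cons, List.headD_cons, Lam_pull g x _ hz]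
  refine Lam_congr x (fun y hy => ?_) hz
  rw [← List.map_cons (f := (g * ·)), map_pos]
  exact S.w_inv g _ y hy

theorem Forms.beta_inv (S : Forms N) (hN : 2 ≤ N) (g : G) (X : List G) (hX : X.length = N) {z : ℂ}
    (hz : 0 < z.im) : pull g (S.beta (X.map (g * ·))) z = S.beta X z := by
  unfold Forms.beta
  rw [pull_sub, pull_dl, map_pos, S.α_inv g _ z hz, dl_map]
  congr 1
  refine dl_congr fun l' hl => ?_
  refine S.La_inv g l' ?_ hz
  intro h0
  rw [h0] at hl
  simp at hl
  omega

theorem Forms.beta_dl (S : Forms N) (Y : List G) (z : ℂ) :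
    dl (fun X => S.beta X z) Y = dl (fun X => S.α X z) (Y.map pos) := by
  unfold Forms.beta
  rw [dl_sub, dl_dl, sub_zero, dl_map]

end Pool.Agent.Helper24.BC
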