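import Pool.Agent.Helper24.BC.P_Rho

/-!
# Project BC, block POT: the multilinear extension of the cochain
-/

open scoped MatrixGroups UpperHalfPlane
open MeasureTheory

namespace Pool.Agent.Helper24.BC

open Pool.Agent.Helper11.BC

/-- `∫ ... ∫ b(w₁, ..., w_m) φ₁(w₁) ... φ_m(w_m)`. -/
noncomputable def Bl : (List ℍ → ℝ) → List V1 → ℝ
  | b, [] => b []
  | b, φ :: l => ∫ w : ℍ, φ w * Bl (fun l' => b (w :: l')) l

/-- A jointly measurable bounded family of cochains. -/
structure JM {Θ : Type} [MeasurableSpace Θ] (b : Θ → List ℍ → ℝ) (M : ℝ) : Prop where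
  bdd : ∀ θ l, |b θ l| ≤ M
  meas : ∀ k, Measurable fun p : Θ × (Fin k → ℍ) => b p.1 (List.ofFn p.2)

/-- The family `(θ, w) ↦ b θ (w :: ·)` is again jointly measurable. -/
theorem JM.cons {Θ : Type} [MeasurableSpace Θ] {b : Θ → List ℍ → ℝ} {M : ℝ} (h : JM b M) :
    JM (fun (p : Θ × ℍ) l => b p.1 (p.2 :: l)) M := by
  refine ⟨fun p l => h.bdd _ _, fun k => ?_⟩
  have h1 : Measurable fun q : (Θ × ℍ) × (Fin k → ℍ) =>
      ((q.1.1, Fin.cons q.1.2 q.2) : Θ × (Fin (k + 1) → ℍ)) := by
    refine Measurable.prodMk (measurable_fst.comp measurable_fst) ?_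
    refine measurable_pi_iff.2 fun i => ?_
    refine Fin.cases ?_ (fun j => ?_) i
    · exact (measurable_snd.comp measurable_fst :
        Measurable fun q : (Θ × ℍ) × (Fin k → ℍ) => q.1.2)
    · exact ((measurable_pi_apply j).comp measurable_snd :
        Measurable fun q : (Θ × ℍ) × (Fin k → ℍ) => q.2 j)
  have h2 := (h.meas (k + 1)).comp h1
  convert h2 using 2 with q
  simp [List.ofFn_succ]

/-- Induction on `l` over all `Θ` and `b`: for `φ :: l` the function
`(θ, w) ↦ φ w * Bl (b θ (w :: ·)) l` is measurable by `JM.cons` and the induction hypothesis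
(`Lp.stronglyMeasurable`), and so is its integral over `w`
(`MeasureTheory.StronglyMeasurable.integral_prod_right'`). -/
theorem JM.measurable_Bl {Θ : Type} [MeasurableSpace Θ] {b : Θ → List ℍ → ℝ} {M : ℝ} (h : JM b M)
    (l : List V1) : Measurable fun θ => Bl (b θ) l := by
  induction l generalizing Θ b with
  | nil =>
    have h1 : Measurable fun θ : Θ => ((θ, fun i : Fin 0 => i.elim0) : Θ × (Fin 0 → ℍ)) :=
      measurable_id.prodMk measurable_const
    have h2 := (h.meas 0).comp h1
    convert h2 using 2 with θ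
    simp [Bl]
  | cons φ l ih =>
    have h1 := ih h.cons
    have h2 : Measurable fun q : Θ × ℍ => φ q.2 * Bl (fun l' => b q.1 (q.2 :: l')) l :=
      ((Lp.stronglyMeasurable φ).measurable.comp measurable_snd).mul h1
    exact (h2.stronglyMeasurable.integral_prod_right' (ν := (volume : Measure ℍ))).measurable

/-- `|∫ φ β| ≤ ‖φ‖₁ sup |β|`; the recursion of `Bl`. -/
theorem abs_Bl_le {b : List ℍ → ℝ} {M : ℝ} (h : ∀ l, |b l| ≤ M) (l : List V1) :
    |Bl b l| ≤ M * (l.map norm).prod := by
  have hM : 0 ≤ M := (abs_nonneg _).trans (h [])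
  induction l generalizing b with
  | nil => simpa [Bl] using h []
  | cons φ l ih =>
    have hK : 0 ≤ M * (l.map norm).prod := by
      refine mul_nonneg hM (List.prod_nonneg fun x hx => ?_)
      obtain ⟨y, -, rfl⟩ := List.mem_map.1 hx
      exact norm_nonneg _
    have h1 : Integrable (fun w : ℍ => ‖φ w‖ * (M * (l.map norm).prod)) volume :=
      (L1.integrable_coeFn φ).norm.mul_const _
    have h2 : ‖∫ w : ℍ, φ w * Bl (fun l' => b (w :: l')) l‖ ≤
        ∫ w : ℍ, ‖φ w‖ * (M * (l.map norm).prod) := by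
      refine norm_integral_le_of_norm_le h1 (Filter.Eventually.of_forall fun w => ?_)
      rw [norm_mul]
      exact mul_le_mul_of_nonneg_left (ih fun l' => h _) (norm_nonneg _)
    rw [integral_mul_const, ← L1.norm_eq_integral_norm] at h2
    have h3 : Bl b (φ :: l) = ∫ w : ℍ, φ w * Bl (fun l' => b (w :: l')) l := rfl
    rw [h3, ← Real.norm_eq_abs, List.map_cons, List.prod_cons]
    refine h2.trans (le_of_eq ?_)
    ring

end Pool.Agent.Helper24.BC
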