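import Pool.Agent.Helper24.BC.P_Bl

/-!
# Project BC, block POT: the extension is multilinear
-/

open scoped MatrixGroups UpperHalfPlane
open MeasureTheory

namespace Pool.Agent.Helper24.BC

open Pool.Agent.Helper11.BC

private theorem P_BlMul_int (φ : V1) {β : ℍ → ℝ} {C : ℝ} (hm : Measurable β)
    (hb : ∀ w, |β w| ≤ C) : Integrable fun w : ℍ => φ w * β w := by
  have h1 : Integrable (fun w : ℍ => φ w) := L1.integrable_coeFn φ
  refine (h1.norm.mul_const C).mono' (h1.aestronglyMeasurable.mul hm.aestronglyMeasurable)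
    (Filter.Eventually.of_forall fun w => ?_)
  rw [norm_mul, Real.norm_eq_abs (β w)]
  exact mul_le_mul_of_nonneg_left (hb w) (norm_nonneg _)

private theorem P_BlMul_cons {b : List ℍ → ℝ} {M : ℝ} (h : JM (fun _ : Unit => b) M) (w : ℍ) :
    JM (fun _ : Unit => fun l => b (w :: l)) M where
  bdd _ l := h.bdd () (w :: l)
  meas k := by
    have h1 := h.cons.meas k
    have h2 : Measurable fun p : Unit × (Fin k → ℍ) => (((), w), p.2) :=
      measurable_const.prodMk measurable_snd
    exact h1.comp h2

private theorem P_BlMul_meas {b : List ℍ → ℝ} {M : ℝ} (h : JM (fun _ : Unit => b) M)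
    (l : List V1) : Measurable fun w : ℍ => Bl (fun l' => b (w :: l')) l := by
  have h1 := h.cons.measurable_Bl l
  have h2 : Measurable fun w : ℍ => ((), w) := measurable_const.prodMk measurable_id
  exact h1.comp h2

private theorem P_BlMul_integrable {b : List ℍ → ℝ} {M : ℝ} (h : JM (fun _ : Unit => b) M)
    (φ : V1) (l : List V1) :
    Integrable fun w : ℍ => φ w * Bl (fun l' => b (w :: l')) l :=
  P_BlMul_int φ (P_BlMul_meas h l) fun w => abs_Bl_le (fun l' => h.bdd () (w :: l')) l

private theorem P_BlMul_add (l₁ l₂ : List V1) (u v : V1) : ∀ {b : List ℍ → ℝ} {M : ℝ},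
    JM (fun _ : Unit => b) M →
    Bl b (l₁ ++ (u + v) :: l₂) = Bl b (l₁ ++ u :: l₂) + Bl b (l₁ ++ v :: l₂) := by
  induction l₁ with
  | nil =>
    intro b M h
    simp only [List.nil_append, Bl]
    rw [← integral_add (P_BlMul_integrable h u l₂) (P_BlMul_integrable h v l₂)]
    refine integral_congr_ae ?_
    filter_upwards [Lp.coeFn_add u v] with w hw
    rw [hw, Pi.add_apply, add_mul]
  | cons φ l ih =>
    intro b M h
    simp only [List.cons_append, Bl]
    rw [← integral_add (P_BlMul_integrable h φ _) (P_BlMul_integrable h φ _)]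
    refine integral_congr_ae (Filter.Eventually.of_forall fun w => ?_)
    simp only
    rw [ih (P_BlMul_cons h w), mul_add]

private theorem P_BlMul_smul (l₁ l₂ : List V1) (c : ℝ) (u : V1) : ∀ (b : List ℍ → ℝ),
    Bl b (l₁ ++ (c • u) :: l₂) = c * Bl b (l₁ ++ u :: l₂) := by
  induction l₁ with
  | nil =>
    intro b
    simp only [List.nil_append, Bl]
    rw [← integral_const_mul]
    refine integral_congr_ae ?_
    filter_upwards [Lp.coeFn_smul c u] with w hw
    rw [hw, Pi.smul_apply, smul_eq_mul, mul_assoc]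
  | cons φ l ih =>
    intro b
    simp only [List.cons_append, Bl]
    rw [← integral_const_mul]
    refine integral_congr_ae (Filter.Eventually.of_forall fun w => ?_)
    simp only
    rw [ih]
    ring

/-- Additive: by induction on `l₁`, over all `b`; for `l₁ = []` it is `∫ (u + v) β = ∫ u β + ∫ v β` with
`β w = Bl (b (w :: ·)) l₂` bounded and measurable; for `l₁ = φ :: l` integrate the identities for
`b (w :: ·)` (integrability of `φ w * Bl (b (w :: ·)) (l ++ u :: l₂)` from `abs_Bl_le` and
`JM.measurable_Bl` with `Θ = ℍ`).  Similarly for multiples. -/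
theorem isMul_Bl {b : List ℍ → ℝ} {M : ℝ} (h : JM (fun _ : Unit => b) M) : IsMul (Bl b) M where
  add l₁ l₂ u v := P_BlMul_add l₁ l₂ u v h
  smul l₁ l₂ c u := P_BlMul_smul l₁ l₂ c u b
  bd l := abs_Bl_le (h.bdd ()) l

end Pool.Agent.Helper24.BC
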