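import Pool.Agent.Helper24.BC.P_Mob

/-!
# Project BC, block POT: continuous multilinear maps from a multilinear function on lists
-/

namespace Pool.Agent.Helper24.BC

open Pool.Agent.Helper11.BC

variable {V : Type*} [NormedAddCommGroup V] [NormedSpace ℝ V] {Φ : List V → ℝ} {M : ℝ}

theorem IsMul.exists_lin1 (h : IsMul Φ M) (Y : List V) :
    ∃ L : V →L[ℝ] ℝ, ∀ u, L u = Φ (u :: Y) := by
  refine ⟨LinearMap.mkContinuous
    { toFun := fun u => Φ (u :: Y)
      map_add' := fun u v => h.add [] Y u v
      map_smul' := fun c u => h.smul [] Y c u } (M * (Y.map norm).prod) ?_, fun u => rfl⟩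
  intro u
  have := h.bd (u :: Y)
  simp only [List.map_cons, List.prod_cons] at this
  show ‖Φ (u :: Y)‖ ≤ _
  rw [Real.norm_eq_abs]
  calc _ ≤ _ := this
    _ = _ := by ring

theorem IsMul.exists_lin2 (h : IsMul Φ M) (X : List V) :
    ∃ B : V →L[ℝ] V →L[ℝ] ℝ, ∀ u v, B u v = Φ (u :: v :: X) := by
  refine ⟨LinearMap.mkContinuous₂
    (LinearMap.mk₂ ℝ (fun u v => Φ (u :: v :: X))
      (fun u v w => h.add [] (w :: X) u v)
      (fun c u v => h.smul [] (v :: X) c u)
      (fun u v w => h.add [u] X v w)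
      (fun c u v => h.smul [u] X c v)) (M * (X.map norm).prod) ?_, fun u v => rfl⟩
  intro u v
  have := h.bd (u :: v :: X)
  simp only [List.map_cons, List.prod_cons] at this
  show ‖Φ (u :: v :: X)‖ ≤ _
  rw [Real.norm_eq_abs]
  calc _ ≤ _ := this
    _ = _ := by ring

theorem IsMul.M_nonneg (h : IsMul Φ M) : 0 ≤ M := by
  have h := h.bd []
  simp only [List.map_nil, List.prod_nil, mul_one] at h
  exact (abs_nonneg _).trans h

theorem IsMul.exists_lin3 (h : IsMul Φ M) (D : List V) :
    ∃ T : V →L[ℝ] V →L[ℝ] V →L[ℝ] ℝ, ∀ u v w, T u v w = Φ (u :: v :: w :: D) := by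
  have hM := h.M_nonneg
  have key : ∀ u : V, ∃ B : V →L[ℝ] V →L[ℝ] ℝ, ∀ v w, B v w = Φ (u :: v :: w :: D) := by
    intro u
    have h' : IsMul (fun l => Φ (u :: l)) (M * ‖u‖) := by
      refine ⟨fun l₁ l₂ v w => h.add (u :: l₁) l₂ v w, fun l₁ l₂ c v => h.smul (u :: l₁) l₂ c v,
        fun l => ?_⟩
      have := h.bd (u :: l)
      simp only [List.map_cons, List.prod_cons] at this
      calc _ ≤ _ := this
        _ = _ := by ring
    exact h'.exists_lin2 D
  choose B hB using key
  refine ⟨LinearMap.mkContinuous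
    { toFun := B
      map_add' := fun u v => ?_
      map_smul' := fun c u => ?_ } (M * (D.map norm).prod) ?_, fun u v w => hB u v w⟩
  · ext a b
    simp only [add_apply]
    rw [hB, hB, hB]
    exact h.add [] (a :: b :: D) u v
  · ext a b
    simp only [smul_apply, RingHom.id_apply, smul_eq_mul]
    rw [hB, hB]
    exact h.smul [] (a :: b :: D) c u
  · intro u
    have hp : 0 ≤ (D.map norm).prod := by
      apply List.prod_nonneg
      intro x hx
      obtain ⟨y, -, rfl⟩ := List.mem_map.1 hx
      exact norm_nonneg y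
    refine ContinuousLinearMap.opNorm_le_bound _ (by positivity) fun v => ?_
    refine ContinuousLinearMap.opNorm_le_bound _ (by positivity) fun w => ?_
    show ‖B u v w‖ ≤ _
    rw [hB, Real.norm_eq_abs]
    have := h.bd (u :: v :: w :: D)
    simp only [List.map_cons, List.prod_cons] at this
    calc _ ≤ _ := this
      _ = _ := by ring

end Pool.Agent.Helper24.BC
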