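import Pool.Agent.Helper24.BC.P_KBd

/-!
# Project BC, block POT: the kernel map is Lipschitz
-/

open scoped MatrixGroups UpperHalfPlane
open MeasureTheory

namespace Pool.Agent.Helper24.BC

open Pool.Agent.Helper11.BC

variable {N : ℕ} {V : Type} [NormedAddCommGroup V] [NormedSpace ℝ V]

/-- The kernel map is differentiable. -/
private lemma KData.lip_diff (K : KData N V) {z : ℂ} (hz : 0 < z.im) :
    DifferentiableAt ℝ K.kc z :=
  (K.smooth z hz).differentiableAt (by norm_num)

/-- The estimate near `i`. -/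
private lemma KData.lip_near (K : KData N V) {C : ℝ} (hC : 1 ≤ C)
    (h : ∀ z : ℂ, 0 < z.im → ‖fderiv ℝ K.kc z‖ ≤ C / z.im) {w : ℍ}
    (hw : dist w UpperHalfPlane.I < 1 / 4) :
    ‖K.kap UpperHalfPlane.I - K.kap w‖ ≤ 4 * C * dist UpperHalfPlane.I w := by
  have hd0 : 0 ≤ dist w UpperHalfPlane.I := dist_nonneg
  have h1 : dist (w : ℂ) Complex.I ≤ 2 * dist w UpperHalfPlane.I := by
    have h2 := UpperHalfPlane.dist_coe_le w UpperHalfPlane.I
    rw [UpperHalfPlane.I_im, one_mul] at h2
    have h3 := Real.abs_exp_sub_one_le (x := dist w UpperHalfPlane.I)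
      (by rw [abs_of_nonneg hd0]; linarith)
    rw [abs_of_nonneg hd0] at h3
    have h4 := le_abs_self (Real.exp (dist w UpperHalfPlane.I) - 1)
    have h5 : ((UpperHalfPlane.I : ℍ) : ℂ) = Complex.I := rfl
    rw [h5] at h2
    linarith
  have hball : ∀ z ∈ Metric.closedBall Complex.I (1 / 2), 1 / 2 ≤ z.im := by
    intro z hz
    rw [Metric.mem_closedBall, Complex.dist_eq] at hz
    have h2 := (Complex.abs_im_le_norm (z - Complex.I)).trans hz
    rw [Complex.sub_im, Complex.I_im] at h2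
    have h3 := (abs_le.1 h2).1
    linarith
  have hwb : (w : ℂ) ∈ Metric.closedBall Complex.I (1 / 2) := by
    rw [Metric.mem_closedBall]
    linarith
  have hIb : Complex.I ∈ Metric.closedBall Complex.I (1 / 2) :=
    Metric.mem_closedBall_self (by norm_num)
  have hmv := (convex_closedBall Complex.I (1 / 2 : ℝ)).norm_image_sub_le_of_norm_fderiv_le
    (𝕜 := ℝ) (f := K.kc) (C := 2 * C) (fun z hz => K.lip_diff (by linarith [hball z hz]))
    (fun z hz => by
      have hz2 := hball z hz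
      have hz0 : 0 < z.im := by linarith
      refine (h z hz0).trans ?_
      rw [div_le_iff₀ hz0]
      nlinarith) hwb hIb
  have e1 : K.kc (w : ℂ) = K.kap w := by
    unfold KData.kc
    rw [UpperHalfPlane.ofComplex_apply]
  have e2 : K.kc Complex.I = K.kap UpperHalfPlane.I := by
    have h5 : ((UpperHalfPlane.I : ℍ) : ℂ) = Complex.I := rfl
    rw [← h5]
    unfold KData.kc
    rw [UpperHalfPlane.ofComplex_apply]
  rw [e1, e2] at hmv
  rw [dist_comm UpperHalfPlane.I w]
  have h6 : ‖Complex.I - (w : ℂ)‖ ≤ 2 * dist w UpperHalfPlane.I := by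
    rw [← Complex.dist_eq, dist_comm]
    exact h1
  calc ‖K.kap UpperHalfPlane.I - K.kap w‖ ≤ 2 * C * ‖Complex.I - (w : ℂ)‖ := hmv
    _ ≤ 2 * C * (2 * dist w UpperHalfPlane.I) := by
        refine mul_le_mul_of_nonneg_left h6 (by linarith)
    _ = 4 * C * dist w UpperHalfPlane.I := by ring

/-- By invariance (`rho_kap`, `rho_norm`) take `z = i`.  If `|w - i| ≤ 1/2`, the mean value inequality
on the Euclidean ball (`Convex.norm_image_sub_le_of_norm_fderiv_le`, derivative bounded by `2 C`) gives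
`‖kap w - kap i‖ ≤ 2 C |w - i|`, and `|w - i| ≤ C' dist w i` for these `w`
(`UpperHalfPlane.dist_coe_le`: `|w - i| ≤ e^d - 1`, where `d ≤ 1`, since `sinh (d/2) ≤ 1/2`).
Otherwise `dist w i ≥ 1/4` (again by `|w - i| ≤ e^d - 1`) and the left hand side is at most `2`. -/
theorem KData.exists_lip (K : KData N V) : ∃ C : ℝ, 1 ≤ C ∧ ∀ z w : ℍ,
    ‖K.kap z - K.kap w‖ ≤ C * dist z w := by
  obtain ⟨C, hC, h⟩ := K.exists_bd
  have h' : ∀ z : ℂ, 0 < z.im → ‖fderiv ℝ K.kc z‖ ≤ C / z.im := fun z hz => (h z hz).1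
  have key : ∀ w : ℍ, ‖K.kap UpperHalfPlane.I - K.kap w‖ ≤ (8 * C) * dist UpperHalfPlane.I w := by
    intro w
    have hd0 : 0 ≤ dist UpperHalfPlane.I w := dist_nonneg
    by_cases hw : dist w UpperHalfPlane.I < 1 / 4
    · refine (K.lip_near hC h' hw).trans ?_
      exact mul_le_mul_of_nonneg_right (by linarith) hd0
    · push Not at hw
      rw [dist_comm] at hw
      have h1 := norm_sub_le (K.kap UpperHalfPlane.I) (K.kap w)
      have h2 := K.kap_norm UpperHalfPlane.I
      have h3 := K.kap_norm w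
      nlinarith
  refine ⟨8 * C, by linarith, fun z w => ?_⟩
  have hz := UpperHalfPlane.toSL2R_smul_I z
  set g := z.toSL2R with hg
  have hw : g • (g⁻¹ • w) = w := smul_inv_smul g w
  rw [← hz, ← hw, K.rho_kap, K.rho_kap, ← map_sub, K.rho_norm, dist_smul]
  exact key _

end Pool.Agent.Helper24.BC
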