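import Pool.Agent.Helper24.BC.P_Clm
import Pool.Agent.Helper24.BC.P_KLip
import Pool.Agent.Helper24.BC.P_Dl

/-!
# Project BC, block POT: the forms of the kernel data
-/

open scoped MatrixGroups UpperHalfPlane

namespace Pool.Agent.Helper24.BC

open Pool.Agent.Helper11.BC

variable {N : ℕ} {V : Type} [NormedAddCommGroup V] [NormedSpace ℝ V]

/-- The bilinear map of the list `X`. -/
noncomputable def KData.B (K : KData N V) (X : List V) : V →L[ℝ] V →L[ℝ] ℝ :=
  (K.isMul.exists_lin2 X).choose

theorem KData.B_apply (K : KData N V) (X : List V) (u v : V) :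
    K.B X u v = K.Φ (u :: v :: X) := (K.isMul.exists_lin2 X).choose_spec u v

/-- The trilinear map of the list `D`. -/
noncomputable def KData.T (K : KData N V) (D : List V) : V →L[ℝ] V →L[ℝ] V →L[ℝ] ℝ :=
  (K.isMul.exists_lin3 D).choose

theorem KData.T_apply (K : KData N V) (D : List V) (u v w : V) :
    K.T D u v w = K.Φ (u :: v :: w :: D) := (K.isMul.exists_lin3 D).choose_spec u v w

/-- The form `α`. -/
noncomputable def KData.al (K : KData N V) (X : List ℍ) : Form := fun z =>
  (K.B (X.map K.kap) (K.kc z)).comp (fderiv ℝ K.kc z)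

/-- The density `w`. -/
noncomputable def KData.wd (K : KData N V) (D : List ℍ) : ℂ → ℝ := fun z =>
  K.T (D.map K.kap) (K.kc z) (fderiv ℝ K.kc z 1) (fderiv ℝ K.kc z Complex.I) -
    K.T (D.map K.kap) (K.kc z) (fderiv ℝ K.kc z Complex.I) (fderiv ℝ K.kc z 1)

end Pool.Agent.Helper24.BC
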