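import Pool.Agent.Helper24.BC.P_J

/-!
# Project BC, block POT: the form `α` of the kernel data
-/

open scoped MatrixGroups UpperHalfPlane

namespace Pool.Agent.Helper24.BC

open Pool.Agent.Helper11.BC

variable {N : ℕ} {V : Type} [NormedAddCommGroup V] [NormedSpace ℝ V]

private theorem Jal_M (K : KData N V) : 0 ≤ K.M := by
  have h := K.isMul.bd []
  simp only [List.map_nil, List.prod_nil, mul_one] at h
  exact (abs_nonneg _).trans h

private theorem Jal_prod (K : KData N V) (L : List ℍ) :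
    0 ≤ ((L.map K.kap).map norm).prod ∧ ((L.map K.kap).map norm).prod ≤ 1 := by
  induction L with
  | nil => simp
  | cons x L ih =>
    simp only [List.map_cons, List.prod_cons]
    exact ⟨mul_nonneg (norm_nonneg _) ih.1, mul_le_one₀ (K.kap_norm x) ih.1 ih.2⟩

private theorem Jal_pre (pre : List V) : 0 ≤ (pre.map norm).prod := by
  induction pre with
  | nil => simp
  | cons x L ih =>
    simp only [List.map_cons, List.prod_cons]
    exact mul_nonneg (norm_nonneg _) ih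

private theorem Jal_al (K : KData N V) (X : List ℍ) (z v : ℂ) :
    K.al X z v = K.Φ ([K.kc z, fderiv ℝ K.kc z v] ++ X.map K.kap) := by
  show K.B (X.map K.kap) (K.kc z) (fderiv ℝ K.kc z v) = _
  rw [K.B_apply]
  rfl

/-- Bounds for `Φ` on lists `pre ++ L.map kap`, and for the change of one point. -/
theorem KData.abs_Φ_le (K : KData N V) (pre : List V) (L : List ℍ) :
    |K.Φ (pre ++ L.map K.kap)| ≤ K.M * (pre.map norm).prod := by
  have h := K.isMul.bd (pre ++ L.map K.kap)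
  rw [List.map_append, List.prod_append] at h
  refine h.trans ?_
  obtain ⟨a1, a2⟩ := Jal_prod K L
  have h2 := Jal_pre pre
  have h3 := Jal_M K
  calc K.M * ((pre.map norm).prod * ((L.map K.kap).map norm).prod)
      ≤ K.M * ((pre.map norm).prod * 1) := by gcongr
    _ = _ := by rw [mul_one]

theorem KData.abs_Φ_sub_le (K : KData N V) {C : ℝ} (hC : ∀ z w : ℍ, ‖K.kap z - K.kap w‖ ≤ C * dist z w)
    (pre : List V) (l₁ l₂ : List ℍ) (p q : ℍ) :
    |K.Φ (pre ++ (l₁ ++ p :: l₂).map K.kap) - K.Φ (pre ++ (l₁ ++ q :: l₂).map K.kap)| ≤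
      K.M * (pre.map norm).prod * (C * dist p q) := by
  have e : K.Φ (pre ++ (l₁ ++ p :: l₂).map K.kap) - K.Φ (pre ++ (l₁ ++ q :: l₂).map K.kap) =
      K.Φ ((pre ++ l₁.map K.kap) ++ (K.kap p - K.kap q) :: l₂.map K.kap) := by
    have h1 := K.isMul.add (pre ++ l₁.map K.kap) (l₂.map K.kap) (K.kap p) ((-1 : ℝ) • K.kap q)
    have h2 := K.isMul.smul (pre ++ l₁.map K.kap) (l₂.map K.kap) (-1) (K.kap q)
    have h3 : K.kap p - K.kap q = K.kap p + (-1 : ℝ) • K.kap q := by
      rw [neg_one_smul, sub_eq_add_neg]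
    rw [h3, h1, h2]
    simp only [List.map_append, List.map_cons, List.append_assoc]
    ring
  rw [e]
  have h := K.isMul.bd ((pre ++ l₁.map K.kap) ++ (K.kap p - K.kap q) :: l₂.map K.kap)
  rw [List.map_append, List.map_append, List.map_cons, List.prod_append, List.prod_append,
    List.prod_cons] at h
  refine h.trans ?_
  obtain ⟨a1, a2⟩ := Jal_prod K l₁
  obtain ⟨b1, b2⟩ := Jal_prod K l₂
  have h2 := Jal_pre pre
  have h3 := Jal_M K
  have h4 := hC p q
  have h5 : 0 ≤ C * dist p q := (norm_nonneg _).trans h4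
  have e1 : (pre.map norm).prod * ((l₁.map K.kap).map norm).prod ≤ (pre.map norm).prod * 1 :=
    mul_le_mul_of_nonneg_left a2 h2
  have e2 : ‖K.kap p - K.kap q‖ * ((l₂.map K.kap).map norm).prod ≤ (C * dist p q) * 1 :=
    mul_le_mul h4 b2 b1 h5
  have e3 : (pre.map norm).prod * ((l₁.map K.kap).map norm).prod *
      (‖K.kap p - K.kap q‖ * ((l₂.map K.kap).map norm).prod) ≤
      ((pre.map norm).prod * 1) * ((C * dist p q) * 1) :=
    mul_le_mul e1 e2 (mul_nonneg (norm_nonneg _) b1) (by rw [mul_one]; exact h2)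
  refine (mul_le_mul_of_nonneg_left e3 h3).trans_eq ?_
  ring

theorem KData.al_bd (K : KData N V) {C : ℝ} (hC : ∀ z : ℂ, 0 < z.im → ‖fderiv ℝ K.kc z‖ ≤ C / z.im)
    (X : List ℍ) (z v : ℂ) (hz : 0 < z.im) : |K.al X z v| ≤ K.M * C * ‖v‖ / z.im := by
  rw [Jal_al]
  refine (K.abs_Φ_le _ X).trans ?_
  simp only [List.map_cons, List.map_nil, List.prod_cons, List.prod_nil, mul_one]
  have h1 := K.norm_kc z
  have h2 : ‖fderiv ℝ K.kc z v‖ ≤ C / z.im * ‖v‖ :=
    (ContinuousLinearMap.le_opNorm _ _).trans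
      (mul_le_mul_of_nonneg_right (hC z hz) (norm_nonneg _))
  have h3 := Jal_M K
  calc K.M * (‖K.kc z‖ * ‖fderiv ℝ K.kc z v‖) ≤ K.M * (1 * (C / z.im * ‖v‖)) := by gcongr
    _ = K.M * C * ‖v‖ / z.im := by ring

theorem KData.al_lip (K : KData N V) {C C' : ℝ}
    (hC : ∀ z : ℂ, 0 < z.im → ‖fderiv ℝ K.kc z‖ ≤ C / z.im)
    (hC' : ∀ z w : ℍ, ‖K.kap z - K.kap w‖ ≤ C' * dist z w)
    (l₁ l₂ : List ℍ) (p q : ℍ) (z v : ℂ) (hz : 0 < z.im) :
    |K.al (l₁ ++ p :: l₂) z v - K.al (l₁ ++ q :: l₂) z v| ≤ K.M * C * C' * dist p q * ‖v‖ / z.im := by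
  rw [Jal_al, Jal_al]
  refine (K.abs_Φ_sub_le hC' _ l₁ l₂ p q).trans ?_
  simp only [List.map_cons, List.map_nil, List.prod_cons, List.prod_nil, mul_one]
  have h1 := K.norm_kc z
  have h2 : ‖fderiv ℝ K.kc z v‖ ≤ C / z.im * ‖v‖ :=
    (ContinuousLinearMap.le_opNorm _ _).trans
      (mul_le_mul_of_nonneg_right (hC z hz) (norm_nonneg _))
  have h3 := Jal_M K
  have h5 : 0 ≤ C' * dist p q := (norm_nonneg _).trans (hC' p q)
  calc K.M * (‖K.kc z‖ * ‖fderiv ℝ K.kc z v‖) * (C' * dist p q)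
      ≤ K.M * (1 * (C / z.im * ‖v‖)) * (C' * dist p q) := by
        refine mul_le_mul_of_nonneg_right ?_ h5
        gcongr
    _ = K.M * C * C' * dist p q * ‖v‖ / z.im := by ring

/-- `kc (g z) = rho g (kc z)`, `fderiv kc (g z) (g' z v) = rho g (fderiv kc z v)`,
`kap (g x) = rho g (kap x)` and `Φ_inv`. -/
theorem KData.al_inv (K : KData N V) (g : G) (X : List ℍ) (z : ℂ) (hz : 0 < z.im) :
    pull g (K.al (X.map (g • ·))) z = K.al X z := by
  ext1 v
  rw [pull_apply, Jal_al, Jal_al, K.fderiv_kc_mob g hz v, K.kc_mob g hz]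
  rw [← K.Φ_inv g ([K.kc z, fderiv ℝ K.kc z v] ++ X.map K.kap)]
  congr 1
  simp only [List.map_append, List.map_cons, List.map_nil, List.map_map]
  congr 1
  refine List.map_congr_left fun x _ => ?_
  exact K.rho_kap g x

/-- The cocycle identity for the list `z :: ζ :: Y` (`dl_cons` twice) is
`f(ζ :: Y) - f(z :: Y) + dl (fun X => f(z :: ζ :: X)) Y = 0`; differentiate in `ζ` at `ζ = z`. -/
theorem KData.al_dl (K : KData N V) (Y : List ℍ) (hY : Y.length = N + 1) (z : ℂ) (hz : 0 < z.im) :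
    HasFDerivAt (fun ζ : ℂ => K.Φ ((UpperHalfPlane.ofComplex ζ :: Y).map K.kap))
      (-dl (fun X => K.al X z) Y) z := by
  have hk : HasFDerivAt K.kc (fderiv ℝ K.kc z) z :=
    ((K.smooth z hz).differentiableAt (by norm_num)).hasFDerivAt
  -- the cocycle identity
  have e : ∀ ζ : ℂ, K.Φ ((UpperHalfPlane.ofComplex ζ :: Y).map K.kap) =
      K.Φ ((UpperHalfPlane.ofComplex z :: Y).map K.kap) -
        ∑ i ∈ Finset.range Y.length,
          (-1 : ℝ) ^ i • K.B ((Y.eraseIdx i).map K.kap) (K.kc z) (K.kc ζ) := by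
    intro ζ
    have h1 := K.coc (UpperHalfPlane.ofComplex z :: UpperHalfPlane.ofComplex ζ :: Y)
      (by simp [hY])
    rw [dl_cons, dl_cons] at h1
    have h2 : dl (fun l' => K.Φ ((UpperHalfPlane.ofComplex z ::
        UpperHalfPlane.ofComplex ζ :: l').map K.kap)) Y =
        ∑ i ∈ Finset.range Y.length,
          (-1 : ℝ) ^ i • K.B ((Y.eraseIdx i).map K.kap) (K.kc z) (K.kc ζ) := by
      unfold dl
      refine Finset.sum_congr rfl fun i _ => ?_
      rw [K.B_apply]
      rfl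
    rw [h2] at h1
    linarith
  have h3 : HasFDerivAt (fun ζ : ℂ => ∑ i ∈ Finset.range Y.length,
      (-1 : ℝ) ^ i • K.B ((Y.eraseIdx i).map K.kap) (K.kc z) (K.kc ζ))
      (dl (fun X => K.al X z) Y) z := by
    unfold dl
    refine HasFDerivAt.fun_sum fun i _ => ?_
    exact (((K.B ((Y.eraseIdx i).map K.kap) (K.kc z)).hasFDerivAt.comp z hk).const_smul
      ((-1 : ℝ) ^ i))
  have h4 := h3.const_sub (K.Φ ((UpperHalfPlane.ofComplex z :: Y).map K.kap))
  refine h4.congr_of_eventuallyEq ?_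
  exact Filter.Eventually.of_forall e

end Pool.Agent.Helper24.BC
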