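import Pool.Agent.Helper24.BC.P_J

/-!
# Project BC, block POT: `d α_X = ω_{dX}`
-/

open scoped MatrixGroups UpperHalfPlane

namespace Pool.Agent.Helper24.BC

open Pool.Agent.Helper11.BC

variable {N : ℕ} {V : Type} [NormedAddCommGroup V] [NormedSpace ℝ V]

/-- the derivative of the kernel map -/
private theorem Jpr_hasFDerivAt (K : KData N V) {z : ℂ} (hz : 0 < z.im) :
    HasFDerivAt K.kc (fderiv ℝ K.kc z) z :=
  ((K.smooth z hz).differentiableAt (by norm_num)).hasFDerivAt

/-- a linear function which is constant on the values of the kernel map -/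
private theorem Jpr_const (K : KData N V) (L : V →L[ℝ] ℝ) {c : ℝ}
    (h : ∀ z : ℂ, 0 < z.im → L (K.kc z) = c) {z : ℂ} (hz : 0 < z.im) (u : ℂ) :
    L (fderiv ℝ K.kc z u) = 0 := by
  have h1 : HasFDerivAt (fun ζ => L (K.kc ζ)) (L.comp (fderiv ℝ K.kc z)) z :=
    L.hasFDerivAt.comp z (Jpr_hasFDerivAt K hz)
  have h2 : HasFDerivAt (fun ζ => L (K.kc ζ)) (0 : ℂ →L[ℝ] ℝ) z := by
    refine (hasFDerivAt_const c z).congr_of_eventuallyEq ?_
    have h3 : ∀ᶠ ζ : ℂ in nhds z, 0 < ζ.im :=
      (isOpen_lt continuous_const Complex.continuous_im).mem_nhds hz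
    filter_upwards [h3] with ζ hζ
    exact h ζ hζ
  have h3 := congrArg (fun M : ℂ →L[ℝ] ℝ => M u) (h1.unique h2)
  exact h3

/-- evaluation of a `dl` of linear maps -/
private theorem Jpr_apply {T : Type*} (Φ : List T → V →L[ℝ] ℝ) (l : List T) (u : V) :
    (dl Φ l) u = dl (fun l' => Φ l' u) l := by
  unfold dl
  simp

/-- the cocycle identity -/
private theorem Jpr_coc (K : KData N V) (X : List ℍ) (hX : X.length = N) (z z' z'' : ℂ) :
    K.B (X.map K.kap) (K.kc z') (K.kc z'') - K.B (X.map K.kap) (K.kc z) (K.kc z'') +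
      K.B (X.map K.kap) (K.kc z) (K.kc z') =
      dl (fun D : List ℍ => K.T (D.map K.kap) (K.kc z) (K.kc z') (K.kc z'')) X := by
  have h := K.coc (UpperHalfPlane.ofComplex z :: UpperHalfPlane.ofComplex z' ::
    UpperHalfPlane.ofComplex z'' :: X) (by simp [hX])
  rw [dl_cons, dl_cons, dl_cons] at h
  simp only [List.map_cons] at h
  simp only [K.B_apply, K.T_apply]
  have e : ∀ w : ℂ, K.kap (UpperHalfPlane.ofComplex w) = K.kc w := fun w => rfl
  simp only [e] at h
  linarith

/-- The cocycle identity for the list `z :: z' :: z'' :: X`, `X` of length `N` (`dl_cons` three times):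
`B(kc z')(kc z'') - B(kc z)(kc z'') + B(kc z)(kc z') = dl (fun D => T D (kc z)(kc z')(kc z'')) X` for
all points; differentiate in `z'` in the direction `u`, then in `z''` in the direction `v`
(both sides are continuous multilinear in `kc`). -/
theorem KData.B_deriv (K : KData N V) (X : List ℍ) (hX : X.length = N) {z z' z'' : ℂ}
    (hz : 0 < z.im) (hz' : 0 < z'.im) (hz'' : 0 < z''.im) (u v : ℂ) :
    K.B (X.map K.kap) (fderiv ℝ K.kc z' u) (fderiv ℝ K.kc z'' v) =
      dl (fun D : List ℍ => K.T (D.map K.kap) (K.kc z) (fderiv ℝ K.kc z' u) (fderiv ℝ K.kc z'' v)) X := by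
  -- derivative in `z'`
  have h1 : ∀ ζ : ℂ, 0 < ζ.im →
      K.B (X.map K.kap) (fderiv ℝ K.kc z' u) (K.kc ζ) +
        K.B (X.map K.kap) (K.kc z) (fderiv ℝ K.kc z' u) =
      dl (fun D : List ℍ => K.T (D.map K.kap) (K.kc z) (fderiv ℝ K.kc z' u) (K.kc ζ)) X := by
    intro ζ hζ
    have h2 := Jpr_const K ((K.B (X.map K.kap)).flip (K.kc ζ) + K.B (X.map K.kap) (K.kc z) -
      dl (fun D : List ℍ => (K.T (D.map K.kap) (K.kc z)).flip (K.kc ζ)) X)
      (c := K.B (X.map K.kap) (K.kc z) (K.kc ζ)) (fun z' hz' => by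
        have h3 := Jpr_coc K X hX z z' ζ
        rw [sub_apply, Jpr_apply]
        simp only [add_apply, ContinuousLinearMap.flip_apply]
        linarith) hz' u
    rw [sub_apply, Jpr_apply] at h2
    simp only [add_apply, ContinuousLinearMap.flip_apply] at h2
    linarith
  -- derivative in `z''`
  have h2 := Jpr_const K (K.B (X.map K.kap) (fderiv ℝ K.kc z' u) -
      dl (fun D : List ℍ => K.T (D.map K.kap) (K.kc z) (fderiv ℝ K.kc z' u)) X)
      (c := - K.B (X.map K.kap) (K.kc z) (fderiv ℝ K.kc z' u)) (fun ζ hζ => by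
        have h3 := h1 ζ hζ
        rw [sub_apply, Jpr_apply]
        linarith) hz'' v
  rw [sub_apply, Jpr_apply] at h2
  linarith

/-- Bilinearity: an alternating bilinear function of `u, v : ℂ` is its value at `(1, i)` times the
determinant. -/
theorem KData.wd_det (K : KData N V) (D : List ℍ) (z u v : ℂ) :
    K.T (D.map K.kap) (K.kc z) (fderiv ℝ K.kc z u) (fderiv ℝ K.kc z v) -
      K.T (D.map K.kap) (K.kc z) (fderiv ℝ K.kc z v) (fderiv ℝ K.kc z u) =
    K.wd D z * (u.re * v.im - u.im * v.re) := by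
  have h : ∀ w : ℂ, fderiv ℝ K.kc z w =
      w.re • fderiv ℝ K.kc z 1 + w.im • fderiv ℝ K.kc z Complex.I := by
    intro w
    rw [← map_smul, ← map_smul, ← map_add]
    congr 1
    apply Complex.ext <;> simp
  rw [h u, h v]
  unfold KData.wd
  simp only [map_add, map_smul, add_apply, smul_apply,
    smul_eq_mul]
  ring

/-- The derivative of `α` at `z` is `a' u v = B(Dkc u)(Dkc v) + B(kc z)(D²kc u v)`; the second term is
symmetric (`ContDiffAt.isSymmSndFDerivAt`), so that `a' u v - a' v u` is the antisymmetrization of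
`B_deriv`, and `wd_det`. -/
theorem KData.al_prim (K : KData N V) (X : List ℍ) (hX : X.length = N) :
    IsPrim (K.al X) (fun z => dl (fun D => K.wd D z) X) := by
  intro z hz
  have hk := Jpr_hasFDerivAt K hz
  have hc : HasFDerivAt (fun ζ => K.B (X.map K.kap) (K.kc ζ))
      ((K.B (X.map K.kap)).comp (fderiv ℝ K.kc z)) z :=
    (K.B (X.map K.kap)).hasFDerivAt.comp z hk
  have hs : ContDiffAt ℝ 2 K.kc z := K.smooth z hz
  have hd : HasFDerivAt (fderiv ℝ K.kc) (fderiv ℝ (fderiv ℝ K.kc) z) z := by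
    have h1 : ContDiffAt ℝ 1 (fderiv ℝ K.kc) z := hs.fderiv_right (by norm_num)
    exact (h1.differentiableAt (by norm_num)).hasFDerivAt
  have hsym : IsSymmSndFDerivAt ℝ K.kc z := hs.isSymmSndFDerivAt (by simp)
  have hal := hc.clm_comp hd
  refine ⟨_, hal, ?_⟩
  intro u v
  simp only [add_apply, ContinuousLinearMap.comp_apply,
    ContinuousLinearMap.compL_apply, ContinuousLinearMap.flip_apply]
  rw [hsym.eq u v]
  have h1 := K.B_deriv X hX hz hz hz u v
  have h2 := K.B_deriv X hX hz hz hz v u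
  have h3 : dl (fun D => K.wd D z) X * (u.re * v.im - u.im * v.re) =
      dl (fun D => K.wd D z * (u.re * v.im - u.im * v.re)) X := by
    unfold dl
    rw [Finset.sum_mul]
    exact Finset.sum_congr rfl fun i _ => by simp only [smul_eq_mul]; ring
  rw [h3]
  simp only [← K.wd_det]
  rw [dl_sub, ← h1, ← h2]
  ring

end Pool.Agent.Helper24.BC
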