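import Pool.Agent.Helper24.BC.P_Jal
import Pool.Agent.Helper24.BC.P_Jpr

/-!
# Project BC, block POT: the density `w` of the kernel data
-/

open scoped MatrixGroups UpperHalfPlane

namespace Pool.Agent.Helper24.BC

open Pool.Agent.Helper11.BC

variable {N : ℕ} {V : Type} [NormedAddCommGroup V] [NormedSpace ℝ V]

private theorem Jw_M_nonneg (K : KData N V) : 0 ≤ K.M := by
  have := K.isMul.bd []
  simp only [List.map_nil, List.prod_nil, mul_one] at this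
  exact (abs_nonneg _).trans this

private theorem Jw_T_le (K : KData N V) (D : List ℍ) (u v w : V) :
    |K.T (D.map K.kap) u v w| ≤ K.M * (‖u‖ * ‖v‖ * ‖w‖) := by
  have := K.abs_Φ_le [u, v, w] D
  rw [K.T_apply]
  simp only [List.cons_append, List.nil_append, List.map_cons, List.map_nil, List.prod_cons,
    List.prod_nil, mul_one] at this
  rw [mul_assoc ‖u‖]
  exact this

private theorem Jw_T_sub_le (K : KData N V) {C' : ℝ}
    (hC' : ∀ z w : ℍ, ‖K.kap z - K.kap w‖ ≤ C' * dist z w) (l₁ l₂ : List ℍ) (p q : ℍ) (u v w : V) :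
    |K.T ((l₁ ++ p :: l₂).map K.kap) u v w - K.T ((l₁ ++ q :: l₂).map K.kap) u v w| ≤
      K.M * (‖u‖ * ‖v‖ * ‖w‖) * (C' * dist p q) := by
  have := K.abs_Φ_sub_le hC' [u, v, w] l₁ l₂ p q
  rw [K.T_apply, K.T_apply]
  simp only [List.cons_append, List.nil_append, List.map_cons, List.map_nil, List.prod_cons,
    List.prod_nil, mul_one] at this
  rw [mul_assoc ‖u‖]
  exact this

private theorem Jw_deriv (T : V →L[ℝ] V →L[ℝ] V →L[ℝ] ℝ) {a b c : ℂ → V} {a' b' c' : ℂ →L[ℝ] V}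
    {z : ℂ} (ha : HasFDerivAt a a' z) (hb : HasFDerivAt b b' z) (hc : HasFDerivAt c c' z) :
    ∃ L : ℂ →L[ℝ] ℝ, HasFDerivAt (fun z => T (a z) (b z) (c z)) L z ∧
      ∀ v, L v = T (a z) (b z) (c' v) + (T (a z) (b' v) (c z) + T (a' v) (b z) (c z)) := by
  have h0 := ContinuousLinearMap.hasFDerivAt (𝕜 := ℝ) (E := V) (F := V →L[ℝ] V →L[ℝ] ℝ) T (x := a z)
  have h1 : HasFDerivAt (fun z => T (a z)) (T.comp a') z :=
    HasFDerivAt.comp (𝕜 := ℝ) (E := ℂ) (F := V) (G := V →L[ℝ] V →L[ℝ] ℝ) (f := a) z h0 ha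
  have h2 := h1.clm_apply hb
  have h3 := h2.clm_apply hc
  refine ⟨_, h3, fun v => ?_⟩
  simp
  try rfl

private theorem Jw_kc_diff (K : KData N V) {z : ℂ} (hz : 0 < z.im) :
    HasFDerivAt K.kc (fderiv ℝ K.kc z) z :=
  ((K.smooth z hz).differentiableAt (by norm_num)).hasFDerivAt

private theorem Jw_dkc (K : KData N V) {z : ℂ} (hz : 0 < z.im) :
    ContDiffAt ℝ 1 (fderiv ℝ K.kc) z :=
  ContDiffAt.fderiv_right (n := 2) (K.smooth z hz) (by norm_num)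

private theorem Jw_dkc_diff (K : KData N V) {z : ℂ} (hz : 0 < z.im) (u : ℂ) :
    HasFDerivAt (fun z => fderiv ℝ K.kc z u) ((fderiv ℝ (fderiv ℝ K.kc) z).flip u) z := by
  have h1 : HasFDerivAt (fderiv ℝ K.kc) (fderiv ℝ (fderiv ℝ K.kc) z) z :=
    ((Jw_dkc K hz).differentiableAt (by norm_num)).hasFDerivAt
  have h2 := h1.clm_apply (hasFDerivAt_const u z)
  refine h2.congr_fderiv ?_
  ext1 v
  simp

private theorem Jw_norm_le {K : KData N V} {c : ℝ} {z : ℂ} (h : ‖fderiv ℝ K.kc z‖ ≤ c) (u : ℂ)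
    (hu : ‖u‖ = 1) : ‖fderiv ℝ K.kc z u‖ ≤ c := by
  have := (fderiv ℝ K.kc z).le_opNorm u
  rw [hu, mul_one] at this
  exact this.trans h

theorem KData.wd_contDiffAt (K : KData N V) (D : List ℍ) {z : ℂ} (hz : 0 < z.im) :
    ContDiffAt ℝ 1 (K.wd D) z := by
  have h0 : ContDiffAt ℝ 1 K.kc z := (K.smooth z hz).of_le (by norm_num)
  have h1 : ∀ u : ℂ, ContDiffAt ℝ 1 (fun z => fderiv ℝ K.kc z u) z := fun u =>
    (Jw_dkc K hz).clm_apply contDiffAt_const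
  have h3 : ContDiffAt ℝ 1 (fun z => K.T (D.map K.kap) (K.kc z)) z := by
    have h4 : ContDiffAt ℝ 1 (fun x : V => K.T (D.map K.kap) x) (K.kc z) :=
      (ContinuousLinearMap.contDiff (𝕜 := ℝ) (E := V) (F := V →L[ℝ] V →L[ℝ] ℝ)
        (K.T (D.map K.kap))).contDiffAt
    exact ContDiffAt.comp (𝕜 := ℝ) (E := ℂ) (F := V) (G := V →L[ℝ] V →L[ℝ] ℝ) z h4 h0
  have h2 : ∀ u v : ℂ, ContDiffAt ℝ 1 (fun z => K.T (D.map K.kap) (K.kc z) (fderiv ℝ K.kc z u)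
      (fderiv ℝ K.kc z v)) z := fun u v => (h3.clm_apply (h1 u)).clm_apply (h1 v)
  exact (h2 1 Complex.I).sub (h2 Complex.I 1)

theorem KData.wd_bd (K : KData N V) {C : ℝ} (hC : ∀ z : ℂ, 0 < z.im → ‖fderiv ℝ K.kc z‖ ≤ C / z.im)
    (D : List ℍ) {z : ℂ} (hz : 0 < z.im) : |K.wd D z| ≤ 2 * K.M * C ^ 2 / z.im ^ 2 := by
  have hM := Jw_M_nonneg K
  have h1 : ∀ u v : ℂ, ‖u‖ = 1 → ‖v‖ = 1 →
      |K.T (D.map K.kap) (K.kc z) (fderiv ℝ K.kc z u) (fderiv ℝ K.kc z v)| ≤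
        K.M * (C / z.im * (C / z.im)) := by
    intro u v hu hv
    refine (Jw_T_le K D _ _ _).trans ?_
    have e0 := K.norm_kc z
    have e1 := Jw_norm_le (hC z hz) u hu
    have e2 := Jw_norm_le (hC z hz) v hv
    have e3 := norm_nonneg (fderiv ℝ K.kc z u)
    have e4 : 0 ≤ C / z.im := e3.trans e1
    have e5 : ‖K.kc z‖ * ‖fderiv ℝ K.kc z u‖ ≤ C / z.im := by
      calc ‖K.kc z‖ * ‖fderiv ℝ K.kc z u‖ ≤ 1 * (C / z.im) := by gcongr
        _ = C / z.im := one_mul _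
    have e6 := mul_le_mul_of_nonneg_left (mul_le_mul e5 e2 (norm_nonneg _) e4) hM
    exact e6
  have h2 := h1 1 Complex.I norm_one Complex.norm_I
  have h3 := h1 Complex.I 1 Complex.norm_I norm_one
  unfold KData.wd
  calc _ ≤ _ := abs_sub _ _
    _ ≤ K.M * (C / z.im * (C / z.im)) + K.M * (C / z.im * (C / z.im)) := add_le_add h2 h3
    _ = 2 * K.M * C ^ 2 / z.im ^ 2 := by
      field_simp
      ring

/-- The derivative of each of the two terms is a sum of three terms with one more derivative. -/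
theorem KData.wd_bd1 (K : KData N V) {C : ℝ} (h1C : 1 ≤ C)
    (hC : ∀ z : ℂ, 0 < z.im → ‖fderiv ℝ K.kc z‖ ≤ C / z.im ∧
      ‖fderiv ℝ (fderiv ℝ K.kc) z‖ ≤ C / z.im ^ 2)
    (D : List ℍ) {z : ℂ} (hz : 0 < z.im) : ‖fderiv ℝ (K.wd D) z‖ ≤ 6 * K.M * C ^ 3 / z.im ^ 3 := by
  have hM := Jw_M_nonneg K
  obtain ⟨hC1, hC2⟩ := hC z hz
  have h1 : ∀ u v : ℂ, ‖u‖ = 1 → ‖v‖ = 1 → ∃ L : ℂ →L[ℝ] ℝ,
      HasFDerivAt (fun z => K.T (D.map K.kap) (K.kc z) (fderiv ℝ K.kc z u)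
        (fderiv ℝ K.kc z v)) L z ∧ ‖L‖ ≤ 3 * K.M * C ^ 3 / z.im ^ 3 := by
    intro u v hu hv
    obtain ⟨L, hL, hL'⟩ := Jw_deriv (K.T (D.map K.kap)) (Jw_kc_diff K hz) (Jw_dkc_diff K hz u)
      (Jw_dkc_diff K hz v)
    refine ⟨L, hL, L.opNorm_le_bound (by positivity) fun x => ?_⟩
    rw [hL', Real.norm_eq_abs]
    have e0 := K.norm_kc z
    have e1 := Jw_norm_le hC1 u hu
    have e2 := Jw_norm_le hC1 v hv
    have e3 : ∀ y : ℂ, ‖y‖ = 1 → ‖(fderiv ℝ (fderiv ℝ K.kc) z).flip y x‖ ≤ C / z.im ^ 2 * ‖x‖ := by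
      intro y hy
      rw [ContinuousLinearMap.flip_apply]
      refine ((fderiv ℝ (fderiv ℝ K.kc) z x).le_opNorm y).trans ?_
      rw [hy, mul_one]
      refine ((fderiv ℝ (fderiv ℝ K.kc) z).le_opNorm x).trans ?_
      gcongr
    have e4 : ‖fderiv ℝ K.kc z x‖ ≤ C / z.im * ‖x‖ := by
      refine ((fderiv ℝ K.kc z).le_opNorm x).trans ?_
      gcongr
    have e5 := e3 u hu
    have e6 := e3 v hv
    have f1 := Jw_T_le K D (K.kc z) (fderiv ℝ K.kc z u)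
      ((fderiv ℝ (fderiv ℝ K.kc) z).flip v x)
    have f2 := Jw_T_le K D (K.kc z) ((fderiv ℝ (fderiv ℝ K.kc) z).flip u x)
      (fderiv ℝ K.kc z v)
    have f3 := Jw_T_le K D (fderiv ℝ K.kc z x) (fderiv ℝ K.kc z u) (fderiv ℝ K.kc z v)
    have g1 : K.M * (‖K.kc z‖ * ‖fderiv ℝ K.kc z u‖ *
        ‖(fderiv ℝ (fderiv ℝ K.kc) z).flip v x‖) ≤
        K.M * (1 * (C / z.im) * (C / z.im ^ 2 * ‖x‖)) := by gcongr
    have g2 : K.M * (‖K.kc z‖ * ‖(fderiv ℝ (fderiv ℝ K.kc) z).flip u x‖ *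
        ‖fderiv ℝ K.kc z v‖) ≤
        K.M * (1 * (C / z.im ^ 2 * ‖x‖) * (C / z.im)) := by gcongr
    have g3 : K.M * (‖fderiv ℝ K.kc z x‖ * ‖fderiv ℝ K.kc z u‖ * ‖fderiv ℝ K.kc z v‖) ≤
        K.M * (C / z.im * ‖x‖ * (C / z.im) * (C / z.im)) := by gcongr
    have k0 : K.M * C ^ 2 * ‖x‖ / z.im ^ 3 ≤ K.M * C ^ 3 * ‖x‖ / z.im ^ 3 := by
      have : C ^ 2 ≤ C ^ 3 := pow_le_pow_right₀ h1C (by norm_num)
      gcongr
    have k1 : K.M * (1 * (C / z.im) * (C / z.im ^ 2 * ‖x‖)) = K.M * C ^ 2 * ‖x‖ / z.im ^ 3 := by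
      field_simp
    have k2 : K.M * (1 * (C / z.im ^ 2 * ‖x‖) * (C / z.im)) = K.M * C ^ 2 * ‖x‖ / z.im ^ 3 := by
      field_simp
    have k3 : K.M * (C / z.im * ‖x‖ * (C / z.im) * (C / z.im)) =
        K.M * C ^ 3 * ‖x‖ / z.im ^ 3 := by
      field_simp
    have k4 : 3 * K.M * C ^ 3 / z.im ^ 3 * ‖x‖ = 3 * (K.M * C ^ 3 * ‖x‖ / z.im ^ 3) := by
      ring
    rw [k4]
    rw [k1] at g1
    rw [k2] at g2
    rw [k3] at g3
    refine (abs_add_le _ _).trans ?_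
    have := abs_add_le (K.T (D.map K.kap) (K.kc z) ((fderiv ℝ (fderiv ℝ K.kc) z).flip u x)
      (fderiv ℝ K.kc z v)) (K.T (D.map K.kap) (fderiv ℝ K.kc z x) (fderiv ℝ K.kc z u)
      (fderiv ℝ K.kc z v))
    linarith
  obtain ⟨L1, hL1, hn1⟩ := h1 1 Complex.I norm_one Complex.norm_I
  obtain ⟨L2, hL2, hn2⟩ := h1 Complex.I 1 Complex.norm_I norm_one
  have h2 : HasFDerivAt (K.wd D) (L1 - L2) z := hL1.sub hL2
  rw [h2.fderiv]
  calc ‖L1 - L2‖ ≤ ‖L1‖ + ‖L2‖ := norm_sub_le _ _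
    _ ≤ 3 * K.M * C ^ 3 / z.im ^ 3 + 3 * K.M * C ^ 3 / z.im ^ 3 := add_le_add hn1 hn2
    _ = 6 * K.M * C ^ 3 / z.im ^ 3 := by ring

theorem KData.wd_lip (K : KData N V) {C C' : ℝ}
    (hC : ∀ z : ℂ, 0 < z.im → ‖fderiv ℝ K.kc z‖ ≤ C / z.im)
    (hC' : ∀ z w : ℍ, ‖K.kap z - K.kap w‖ ≤ C' * dist z w)
    (l₁ l₂ : List ℍ) (p q : ℍ) {z : ℂ} (hz : 0 < z.im) :
    |K.wd (l₁ ++ p :: l₂) z - K.wd (l₁ ++ q :: l₂) z| ≤ 2 * K.M * C ^ 2 * C' * dist p q / z.im ^ 2 := by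
  have hM := Jw_M_nonneg K
  have hd : 0 ≤ C' * dist p q := (norm_nonneg _).trans (hC' p q)
  have h1 : ∀ u v : ℂ, ‖u‖ = 1 → ‖v‖ = 1 →
      |K.T ((l₁ ++ p :: l₂).map K.kap) (K.kc z) (fderiv ℝ K.kc z u) (fderiv ℝ K.kc z v) -
        K.T ((l₁ ++ q :: l₂).map K.kap) (K.kc z) (fderiv ℝ K.kc z u) (fderiv ℝ K.kc z v)| ≤
        K.M * (C / z.im * (C / z.im)) * (C' * dist p q) := by
    intro u v hu hv
    refine (Jw_T_sub_le K hC' l₁ l₂ p q _ _ _).trans ?_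
    have e0 := K.norm_kc z
    have e1 := Jw_norm_le (hC z hz) u hu
    have e2 := Jw_norm_le (hC z hz) v hv
    have e3 := norm_nonneg (fderiv ℝ K.kc z u)
    have e4 : 0 ≤ C / z.im := e3.trans e1
    have e5 : ‖K.kc z‖ * ‖fderiv ℝ K.kc z u‖ ≤ C / z.im := by
      calc ‖K.kc z‖ * ‖fderiv ℝ K.kc z u‖ ≤ 1 * (C / z.im) := by gcongr
        _ = C / z.im := one_mul _
    have e6 := mul_le_mul_of_nonneg_left (mul_le_mul e5 e2 (norm_nonneg _) e4) hM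
    exact mul_le_mul_of_nonneg_right e6 hd
  have h2 := h1 1 Complex.I norm_one Complex.norm_I
  have h3 := h1 Complex.I 1 Complex.norm_I norm_one
  unfold KData.wd
  have e : ∀ a b c d : ℝ, a - b - (c - d) = (a - c) - (b - d) := fun a b c d => by ring
  rw [e]
  calc _ ≤ _ := abs_sub _ _
    _ ≤ _ := add_le_add h2 h3
    _ = 2 * K.M * C ^ 2 * C' * dist p q / z.im ^ 2 := by
      field_simp
      ring

/-- As `al_inv`, with `wd_det` for `u = dmob g z`, `v = dmob g z * i` (the determinant is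
`normSq (dmob g z)`). -/
theorem KData.wd_inv (K : KData N V) (g : G) (D : List ℍ) (z : ℂ) (hz : 0 < z.im) :
    pullw g (K.wd (D.map (g • ·))) z = K.wd D z := by
  have h1 := K.wd_det (D.map (g • ·)) (mob g z) (dmob g z * 1) (dmob g z * Complex.I)
  have h2 : (dmob g z * 1).re * (dmob g z * Complex.I).im -
      (dmob g z * 1).im * (dmob g z * Complex.I).re = Complex.normSq (dmob g z) := by
    simp only [mul_one, Complex.mul_re, Complex.mul_im, Complex.I_re, Complex.I_im,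
      Complex.normSq_apply]
    ring
  have h3 : (D.map (g • ·)).map K.kap = (D.map K.kap).map (K.rho g) := by
    rw [List.map_map, List.map_map]
    refine List.map_congr_left fun x _ => ?_
    exact K.rho_kap g x
  have h4 : ∀ a b c : V, K.T ((D.map K.kap).map (K.rho g)) (K.rho g a) (K.rho g b) (K.rho g c) =
      K.T (D.map K.kap) a b c := by
    intro a b c
    rw [K.T_apply, K.T_apply, ← K.Φ_inv g (a :: b :: c :: D.map K.kap)]
    rfl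
  rw [h2, h3, K.fderiv_kc_mob g hz, K.fderiv_kc_mob g hz, K.kc_mob g hz, h4, h4] at h1
  unfold pullw
  rw [← h1]
  rfl

end Pool.Agent.Helper24.BC
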