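import Pool.Agent.Helper24.BC.P_Pull

/-!
# Project BC, block POT: bounds for the derivatives of the kernel map, by invariance
-/

open scoped MatrixGroups UpperHalfPlane

namespace Pool.Agent.Helper24.BC

open Pool.Agent.Helper11.BC

variable {N : ℕ} {V : Type} [NormedAddCommGroup V] [NormedSpace ℝ V]

/-- The kernel map on complex numbers. -/
noncomputable def KData.kc (K : KData N V) : ℂ → V := fun ζ => K.kap (UpperHalfPlane.ofComplex ζ)

theorem KData.kc_mob (K : KData N V) (g : G) {z : ℂ} (hz : 0 < z.im) :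
    K.kc (mob g z) = K.rho g (K.kc z) := by
  unfold KData.kc
  rw [← smul_ofComplex g hz, K.rho_kap]

theorem KData.norm_kc (K : KData N V) (z : ℂ) : ‖K.kc z‖ ≤ 1 := K.kap_norm _

theorem KData.kc_diff (K : KData N V) {z : ℂ} (hz : 0 < z.im) : DifferentiableAt ℝ K.kc z :=
  (K.smooth z hz).differentiableAt (by norm_num)

theorem KData.kc_diff2 (K : KData N V) {z : ℂ} (hz : 0 < z.im) :
    DifferentiableAt ℝ (fderiv ℝ K.kc) z :=
  ((K.smooth z hz).fderiv_right (m := 1) (by norm_num)).differentiableAt (by norm_num)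

/-- Differentiate `kc_mob` (`hasDerivAt_mob`, the chain rule). -/
theorem KData.fderiv_kc_mob (K : KData N V) (g : G) {z : ℂ} (hz : 0 < z.im) (v : ℂ) :
    fderiv ℝ K.kc (mob g z) (dmob g z * v) = K.rho g (fderiv ℝ K.kc z v) := by
  have hm : HasFDerivAt (mob g) (ContinuousLinearMap.mul ℝ ℂ (dmob g z)) z := by
    have := (hasDerivAt_mob g hz).hasFDerivAt.restrictScalars ℝ
    refine this.congr_fderiv ?_
    ext1 v
    simp [mul_comm]
  have h1 : HasFDerivAt (fun y => K.kc (mob g y))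
      ((fderiv ℝ K.kc (mob g z)).comp (ContinuousLinearMap.mul ℝ ℂ (dmob g z))) z :=
    (K.kc_diff (mob_im_pos g hz)).hasFDerivAt.comp z hm
  have h2 : HasFDerivAt (fun y => K.rho g (K.kc y)) ((K.rho g).comp (fderiv ℝ K.kc z)) z :=
    (K.rho g).hasFDerivAt.comp z (K.kc_diff hz).hasFDerivAt
  have h3 : (fun y => K.rho g (K.kc y)) =ᶠ[nhds z] fun y => K.kc (mob g y) := by
    filter_upwards [isOpen_uhp.mem_nhds hz] with y hy
    exact (K.kc_mob g hy).symm
  have h4 := h1.unique (h2.congr_of_eventuallyEq h3.symm)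
  have h5 := congrArg (fun L : ℂ →L[ℝ] V => L v) h4
  simpa using h5

/-- The affine map `ζ ↦ x + y ζ` as an element of the group. -/
theorem exists_aff (z : ℂ) (hz : 0 < z.im) : ∃ p : G,
    (∀ ζ : ℂ, mob p ζ = z.re + z.im * ζ) ∧ (∀ ζ : ℂ, dmob p ζ = z.im) := by
  have hs : 0 < Real.sqrt z.im := Real.sqrt_pos.2 hz
  have hs2 : Real.sqrt z.im * Real.sqrt z.im = z.im := Real.mul_self_sqrt hz.le
  have hdet : (!![Real.sqrt z.im, z.re / Real.sqrt z.im; 0, 1 / Real.sqrt z.im] :
      Matrix (Fin 2) (Fin 2) ℝ).det = 1 := by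
    rw [Matrix.det_fin_two_of]
    field_simp
    ring
  refine ⟨⟨_, hdet⟩, ?_, ?_⟩
  · intro ζ
    have hc : ((Real.sqrt z.im : ℝ) : ℂ) ≠ 0 := by exact_mod_cast hs.ne'
    have hc2 : ((Real.sqrt z.im : ℝ) : ℂ) * ((Real.sqrt z.im : ℝ) : ℂ) = (z.im : ℂ) := by
      exact_mod_cast hs2
    unfold mob
    simp only [Matrix.SpecialLinearGroup.coe_mk, Matrix.of_apply, Matrix.cons_val', Matrix.cons_val_zero,
      Matrix.cons_val_one, Matrix.cons_val_fin_one, Complex.ofReal_zero, zero_mul, zero_add,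
      Complex.ofReal_div, Complex.ofReal_one]
    field_simp
    rw [← hc2]
    ring
  · intro ζ
    have hc : ((Real.sqrt z.im : ℝ) : ℂ) ≠ 0 := by exact_mod_cast hs.ne'
    have hc2 : ((Real.sqrt z.im : ℝ) : ℂ) * ((Real.sqrt z.im : ℝ) : ℂ) = (z.im : ℂ) := by
      exact_mod_cast hs2
    unfold dmob
    simp only [Matrix.SpecialLinearGroup.coe_mk, Matrix.of_apply, Matrix.cons_val', Matrix.cons_val_zero,
      Matrix.cons_val_one, Matrix.cons_val_fin_one, Complex.ofReal_zero, zero_mul, zero_add,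
      Complex.ofReal_div, Complex.ofReal_one]
    rw [← hc2]
    field_simp

/-- By `kc_mob` for the affine map `p : ζ ↦ x + y ζ` (`UpperHalfPlane.toSL2R`, `dmob p = y`), with
`z = x + i y = mob p i`: `fderiv kc z (y v) = rho p (fderiv kc i v)`, so the norm at `z` is the norm at
`i` divided by `y`.  For the second derivative differentiate
`fderiv kc (x + y ζ) (y v) = rho p (fderiv kc ζ v)` at `ζ = i`:
`y² D²kc(z)(u)(v) = rho p (D²kc(i)(u)(v))`. -/
theorem KData.exists_bd (K : KData N V) : ∃ C : ℝ, 1 ≤ C ∧ ∀ z : ℂ, 0 < z.im →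
    ‖fderiv ℝ K.kc z‖ ≤ C / z.im ∧ ‖fderiv ℝ (fderiv ℝ K.kc) z‖ ≤ C / z.im ^ 2 := by
  set A : ℝ := ‖fderiv ℝ K.kc Complex.I‖ with hA
  set B : ℝ := ‖fderiv ℝ (fderiv ℝ K.kc) Complex.I‖ with hB
  have hI : 0 < (Complex.I : ℂ).im := by simp
  refine ⟨max 1 (max A B), le_max_left _ _, ?_⟩
  intro z hz
  obtain ⟨p, hp1, hp2⟩ := exists_aff z hz
  have hzc : (z.im : ℂ) ≠ 0 := by exact_mod_cast hz.ne'
  have hpI : mob p Complex.I = z := by
    rw [hp1]
    exact Complex.re_add_im z
  have hAC : A ≤ max 1 (max A B) := (le_max_left A B).trans (le_max_right _ _)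
  have hBC : B ≤ max 1 (max A B) := (le_max_right A B).trans (le_max_right _ _)
  have hdiv : ∀ v : ℂ, ‖v / (z.im : ℂ)‖ = ‖v‖ / z.im := by
    intro v
    rw [norm_div, Complex.norm_real, Real.norm_of_nonneg hz.le]
  constructor
  · have h1 : ‖fderiv ℝ K.kc z‖ ≤ A / z.im := by
      refine ContinuousLinearMap.opNorm_le_bound _ (by positivity) ?_
      intro v
      have h2 := K.fderiv_kc_mob p hI (v / (z.im : ℂ))
      rw [hpI, hp2, mul_div_cancel₀ v hzc] at h2
      rw [h2, K.rho_norm]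
      refine (ContinuousLinearMap.le_opNorm _ _).trans ?_
      rw [hdiv, ← hA]
      exact le_of_eq (by ring)
    exact h1.trans (by gcongr)
  · have h1 : ‖fderiv ℝ (fderiv ℝ K.kc) z‖ ≤ B / z.im ^ 2 := by
      refine ContinuousLinearMap.opNorm_le_bound _ (by positivity) ?_
      intro u
      refine ContinuousLinearMap.opNorm_le_bound _ (by positivity) ?_
      intro v
      have hm : HasFDerivAt (mob p) (ContinuousLinearMap.mul ℝ ℂ (dmob p Complex.I)) Complex.I := by
        have := (hasDerivAt_mob p hI).hasFDerivAt.restrictScalars ℝ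
        refine this.congr_fderiv ?_
        ext1 v
        simp [mul_comm]
      have hd : HasFDerivAt (fderiv ℝ K.kc) (fderiv ℝ (fderiv ℝ K.kc) z) (mob p Complex.I) := by
        rw [hpI]
        exact (K.kc_diff2 hz).hasFDerivAt
      have h2 : HasFDerivAt (fun ζ => fderiv ℝ K.kc (mob p ζ))
          ((fderiv ℝ (fderiv ℝ K.kc) z).comp (ContinuousLinearMap.mul ℝ ℂ (dmob p Complex.I)))
          Complex.I := hd.comp Complex.I hm
      have h3 := h2.clm_apply (hasFDerivAt_const v Complex.I)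
      have h4 : HasFDerivAt (fun ζ => K.rho p (fderiv ℝ K.kc ζ (v / (z.im : ℂ))))
          ((K.rho p).comp ((fderiv ℝ (fderiv ℝ K.kc) Complex.I).flip (v / (z.im : ℂ))))
          Complex.I := by
        have h5 := (K.kc_diff2 hI).hasFDerivAt.clm_apply
          (hasFDerivAt_const (v / (z.im : ℂ)) Complex.I)
        have h6 := (K.rho p).hasFDerivAt.comp Complex.I h5
        refine h6.congr_fderiv ?_
        ext1 w
        simp
      have h7 : (fun ζ => K.rho p (fderiv ℝ K.kc ζ (v / (z.im : ℂ)))) =ᶠ[nhds Complex.I]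
          fun ζ => fderiv ℝ K.kc (mob p ζ) v := by
        filter_upwards [isOpen_uhp.mem_nhds hI] with y hy
        have h8 := K.fderiv_kc_mob p hy (v / (z.im : ℂ))
        rw [hp2, mul_div_cancel₀ v hzc] at h8
        exact h8.symm
      have h9 := h3.unique (h4.congr_of_eventuallyEq h7.symm)
      have h10 := congrArg (fun L : ℂ →L[ℝ] V => L (u / (z.im : ℂ))) h9
      simp only [hp2] at h10
      have h11 : fderiv ℝ (fderiv ℝ K.kc) z u v =
          K.rho p (fderiv ℝ (fderiv ℝ K.kc) Complex.I (u / (z.im : ℂ)) (v / (z.im : ℂ))) := by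
        simpa [mul_div_cancel₀ u hzc] using h10
      rw [h11, K.rho_norm]
      refine (ContinuousLinearMap.le_opNorm₂ _ _ _).trans ?_
      rw [hdiv, hdiv, ← hB]
      exact le_of_eq (by field_simp)
    exact h1.trans (by gcongr)

end Pool.Agent.Helper24.BC
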