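import Pool.Agent.Helper24.BC.P_Psi

/-!
# Project BC, block POT: the kernel as a smooth map into `L¹`
-/

open scoped MatrixGroups UpperHalfPlane
open MeasureTheory

namespace Pool.Agent.Helper24.BC

open Pool.Agent.Helper11.BC

/-- The space `L¹`. -/
abbrev V1 : Type := Lp ℝ 1 (volume : Measure ℍ)

/-- The kernel as an element of `L¹`. -/
noncomputable def kap (z : ℍ) : V1 := (integrable_ker z).toL1 (fun w => ker z w)

theorem kap_ae (z : ℍ) : (kap z : ℍ → ℝ) =ᵐ[volume] fun w => ker z w :=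
  (integrable_ker z).coeFn_toL1

theorem norm_kap (z : ℍ) : ‖kap z‖ = 1 := by
  unfold kap
  rw [L1.norm_of_fun_eq_integral_norm]
  have h : (fun w => ‖ker z w‖) = fun w => ker z w := by
    funext w
    exact Real.norm_of_nonneg (ker_pos z w).le
  rw [h, integral_ker]

/-- `(u, v) ↦ Re (u v̄)` as a continuous bilinear map. -/
private noncomputable def kapB : ℂ →L[ℝ] ℂ →L[ℝ] ℝ :=
  (ContinuousLinearMap.compL ℝ ℂ ℂ ℝ Complex.reCLM).comp
    (((ContinuousLinearMap.compL ℝ ℂ ℂ ℂ).flip (Complex.conjCLE : ℂ →L[ℝ] ℂ)).comp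
      (ContinuousLinearMap.mul ℝ ℂ))

private theorem kapB_self (u : ℂ) : kapB u u = ‖u‖ ^ 2 := by
  have h : kapB u u = (u * (starRingEnd ℂ) u).re := rfl
  rw [h, Complex.mul_conj, Complex.ofReal_re, Complex.normSq_eq_norm_sq]

private instance : ENNReal.HolderTriple 2 2 1 where
  inv_add_inv_eq_inv := by
    rw [inv_one, ENNReal.inv_two_add_inv_two]

private noncomputable def kapH : Lp ℂ 2 (volume : Measure ℍ) →L[ℝ]
    Lp ℂ 2 (volume : Measure ℍ) →L[ℝ] Lp ℝ 1 (volume : Measure ℍ) :=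
  kapB.holderL (volume : Measure ℍ) 2 2 1

private theorem kap_eq {ζ : ℂ} (hζ : 0 < ζ.im) : kap (UpperHalfPlane.ofComplex ζ) =
    (4 / Real.pi * ζ.im ^ 2) • kapH (psi ζ) (psi ζ) := by
  rw [UpperHalfPlane.ofComplex_apply_of_im_pos hζ]
  set z : ℍ := ⟨ζ, hζ⟩ with hz
  have hzζ : (z : ℂ) = ζ := rfl
  apply Lp.ext
  have h1 := kap_ae z
  have h2 := Lp.coeFn_smul (4 / Real.pi * ζ.im ^ 2) (kapH (psi ζ) (psi ζ))
  have h3 : (kapH (psi ζ) (psi ζ) : ℍ → ℝ) =ᵐ[volume]
      fun w => kapB (psi ζ w) (psi ζ w) := kapB.coeFn_holder (psi ζ) (psi ζ)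
  have h4 : (psi ζ : ℍ → ℂ) =ᵐ[volume] psi0 ζ := by
    unfold psi
    rw [dif_pos hζ]
    exact MemLp.coeFn_toLp _
  filter_upwards [h1, h2, h3, h4] with w e1 e2 e3 e4
  rw [e1, e2, Pi.smul_apply, e3, e4, kapB_self, smul_eq_mul]
  have h5 := normSq_psi0 z w
  rw [hzζ] at h5
  rw [h5]
  have hpi := Real.pi_pos
  have him : z.im = ζ.im := rfl
  rw [him]
  field_simp

/-- `psi` is complex differentiable on the open upper half plane, hence analytic
(`DifferentiableOn.analyticAt`), hence `C²` over `ℝ` (`ContDiffAt.restrict_scalars`).  On the upper half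
plane `kap (ofComplex ζ) = ((4/π) (Im ζ)²) • H (psi ζ) (psi ζ)` with the continuous bilinear map
`H : L² × L² → L¹` induced by `(u, v) ↦ Re (u v̄)` (`ContinuousLinearMap.holderL` over `ℝ`,
`ContinuousLinearMap.coeFn_holder`). -/
theorem contDiffAt_kap {z : ℂ} (hz : 0 < z.im) :
    ContDiffAt ℝ 2 (fun ζ : ℂ => kap (UpperHalfPlane.ofComplex ζ)) z := by
  have hopen : IsOpen {ζ : ℂ | 0 < ζ.im} := isOpen_lt continuous_const Complex.continuous_im
  have hd : DifferentiableOn ℂ psi {ζ : ℂ | 0 < ζ.im} := fun ζ hζ =>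
    (differentiableAt_psi hζ).differentiableWithinAt
  have ha : AnalyticAt ℂ psi z := hd.analyticAt (hopen.mem_nhds hz)
  have hc : ContDiffAt ℂ 2 psi z := ha.contDiffAt
  have hr : ContDiffAt ℝ 2 psi z := hc.restrict_scalars ℝ
  have hH : ContDiffAt ℝ 2 (fun ζ => kapH (psi ζ) (psi ζ)) z :=
    ContDiffAt.clm_apply (kapH.contDiff.contDiffAt.comp z hr) hr
  have hi : ContDiffAt ℝ 2 (fun ζ : ℂ => 4 / Real.pi * ζ.im ^ 2) z :=
    contDiffAt_const.mul ((Complex.imCLM.contDiff.contDiffAt).pow 2)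
  refine (hi.smul hH).congr_of_eventuallyEq ?_
  filter_upwards [hopen.mem_nhds hz] with ζ hζ
  exact kap_eq hζ

end Pool.Agent.Helper24.BC
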