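import Pool.Agent.Helper24.BC.PotDefs

/-!
# Project BC, block POT: the kernel
-/

open scoped MatrixGroups UpperHalfPlane
open MeasureTheory

namespace Pool.Agent.Helper24.BC

open Pool.Agent.Helper11.BC

/-- From `UpperHalfPlane.cosh_half_dist`. -/
theorem ker_eq (z w : ℍ) : ker z w =
    4 / Real.pi * z.im ^ 2 * w.im ^ 2 / ‖(z : ℂ) - (starRingEnd ℂ) (w : ℂ)‖ ^ 4 := by
  have hz := z.im_pos
  have hw := w.im_pos
  have h1 : Real.cosh (dist z w / 2) ^ 4 =
      ‖(z : ℂ) - (starRingEnd ℂ) (w : ℂ)‖ ^ 4 / (16 * z.im ^ 2 * w.im ^ 2) := by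
    rw [UpperHalfPlane.cosh_half_dist, Complex.dist_eq, div_pow]
    congr 1
    have h2 : √(z.im * w.im) ^ 2 = z.im * w.im := Real.sq_sqrt (by positivity)
    calc (2 * √(z.im * w.im)) ^ 4 = 16 * (√(z.im * w.im) ^ 2) ^ 2 := by ring
      _ = _ := by rw [h2]; ring
  unfold ker
  rw [h1, inv_div]
  ring

theorem ker_pos (z w : ℍ) : 0 < ker z w := by
  unfold ker
  positivity

theorem ker_smul (g : G) (z w : ℍ) : ker (g • z) (g • w) = ker z w := by
  unfold ker
  rw [dist_smul]

theorem continuous_ker : Continuous fun p : ℍ × ℍ => ker p.1 p.2 := by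
  unfold ker
  refine continuous_const.mul (Continuous.inv₀ ?_ fun p => ?_)
  · exact (Real.continuous_cosh.comp (continuous_dist.div_const 2)).pow 4
  · have := Real.cosh_pos (dist p.1 p.2 / 2)
    positivity

end Pool.Agent.Helper24.BC
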