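import Pool.Agent.Helper24.BC.P_Ker

/-!
# Project BC, block POT: the integral of the kernel
-/

open scoped MatrixGroups UpperHalfPlane
open MeasureTheory

namespace Pool.Agent.Helper24.BC

open Pool.Agent.Helper11.BC

private theorem KerInt_lim (A : ℝ) (hA : 0 < A) (l : Filter ℝ)
    (hl : Filter.Tendsto (fun s : ℝ => |s|) l Filter.atTop) :
    Filter.Tendsto (fun s : ℝ => s / (2 * A ^ 2 * (s ^ 2 + A ^ 2))) l (nhds 0) := by
  have h1 : Filter.Tendsto (fun s : ℝ => (2 * A ^ 2)⁻¹ * |s|⁻¹) l (nhds 0) := by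
    have := (hl.inv_tendsto_atTop).const_mul ((2 * A ^ 2)⁻¹)
    simpa using this
  refine squeeze_zero_norm (fun s => ?_) h1
  have hp : 0 < s ^ 2 + A ^ 2 := by positivity
  rw [Real.norm_eq_abs, abs_div, abs_of_pos (by positivity : 0 < 2 * A ^ 2 * (s ^ 2 + A ^ 2))]
  rcases eq_or_ne s 0 with rfl | hs
  · simp
  · have hs0 : 0 < |s| := abs_pos.mpr hs
    have hss : |s| * |s| = s ^ 2 := by rw [← sq, sq_abs]
    rw [div_le_iff₀ (by positivity), ← mul_inv, inv_mul_eq_div, le_div_iff₀ (by positivity)]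
    calc |s| * (2 * A ^ 2 * |s|) = 2 * A ^ 2 * (|s| * |s|) := by ring
      _ = 2 * A ^ 2 * s ^ 2 := by rw [hss]
      _ ≤ 2 * A ^ 2 * (s ^ 2 + A ^ 2) :=
          mul_le_mul_of_nonneg_left (by nlinarith) (by positivity)

private theorem KerInt_inner (A : ℝ) (hA : 0 < A) :
    ∫⁻ s : ℝ, ENNReal.ofReal (((s ^ 2 + A ^ 2) ^ 2)⁻¹) = ENNReal.ofReal (Real.pi / (2 * A ^ 3)) := by
  have hpos : ∀ s : ℝ, 0 < s ^ 2 + A ^ 2 := fun s => by positivity
  have hint : Integrable fun s : ℝ => ((s ^ 2 + A ^ 2) ^ 2)⁻¹ := by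
    have h1 : Integrable fun s : ℝ => (A ^ 4)⁻¹ * (1 + (s / A) ^ 2)⁻¹ :=
      (integrable_inv_one_add_sq.comp_div hA.ne').const_mul _
    refine h1.mono' ?_ (Filter.Eventually.of_forall fun s => ?_)
    · apply Continuous.aestronglyMeasurable
      exact Continuous.inv₀ (by fun_prop) (fun s => (pow_pos (hpos s) 2).ne')
    · rw [Real.norm_of_nonneg (inv_nonneg.mpr (sq_nonneg _)), ← mul_inv]
      apply inv_anti₀ (by positivity)
      have e1 : A ^ 4 * (1 + (s / A) ^ 2) = A ^ 2 * (s ^ 2 + A ^ 2) := by field_simp; ring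
      rw [e1, sq (s ^ 2 + A ^ 2)]
      exact mul_le_mul_of_nonneg_right (by nlinarith [sq_nonneg s]) (hpos s).le
  have hd : ∀ s : ℝ, HasDerivAt (fun s : ℝ => s / (2 * A ^ 2 * (s ^ 2 + A ^ 2)) +
      Real.arctan (s / A) / (2 * A ^ 3)) (((s ^ 2 + A ^ 2) ^ 2)⁻¹) s := by
    intro s
    have h1 : HasDerivAt (fun s : ℝ => 2 * A ^ 2 * (s ^ 2 + A ^ 2)) (2 * A ^ 2 * (2 * s)) s := by
      have := ((hasDerivAt_pow 2 s).add_const (A ^ 2)).const_mul (2 * A ^ 2)
      simpa using this
    have hp := hpos s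
    have h2 := (hasDerivAt_id' s).fun_div h1 (by positivity)
    have h3 := (((hasDerivAt_id' s).div_const A).arctan).div_const (2 * A ^ 3)
    refine (h2.fun_add h3).congr_deriv ?_
    field_simp
    ring
  have ht : Filter.Tendsto (fun s : ℝ => s / (2 * A ^ 2 * (s ^ 2 + A ^ 2)) +
      Real.arctan (s / A) / (2 * A ^ 3)) Filter.atTop (nhds (0 + (Real.pi / 2) / (2 * A ^ 3))) := by
    refine (KerInt_lim A hA _ Filter.tendsto_abs_atTop_atTop).add (Filter.Tendsto.div_const ?_ _)
    exact (tendsto_nhdsWithin_iff.mp Real.tendsto_arctan_atTop).1.comp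
      (Filter.tendsto_id.atTop_div_const hA)
  have hb : Filter.Tendsto (fun s : ℝ => s / (2 * A ^ 2 * (s ^ 2 + A ^ 2)) +
      Real.arctan (s / A) / (2 * A ^ 3)) Filter.atBot (nhds (0 + (-(Real.pi / 2)) / (2 * A ^ 3))) := by
    refine (KerInt_lim A hA _ Filter.tendsto_abs_atBot_atTop).add (Filter.Tendsto.div_const ?_ _)
    exact (tendsto_nhdsWithin_iff.mp Real.tendsto_arctan_atBot).1.comp
      (Filter.tendsto_id.atBot_div_const hA)
  rw [← ofReal_integral_eq_lintegral_ofReal hint (Filter.Eventually.of_forall fun s => by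
      simp only [Pi.zero_apply]; positivity),
    integral_of_hasDerivAt_of_tendsto hd hint hb ht]
  congr 1
  field_simp
  ring

private theorem KerInt_outer (y : ℝ) (hy : 0 < y) :
    ∫⁻ v in Set.Ioi (0 : ℝ), ENNReal.ofReal (2 * y ^ 2 / (y + v) ^ 3) = 1 := by
  have hd : ∀ v ∈ Set.Ici (0 : ℝ), HasDerivAt (fun v : ℝ => -(y ^ 2 / (y + v) ^ 2))
      (2 * y ^ 2 / (y + v) ^ 3) v := by
    intro v hv
    have hv' : 0 < y + v := by have : (0 : ℝ) ≤ v := hv; linarith
    have h1 : HasDerivAt (fun v : ℝ => (y + v) ^ 2) (2 * (y + v)) v := by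
      have := ((hasDerivAt_id' v).const_add y).fun_pow 2
      simpa using this
    have h2 := (((hasDerivAt_const v (y ^ 2)).fun_div h1 (by positivity))).fun_neg
    refine h2.congr_deriv ?_
    field_simp
    ring
  have ht : Filter.Tendsto (fun v : ℝ => -(y ^ 2 / (y + v) ^ 2)) Filter.atTop (nhds (-0)) := by
    apply Filter.Tendsto.neg
    apply Filter.Tendsto.const_div_atTop
    apply (Filter.tendsto_pow_atTop (by norm_num : (2 : ℕ) ≠ 0)).comp
    exact Filter.tendsto_atTop_add_const_left _ _ Filter.tendsto_id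
  have hn : ∀ v ∈ Set.Ioi (0 : ℝ), 0 ≤ 2 * y ^ 2 / (y + v) ^ 3 := by
    intro v hv
    have hv' : 0 < y + v := by have : (0 : ℝ) < v := hv; linarith
    positivity
  have hint := integrableOn_Ioi_deriv_of_nonneg' hd hn ht
  have hval := integral_Ioi_of_hasDerivAt_of_tendsto' hd hint ht
  rw [← ofReal_integral_eq_lintegral_ofReal hint, hval]
  · rw [neg_zero, zero_sub, neg_neg, add_zero, div_self (by positivity), ENNReal.ofReal_one]
  · exact (ae_restrict_iff' measurableSet_Ioi).mpr (Filter.Eventually.of_forall hn)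

private theorem KerInt_fiber (x y v : ℝ) (hy : 0 < y) (hv : 0 < v) :
    ∫⁻ u : ℝ, ENNReal.ofReal (4 / Real.pi * y ^ 2 * (((x - u) ^ 2 + (y + v) ^ 2) ^ 2)⁻¹) =
      ENNReal.ofReal (2 * y ^ 2 / (y + v) ^ 3) := by
  have hA : 0 < y + v := by linarith
  have hc : 0 ≤ 4 / Real.pi * y ^ 2 := by positivity
  have h1 := lintegral_sub_left_eq_self (μ := (volume : Measure ℝ))
    (fun s : ℝ => ENNReal.ofReal (4 / Real.pi * y ^ 2 * ((s ^ 2 + (y + v) ^ 2) ^ 2)⁻¹)) x
  rw [h1]
  simp_rw [ENNReal.ofReal_mul hc]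
  rw [lintegral_const_mul' _ _ ENNReal.ofReal_ne_top, KerInt_inner _ hA, ← ENNReal.ofReal_mul hc]
  congr 1
  field_simp
  ring

private theorem KerInt_cont (z : ℍ) : Continuous fun w : ℍ => ker z w := by
  have h1 : Continuous fun w : ℍ => ((z, w) : ℍ × ℍ) := Continuous.prodMk_right z
  have h2 := Continuous.comp continuous_ker h1
  exact h2

/-- `∫ ker z w dw = (4/π) y² ∫_{v > 0} ∫_u ((x - u)² + (y + v)²)⁻² du dv`, since the density `1 / v²` of
the measure cancels; the inner integral is `π / (2 (y + v)³)` (antiderivative of `(u² + A²)⁻²`: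
`u / (2 A² (u² + A²)) + arctan (u / A) / (2 A³)`), and `∫_{v > 0} π / (2 (y + v)³) dv = π / (4 y²)`.
Do it with the lower integral `∫⁻ ENNReal.ofReal (ker z w) = 1` (no integrability needed for Tonelli):
the volume of `ℍ` is `(volume.comap coe).withDensity (1 / im²)` (`UpperHalfPlane.volume_def`,
`UpperHalfPlane.measurableEmbedding_coe`), then `Complex.volume_preserving_equiv_real_prod` and
`MeasureTheory.lintegral_prod`. -/
theorem lintegral_ker (z : ℍ) : ∫⁻ w : ℍ, ENNReal.ofReal (ker z w) = 1 := by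
  have hy : 0 < z.im := z.im_pos
  set x := z.re with hx
  set y := z.im with hyd
  set F : ℂ → ENNReal := fun ζ =>
    ENNReal.ofReal (4 / Real.pi * y ^ 2 * (((x - ζ.re) ^ 2 + (y + ζ.im) ^ 2) ^ 2)⁻¹) with hF
  have hFm : Measurable F := by
    rw [hF]
    fun_prop
  have hkm : Measurable fun w : ℍ => ENNReal.ofReal (ker z w) := by
    exact (KerInt_cont z).measurable.ennreal_ofReal
  have hdm : Measurable fun w : ℍ => (((1 / NNReal.mk w.im w.im_pos.le : NNReal) ^ 2 : NNReal) : ENNReal) := by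
    apply Measurable.coe_nnreal_ennreal
    apply Measurable.pow_const
    apply Measurable.const_div
    exact Measurable.subtype_mk UpperHalfPlane.continuous_im.measurable
  have step1 : ∫⁻ w : ℍ, ENNReal.ofReal (ker z w) =
      ∫⁻ w : ℍ, F (w : ℂ) ∂((volume : Measure ℂ).comap UpperHalfPlane.coe) := by
    rw [UpperHalfPlane.volume_def, lintegral_withDensity_eq_lintegral_mul _ hdm hkm]
    refine lintegral_congr fun w => ?_
    rw [Pi.mul_apply, hF]
    have hv : 0 < w.im := w.im_pos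
    have e1 : (((1 / NNReal.mk w.im w.im_pos.le : NNReal) ^ 2 : NNReal) : ENNReal) =
        ENNReal.ofReal ((1 / w.im) ^ 2) := by
      rw [ENNReal.ofReal, ENNReal.coe_inj]
      ext
      rw [Real.coe_toNNReal _ (by positivity)]
      push_cast
      rfl
    rw [e1, ← ENNReal.ofReal_mul (by positivity), ker_eq]
    congr 1
    have e2 : ‖(z : ℂ) - (starRingEnd ℂ) (w : ℂ)‖ ^ 2 = (x - w.re) ^ 2 + (y + w.im) ^ 2 := by
      rw [Complex.sq_norm, Complex.normSq_apply]
      simp only [Complex.sub_re, Complex.sub_im, Complex.conj_re, Complex.conj_im]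
      rw [hx, hyd]
      change (z.re - w.re) * (z.re - w.re) + (z.im - -w.im) * (z.im - -w.im) = _
      ring
    have e3 : ‖(z : ℂ) - (starRingEnd ℂ) (w : ℂ)‖ ^ 4 = ((x - w.re) ^ 2 + (y + w.im) ^ 2) ^ 2 := by
      rw [← e2]; ring
    rw [e3]
    change _ = 4 / Real.pi * y ^ 2 * (((x - w.re) ^ 2 + (y + w.im) ^ 2) ^ 2)⁻¹
    rw [← hyd]
    field_simp
  have step2 : ∫⁻ w : ℍ, F (w : ℂ) ∂((volume : Measure ℂ).comap UpperHalfPlane.coe) =
      ∫⁻ ζ : ℂ, ({ζ : ℂ | 0 < ζ.im}).indicator F ζ := by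
    rw [← UpperHalfPlane.measurableEmbedding_coe.lintegral_map,
      UpperHalfPlane.measurableEmbedding_coe.map_comap, UpperHalfPlane.range_coe,
      lintegral_indicator (measurableSet_lt measurable_const Complex.measurable_im)]
  have step3 : ∫⁻ ζ : ℂ, ({ζ : ℂ | 0 < ζ.im}).indicator F ζ =
      ∫⁻ p : ℝ × ℝ, ({p : ℝ × ℝ | 0 < p.2}).indicator (fun p =>
        ENNReal.ofReal (4 / Real.pi * y ^ 2 * (((x - p.1) ^ 2 + (y + p.2) ^ 2) ^ 2)⁻¹)) p := by
    rw [← Complex.volume_preserving_equiv_real_prod.lintegral_comp_emb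
      Complex.measurableEquivRealProd.measurableEmbedding]
    rfl
  have hGm : Measurable (({p : ℝ × ℝ | 0 < p.2}).indicator (fun p =>
        ENNReal.ofReal (4 / Real.pi * y ^ 2 * (((x - p.1) ^ 2 + (y + p.2) ^ 2) ^ 2)⁻¹))) := by
    apply Measurable.indicator
    · fun_prop
    · exact measurableSet_lt measurable_const measurable_snd
  rw [step1, step2, step3, Measure.volume_eq_prod, lintegral_prod_symm _ hGm.aemeasurable,
    ← KerInt_outer y hy, ← lintegral_indicator measurableSet_Ioi]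
  refine lintegral_congr fun v => ?_
  by_cases hv : 0 < v
  · rw [Set.indicator_of_mem (Set.mem_Ioi.mpr hv), ← KerInt_fiber x y v hy hv]
    refine lintegral_congr fun u => ?_
    rw [Set.indicator_of_mem]
    exact hv
  · rw [Set.indicator_of_notMem (by simpa using hv)]
    rw [← lintegral_zero]
    refine lintegral_congr fun u => ?_
    rw [Set.indicator_of_notMem]
    exact hv

theorem integrable_ker (z : ℍ) : Integrable (fun w : ℍ => ker z w) := by
  refine ⟨(KerInt_cont z).aestronglyMeasurable, ?_⟩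
  rw [hasFiniteIntegral_iff_ofReal (Filter.Eventually.of_forall fun w => (ker_pos z w).le),
    lintegral_ker]
  exact ENNReal.one_lt_top

theorem integral_ker (z : ℍ) : ∫ w : ℍ, ker z w = 1 := by
  rw [integral_eq_lintegral_of_nonneg_ae (Filter.Eventually.of_forall fun w => (ker_pos z w).le)
    (KerInt_cont z).aestronglyMeasurable, lintegral_ker, ENNReal.toReal_one]

end Pool.Agent.Helper24.BC
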