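import Pool.Agent.Helper24.BC.P_Pull

/-!
# Project BC, block POT: the primitive `lam0`
-/

open scoped MatrixGroups UpperHalfPlane
open MeasureTheory

namespace Pool.Agent.Helper24.BC

open Pool.Agent.Helper11.BC

/-- The image of the ray. -/
theorem ray_im (z : ℂ) (t : ℝ) : (z + t * Complex.I).im = z.im + t := by simp

theorem ray_hasDerivAt (z : ℂ) (t : ℝ) :
    HasDerivAt (fun t : ℝ => z + t * Complex.I) Complex.I t := by
  have h1 : HasDerivAt (fun t : ℝ => (t : ℂ)) 1 t := Complex.ofRealCLM.hasDerivAt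
  simpa using (h1.mul_const Complex.I).const_add z

theorem tendsto_inv_add (c : ℝ) :
    Filter.Tendsto (fun t : ℝ => -(c + t)⁻¹) Filter.atTop (nhds 0) := by
  have h1 : Filter.Tendsto (fun t : ℝ => c + t) Filter.atTop Filter.atTop :=
    Filter.tendsto_atTop_add_const_left _ _ Filter.tendsto_id
  simpa using (tendsto_inv_atTop_zero.comp h1).neg

theorem hasDerivAt_inv_add {c t : ℝ} (h : c + t ≠ 0) :
    HasDerivAt (fun t : ℝ => -(c + t)⁻¹) (1 / (c + t) ^ 2) t := by
  have h1 : HasDerivAt (fun t : ℝ => c + t) 1 t := by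
    simpa using (hasDerivAt_id t).const_add c
  have h2 : HasDerivAt (fun t : ℝ => -(c + t)⁻¹) (-(-1 / (c + t) ^ 2)) t := (h1.inv h).neg
  rw [neg_div, neg_neg] at h2
  exact h2

theorem inv_sq_integrable {c : ℝ} (hc : 0 < c) :
    IntegrableOn (fun t : ℝ => 1 / (c + t) ^ 2) (Set.Ioi 0) := by
  refine integrableOn_Ioi_deriv_of_nonneg' (g := fun t : ℝ => -(c + t)⁻¹) (l := 0)
    (fun t ht => hasDerivAt_inv_add ?_) (fun t _ => by positivity) (tendsto_inv_add c)
  have : (0 : ℝ) ≤ t := ht
  positivity

theorem inv_sq_integral {c : ℝ} (hc : 0 < c) :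
    ∫ t in Set.Ioi (0 : ℝ), 1 / (c + t) ^ 2 = 1 / c := by
  have h := integral_Ioi_of_hasDerivAt_of_nonneg' (a := 0) (g := fun t : ℝ => -(c + t)⁻¹)
    (g' := fun t : ℝ => 1 / (c + t) ^ 2) (l := 0)
    (fun t ht => hasDerivAt_inv_add (by
      have : (0 : ℝ) ≤ t := ht
      positivity)) (fun t _ => by positivity) (tendsto_inv_add c)
  rw [h]
  simp

theorem inv_cube_integrable {c : ℝ} (hc : 0 < c) :
    IntegrableOn (fun t : ℝ => 1 / (c + t) ^ 3) (Set.Ioi 0) := by
  refine Integrable.mono' ((inv_sq_integrable hc).const_mul (1 / c)) ?_ ?_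
  · refine ContinuousOn.aestronglyMeasurable ?_ measurableSet_Ioi
    intro t ht
    have ht' : (0 : ℝ) < t := ht
    have h0 : (c + t) ^ 3 ≠ 0 := by positivity
    refine ContinuousAt.continuousWithinAt ?_
    refine ContinuousAt.div continuousAt_const ?_ h0
    fun_prop
  · refine (ae_restrict_iff' measurableSet_Ioi).2 (Filter.Eventually.of_forall fun t ht => ?_)
    have ht' : (0 : ℝ) < t := ht
    have h1 : 0 < c + t := by positivity
    rw [Real.norm_of_nonneg (by positivity), div_mul_div_comm, one_mul]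
    apply one_div_le_one_div_of_le
    · positivity
    · nlinarith [mul_pos hc h1, sq_nonneg (c + t), mul_nonneg ht'.le (sq_nonneg (c + t))]

theorem Dens0.C_nonneg {w : ℂ → ℝ} {C : ℝ} (h : ∀ z : ℂ, 0 < z.im → |w z| ≤ C / z.im ^ 2) :
    0 ≤ C := by
  have := h Complex.I (by simp)
  simp at this
  exact (abs_nonneg _).trans this

/-- `|∫_{t > 0} w (z + i t) dt| ≤ ∫_{t > 0} C / (y + t)² dt = C / y`
(`norm_integral_le_of_norm_le`; an antiderivative is `- C / (y + t)`, use
`integral_Ioi_of_hasDerivAt_of_tendsto` and `integrableOn_Ioi_deriv_of_nonneg` or the like). -/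
theorem lam0_bd {w : ℂ → ℝ} {C : ℝ} (h : ∀ z : ℂ, 0 < z.im → |w z| ≤ C / z.im ^ 2) {z : ℂ}
    (hz : 0 < z.im) : |∫ t in Set.Ioi (0 : ℝ), w (z + t * Complex.I)| ≤ C / z.im := by
  have hi : Integrable (fun t : ℝ => C * (1 / (z.im + t) ^ 2)) (volume.restrict (Set.Ioi 0)) :=
    (inv_sq_integrable hz).const_mul C
  have h1 : ‖∫ t in Set.Ioi (0 : ℝ), w (z + t * Complex.I)‖
      ≤ ∫ t in Set.Ioi (0 : ℝ), C * (1 / (z.im + t) ^ 2) := by
    refine norm_integral_le_of_norm_le hi ?_
    refine (ae_restrict_iff' measurableSet_Ioi).2 (Filter.Eventually.of_forall fun t ht => ?_)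
    have ht' : (0 : ℝ) < t := ht
    have h2 := h (z + t * Complex.I) (by rw [ray_im]; positivity)
    rw [ray_im] at h2
    rw [Real.norm_eq_abs, mul_one_div]
    exact h2
  rw [Real.norm_eq_abs, integral_const_mul, inv_sq_integral hz, mul_one_div] at h1
  exact h1

/-- Continuous in `t` and bounded by `C / (y + t)²`. -/
theorem lam0_integrable {w : ℂ → ℝ} {C : ℝ} (hw : Dens0 w C) {z : ℂ} (hz : 0 < z.im) :
    IntegrableOn (fun t : ℝ => w (z + t * Complex.I)) (Set.Ioi 0) := by
  have hi : Integrable (fun t : ℝ => C * (1 / (z.im + t) ^ 2)) (volume.restrict (Set.Ioi 0)) :=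
    (inv_sq_integrable hz).const_mul C
  refine Integrable.mono' hi ?_ ?_
  · refine ContinuousOn.aestronglyMeasurable ?_ measurableSet_Ioi
    intro t ht
    have ht' : (0 : ℝ) < t := ht
    have h1 : ContinuousAt w (z + t * Complex.I) :=
      (hw.smooth _ (by rw [ray_im]; positivity)).continuousAt
    exact (ContinuousAt.comp (f := fun t : ℝ => z + t * Complex.I) h1
      (ray_hasDerivAt z t).continuousAt).continuousWithinAt
  · refine (ae_restrict_iff' measurableSet_Ioi).2 (Filter.Eventually.of_forall fun t ht => ?_)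
    have ht' : (0 : ℝ) < t := ht
    have h2 := hw.bd (z + t * Complex.I) (by rw [ray_im]; positivity)
    rw [ray_im] at h2
    rw [Real.norm_eq_abs, mul_one_div]
    exact h2

/-- The function `P(z) = ∫_{t > 0} w (z + i t) dt` has the derivative
`P'(z) = ∫_{t > 0} w' (z + i t) dt` at the points of the upper half plane:
`hasFDerivAt_integral_of_dominated_of_fderiv_le` on the ball of radius `y / 2` about `z`, with the
bound `‖w' (z' + i t)‖ ≤ C / (y / 2 + t)³`.  Then `P'(z) i = ∫_{t > 0} d/dt (w (z + i t)) dt = - w z`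
(`integral_Ioi_of_hasDerivAt_of_tendsto`; the limit at infinity is `0` by the bound `C / (y + t)²`).
The derivative of `lam0 w` at `z` is `a' u v = P'(z) u * v.re`, and
`P'(z) u = u.re * P'(z) 1 - u.im * w z`, so that `a' u v - a' v u = w z (u.re v.im - u.im v.re)`. -/
theorem lam0_prim {w : ℂ → ℝ} {C : ℝ} (hw : Dens0 w C) : IsPrim (lam0 w) w := by
  intro z hz
  have hC : 0 ≤ C := Dens0.C_nonneg hw.bd
  set P' : ℂ →L[ℝ] ℝ := ∫ t in Set.Ioi (0 : ℝ), fderiv ℝ w (z + t * Complex.I) with hP'
  -- points of the ball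
  have hball : ∀ x ∈ Metric.ball z (z.im / 2), z.im / 2 < x.im := by
    intro x hx
    rw [Metric.mem_ball, dist_eq_norm] at hx
    have h1 := Complex.abs_im_le_norm (x - z)
    rw [Complex.sub_im] at h1
    have h2 := (abs_le.1 h1).1
    linarith
  have hdiff : ∀ x : ℂ, 0 < x.im → HasFDerivAt w (fderiv ℝ w x) x := fun x hx =>
    ((hw.smooth x hx).differentiableAt (by norm_num)).hasFDerivAt
  have hcont : ∀ x : ℂ, 0 < x.im → ContinuousAt (fderiv ℝ w) x := fun x hx =>
    (hw.smooth x hx).continuousAt_fderiv (by norm_num)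
  have hmeas : AEStronglyMeasurable (fun t : ℝ => fderiv ℝ w (z + t * Complex.I))
      (volume.restrict (Set.Ioi (0 : ℝ))) := by
    refine ContinuousOn.aestronglyMeasurable ?_ measurableSet_Ioi
    intro t ht
    have ht' : (0 : ℝ) < t := ht
    have h1 : ContinuousAt (fderiv ℝ w) (z + t * Complex.I) :=
      hcont _ (by rw [ray_im]; positivity)
    exact (ContinuousAt.comp (f := fun t : ℝ => z + t * Complex.I) h1
      (ray_hasDerivAt z t).continuousAt).continuousWithinAt
  have hbint : Integrable (fun t : ℝ => C * (1 / (z.im / 2 + t) ^ 3))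
      (volume.restrict (Set.Ioi 0)) :=
    (inv_cube_integrable (half_pos hz)).const_mul C
  have hbound : ∀ t : ℝ, 0 < t → ∀ x ∈ Metric.ball z (z.im / 2),
      ‖fderiv ℝ w (x + t * Complex.I)‖ ≤ C * (1 / (z.im / 2 + t) ^ 3) := by
    intro t ht x hx
    have h1 := hball x hx
    have h2 := hw.bd1 (x + t * Complex.I) (by rw [ray_im]; linarith)
    rw [ray_im] at h2
    refine h2.trans ?_
    rw [mul_one_div]
    apply div_le_div_of_nonneg_left hC
    · have : 0 < z.im / 2 + t := by positivity
      positivity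
    · have : 0 ≤ z.im / 2 + t := by positivity
      gcongr
  have hder : HasFDerivAt (fun x : ℂ => ∫ t in Set.Ioi (0 : ℝ), w (x + t * Complex.I)) P' z := by
    refine hasFDerivAt_integral_of_dominated_of_fderiv_le (𝕜 := ℝ)
      (F := fun x t => w (x + (t : ℝ) * Complex.I))
      (F' := fun x t => fderiv ℝ w (x + (t : ℝ) * Complex.I))
      (s := Metric.ball z (z.im / 2))
      (bound := fun t : ℝ => C * (1 / (z.im / 2 + t) ^ 3))
      (Metric.ball_mem_nhds z (half_pos hz)) ?_ (lam0_integrable hw hz) hmeas ?_ hbint ?_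
    · filter_upwards [Metric.ball_mem_nhds z (half_pos hz)] with x hx
      have := hball x hx
      exact (lam0_integrable hw (by linarith)).aestronglyMeasurable
    · refine (ae_restrict_iff' measurableSet_Ioi).2 (Filter.Eventually.of_forall fun t ht => ?_)
      exact hbound t ht
    · refine (ae_restrict_iff' measurableSet_Ioi).2 (Filter.Eventually.of_forall fun t ht => ?_)
      intro x hx
      have ht' : (0 : ℝ) < t := ht
      have h1 := hball x hx
      have h2 := hdiff (x + t * Complex.I) (by rw [ray_im]; linarith)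
      exact HasFDerivAt.comp x h2 ((hasFDerivAt_id x).add_const _)
  have hPint : Integrable (fun t : ℝ => fderiv ℝ w (z + t * Complex.I))
      (volume.restrict (Set.Ioi (0 : ℝ))) := by
    refine Integrable.mono' hbint hmeas ?_
    refine (ae_restrict_iff' measurableSet_Ioi).2 (Filter.Eventually.of_forall fun t ht => ?_)
    exact hbound t ht z (Metric.mem_ball_self (half_pos hz))
  have hPI : P' Complex.I = - w z := by
    have h1 : P' Complex.I = ∫ t in Set.Ioi (0 : ℝ), fderiv ℝ w (z + t * Complex.I) Complex.I := by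
      rw [hP', ContinuousLinearMap.integral_apply hPint]
    rw [h1]
    have hd : ∀ t ∈ Set.Ici (0 : ℝ), HasDerivAt (fun t : ℝ => w (z + t * Complex.I))
        (fderiv ℝ w (z + t * Complex.I) Complex.I) t := by
      intro t ht
      have ht' : (0 : ℝ) ≤ t := ht
      have h2 := hdiff (z + t * Complex.I) (by rw [ray_im]; positivity)
      exact h2.comp_hasDerivAt t (ray_hasDerivAt z t)
    have hlim : Filter.Tendsto (fun t : ℝ => w (z + t * Complex.I)) Filter.atTop (nhds 0) := by
      refine squeeze_zero_norm' (a := fun t : ℝ => C * (-(z.im + t)⁻¹) ^ 2) ?_ ?_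
      · filter_upwards [Filter.eventually_ge_atTop (0 : ℝ)] with t ht
        have h3 := hw.bd (z + t * Complex.I) (by rw [ray_im]; positivity)
        rw [ray_im] at h3
        rw [Real.norm_eq_abs]
        refine h3.trans (le_of_eq ?_)
        rw [neg_sq, inv_pow, div_eq_mul_inv]
      · simpa using ((tendsto_inv_add z.im).pow 2).const_mul C
    rw [integral_Ioi_of_hasDerivAt_of_tendsto' hd (hPint.apply_continuousLinearMap _) hlim]
    simp
  have hlam : HasFDerivAt (lam0 w) (P'.smulRight Complex.reCLM) z := by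
    have := hder.smul_const Complex.reCLM
    exact this
  refine ⟨P'.smulRight Complex.reCLM, hlam, ?_⟩
  intro u v
  have hPu : ∀ u : ℂ, P' u = u.re * P' 1 - u.im * w z := by
    intro u
    have h1 : u = u.re • (1 : ℂ) + u.im • Complex.I := by
      simp [Complex.re_add_im]
    conv_lhs => rw [h1]
    rw [map_add, map_smul, map_smul, hPI]
    simp only [smul_eq_mul]
    ring
  simp only [ContinuousLinearMap.smulRight_apply, smul_apply,
    Complex.reCLM_apply, smul_eq_mul]
  rw [hPu u, hPu v]
  ring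

end Pool.Agent.Helper24.BC
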