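import Pool.Agent.Helper24.BC.PotDefs

/-!
# Project BC, block POT: the Möbius maps on complex numbers
-/

open scoped MatrixGroups UpperHalfPlane
open MeasureTheory

namespace Pool.Agent.Helper24.BC

open Pool.Agent.Helper11.BC

theorem det_eq (g : G) : g 0 0 * g 1 1 - g 0 1 * g 1 0 = 1 := by
  have := g.det_coe
  rw [Matrix.det_fin_two] at this
  exact this

theorem den_ne (g : G) {z : ℂ} (hz : 0 < z.im) : ((g 1 0 : ℝ) : ℂ) * z + (g 1 1 : ℝ) ≠ 0 := by
  intro h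
  have him := congrArg Complex.im h
  simp only [Complex.add_im, Complex.mul_im, Complex.ofReal_re, Complex.ofReal_im, zero_mul,
    add_zero, Complex.zero_im] at him
  have h10 : g 1 0 = 0 := by
    rcases mul_eq_zero.1 him with h | h
    · exact h
    · exact absurd h hz.ne'
  have hre := congrArg Complex.re h
  simp only [h10, Complex.ofReal_zero, zero_mul, zero_add, Complex.ofReal_re,
    Complex.zero_re] at hre
  have := det_eq g
  rw [h10, hre] at this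
  simp at this

theorem coe_smul_eq (g : G) (z : ℍ) : ((g • z : ℍ) : ℂ) = mob g z := by
  rw [UpperHalfPlane.coe_specialLinearGroup_apply]
  simp [mob]

theorem ofComplex_coe {z : ℂ} (hz : 0 < z.im) : ((UpperHalfPlane.ofComplex z : ℍ) : ℂ) = z := by
  rw [UpperHalfPlane.ofComplex_apply_of_im_pos hz]

theorem mob_im_pos (g : G) {z : ℂ} (hz : 0 < z.im) : 0 < (mob g z).im := by
  have := coe_smul_eq g ⟨z, hz⟩
  rw [← this]
  exact (g • (⟨z, hz⟩ : ℍ)).im_pos

theorem smul_ofComplex (g : G) {z : ℂ} (hz : 0 < z.im) :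
    g • UpperHalfPlane.ofComplex z = UpperHalfPlane.ofComplex (mob g z) := by
  apply UpperHalfPlane.ext
  rw [coe_smul_eq, ofComplex_coe hz, ofComplex_coe (mob_im_pos g hz)]

theorem mob_one (z : ℂ) : mob 1 z = z := by
  simp [mob]

theorem dmob_one (z : ℂ) : dmob 1 z = 1 := by
  simp [dmob]

theorem dmob_ne (g : G) {z : ℂ} (hz : 0 < z.im) : dmob g z ≠ 0 := by
  unfold dmob
  exact inv_ne_zero (pow_ne_zero _ (den_ne g hz))

theorem mob_mul (g h : G) {z : ℂ} (hz : 0 < z.im) : mob (g * h) z = mob g (mob h z) := by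
  have h1 := coe_smul_eq (g * h) ⟨z, hz⟩
  rw [mul_smul, coe_smul_eq, coe_smul_eq] at h1
  exact h1.symm

theorem den_mul (g h : G) {z : ℂ} (hz : 0 < z.im) :
    (((g * h) 1 0 : ℝ) : ℂ) * z + ((g * h) 1 1 : ℝ) =
      (((g 1 0 : ℝ) : ℂ) * mob h z + (g 1 1 : ℝ)) * (((h 1 0 : ℝ) : ℂ) * z + (h 1 1 : ℝ)) := by
  have hd := den_ne h hz
  unfold mob
  rw [add_mul, mul_assoc, div_mul_cancel₀ _ hd]
  simp only [Matrix.SpecialLinearGroup.coe_mul, Matrix.mul_apply, Fin.sum_univ_two]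
  push_cast
  ring

theorem dmob_mul (g h : G) {z : ℂ} (hz : 0 < z.im) :
    dmob (g * h) z = dmob g (mob h z) * dmob h z := by
  unfold dmob
  rw [den_mul g h hz, mul_pow, mul_inv]

theorem mob_inv_mob (g : G) {z : ℂ} (hz : 0 < z.im) : mob g⁻¹ (mob g z) = z := by
  rw [← mob_mul _ _ hz, inv_mul_cancel, mob_one]

theorem mob_mob_inv (g : G) {z : ℂ} (hz : 0 < z.im) : mob g (mob g⁻¹ z) = z := by
  rw [← mob_mul _ _ hz, mul_inv_cancel, mob_one]

theorem hasDerivAt_mob (g : G) {z : ℂ} (hz : 0 < z.im) : HasDerivAt (mob g) (dmob g z) z := by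
  have hd := den_ne g hz
  have h1 : HasDerivAt (fun z : ℂ => ((g 0 0 : ℝ) : ℂ) * z + (g 0 1 : ℝ)) ((g 0 0 : ℝ) : ℂ) z := by
    simpa using ((hasDerivAt_id z).const_mul ((g 0 0 : ℝ) : ℂ)).add_const ((g 0 1 : ℝ) : ℂ)
  have h2 : HasDerivAt (fun z : ℂ => ((g 1 0 : ℝ) : ℂ) * z + (g 1 1 : ℝ)) ((g 1 0 : ℝ) : ℂ) z := by
    simpa using ((hasDerivAt_id z).const_mul ((g 1 0 : ℝ) : ℂ)).add_const ((g 1 1 : ℝ) : ℂ)
  have h3 := h1.div h2 hd
  refine (h3.congr_deriv ?_)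
  unfold dmob
  rw [← one_div]
  congr 1
  have hdet : (((g 0 0 * g 1 1 - g 0 1 * g 1 0 : ℝ)) : ℂ) = 1 := by
    rw [det_eq g]
    simp
  push_cast at hdet
  linear_combination hdet

theorem hasDerivAt_dmob (g : G) {z : ℂ} (hz : 0 < z.im) : ∃ c : ℂ, HasDerivAt (dmob g) c z := by
  have hd := den_ne g hz
  have h2 : HasDerivAt (fun z : ℂ => ((g 1 0 : ℝ) : ℂ) * z + (g 1 1 : ℝ)) ((g 1 0 : ℝ) : ℂ) z := by
    simpa using ((hasDerivAt_id z).const_mul ((g 1 0 : ℝ) : ℂ)).add_const ((g 1 1 : ℝ) : ℂ)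
  exact ⟨_, (h2.pow 2).inv (pow_ne_zero _ hd)⟩

theorem im_mob (g : G) {z : ℂ} (hz : 0 < z.im) : (mob g z).im = z.im * ‖dmob g z‖ := by
  have hd := den_ne g hz
  have hdet : (((g 0 0 * g 1 1 - g 0 1 * g 1 0 : ℝ)) : ℂ) = 1 := by
    rw [det_eq g]
    simp
  have hn : ‖dmob g z‖ = (Complex.normSq (((g 1 0 : ℝ) : ℂ) * z + (g 1 1 : ℝ)))⁻¹ := by
    unfold dmob
    rw [norm_inv, norm_pow, Complex.normSq_eq_norm_sq]
  rw [hn]
  unfold mob
  rw [Complex.div_im]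
  have h3 := det_eq g
  simp only [Complex.add_im, Complex.mul_im, Complex.ofReal_re, Complex.ofReal_im, zero_mul,
    add_zero, Complex.add_re, Complex.mul_re, sub_zero]
  have hns : Complex.normSq (((g 1 0 : ℝ) : ℂ) * z + (g 1 1 : ℝ)) ≠ 0 := by
    simpa [Complex.normSq_eq_zero] using hd
  field_simp
  linear_combination h3

theorem norm_dmob (g : G) {z : ℂ} (hz : 0 < z.im) : ‖dmob g z‖ = (mob g z).im / z.im := by
  rw [im_mob g hz]
  field_simp

theorem normSq_dmob (g : G) {z : ℂ} (hz : 0 < z.im) :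
    Complex.normSq (dmob g z) = ((mob g z).im / z.im) ^ 2 := by
  rw [← norm_dmob g hz, Complex.normSq_eq_norm_sq]

end Pool.Agent.Helper24.BC
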