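import Pool.Agent.Helper24.BC.P_Aff

/-!
# Project BC, block POT: the integral of the ideal primitive over a geodesic is at most `π`
-/

open scoped MatrixGroups UpperHalfPlane
open MeasureTheory

namespace Pool.Agent.Helper24.BC

open Pool.Agent.Helper11.BC

private theorem ppi_im (τ : ℝ) : 0 < ((Real.exp τ : ℂ) * Complex.I).im := by
  simp [-Complex.ofReal_exp, Real.exp_pos]

private theorem ppi_N {c d : ℝ} (hcd : ¬ (c = 0 ∧ d = 0)) (E : ℝ) (hE : 0 < E) :
    0 < c ^ 2 * E ^ 2 + d ^ 2 := by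
  by_cases hd : d = 0
  · have hc : c ≠ 0 := fun hc => hcd ⟨hc, hd⟩
    rw [hd]
    positivity
  · positivity

private theorem ppi_cd (m : G) : ¬ (m 1 0 = 0 ∧ m 1 1 = 0) := by
  rintro ⟨h0, h1⟩
  have := det_eq m
  rw [h0, h1] at this
  simp at this

private theorem ppi_den (m : G) (E : ℝ) :
    (((m 1 0 : ℝ) : ℂ) * ((E : ℂ) * Complex.I) + (m 1 1 : ℝ)) =
      (⟨m 1 1, m 1 0 * E⟩ : ℂ) := by
  apply Complex.ext <;> simp

private theorem ppi_mob_im (m : G) (E : ℝ) (hE : 0 < E) :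
    (mob m ((E : ℂ) * Complex.I)).im = E / ((m 1 0) ^ 2 * E ^ 2 + (m 1 1) ^ 2) := by
  have hN := ppi_N (ppi_cd m) E hE
  have hdet := det_eq m
  unfold mob
  rw [ppi_den, Complex.div_im]
  simp only [Complex.add_im, Complex.mul_im, Complex.ofReal_re, Complex.ofReal_im, Complex.I_re,
    Complex.I_im, Complex.add_re, Complex.mul_re, Complex.normSq_apply]
  have hN' : m 1 1 * m 1 1 + m 1 0 * E * (m 1 0 * E) ≠ 0 := by
    have : m 1 1 * m 1 1 + m 1 0 * E * (m 1 0 * E) = (m 1 0) ^ 2 * E ^ 2 + (m 1 1) ^ 2 := by ring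
    rw [this]
    exact hN.ne'
  have hN'' : (m 1 0) ^ 2 * E ^ 2 + (m 1 1) ^ 2 ≠ 0 := hN.ne'
  rw [← sub_div, div_eq_div_iff hN' hN'']
  linear_combination (E * (m 1 0 ^ 2 * E ^ 2 + m 1 1 ^ 2)) * hdet

private theorem ppi_re (m : G) (E : ℝ) (hE : 0 < E) :
    (dmob m ((E : ℂ) * Complex.I) * ((E : ℂ) * Complex.I)).re =
      2 * m 1 0 * m 1 1 * E ^ 2 / ((m 1 0) ^ 2 * E ^ 2 + (m 1 1) ^ 2) ^ 2 := by
  have hN := ppi_N (ppi_cd m) E hE
  unfold dmob
  rw [ppi_den, inv_mul_eq_div, Complex.div_re]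
  have h2 : (⟨m 1 1, m 1 0 * E⟩ : ℂ) ^ 2 =
      ⟨m 1 1 ^ 2 - (m 1 0 * E) ^ 2, 2 * m 1 1 * (m 1 0 * E)⟩ := by
    apply Complex.ext
    · simp [sq]
    · simp [sq]
      ring
  rw [h2]
  simp only [Complex.mul_im, Complex.ofReal_re, Complex.ofReal_im, Complex.I_re,
    Complex.I_im, Complex.mul_re, Complex.normSq_apply]
  have h3 : (m 1 1 ^ 2 - (m 1 0 * E) ^ 2) * (m 1 1 ^ 2 - (m 1 0 * E) ^ 2) +
      2 * m 1 1 * (m 1 0 * E) * (2 * m 1 1 * (m 1 0 * E)) =
      ((m 1 0) ^ 2 * E ^ 2 + (m 1 1) ^ 2) ^ 2 := by ring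
  rw [h3, ← add_div]
  congr 1
  ring

/-- With `c = m 1 0`, `d = m 1 1`, `z = i e^τ`: `Im (mob m z) = e^τ / (c² e^{2τ} + d²)` and
`Re (dmob m z * z) = 2 c d e^{2τ} / (c² e^{2τ} + d²)²`, so that the quotient is
`2 |c d| e^τ / (c² e^{2τ} + d²)`, the derivative of `2 arctan (|c| e^τ / |d|)` (for `d ≠ 0`; it is
`0` for `d = 0`).  Antiderivative: `arc m τ`. -/
theorem exists_arc (m : G) : ∃ A : ℝ → ℝ, (∀ τ, |A τ| ≤ Real.pi / 2) ∧
    (∀ τ, 0 ≤ A τ) ∧
    ∀ τ : ℝ, HasDerivAt (fun τ => 2 * A τ)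
      (|(dmob m (Real.exp τ * Complex.I) * (Real.exp τ * Complex.I)).re| /
        (mob m (Real.exp τ * Complex.I)).im) τ := by
  refine ⟨fun τ => Real.arctan (|m 1 0| * Real.exp τ / |m 1 1|), fun τ => ?_, fun τ => ?_,
    fun τ => ?_⟩
  · rw [abs_le]
    exact ⟨(Real.neg_pi_div_two_lt_arctan _).le, (Real.arctan_lt_pi_div_two _).le⟩
  · exact Real.arctan_nonneg.2 (by positivity)
  · have hE := Real.exp_pos τ
    have hN := ppi_N (ppi_cd m) _ hE
    rw [ppi_re m _ hE, ppi_mob_im m _ hE]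
    have h1 : HasDerivAt (fun τ : ℝ => |m 1 0| * Real.exp τ / |m 1 1|)
        (|m 1 0| * Real.exp τ / |m 1 1|) τ :=
      ((Real.hasDerivAt_exp τ).const_mul _).div_const _
    have h2 := (h1.arctan).const_mul 2
    refine h2.congr_deriv ?_
    have habs : |2 * m 1 0 * m 1 1 * Real.exp τ ^ 2 /
        ((m 1 0) ^ 2 * Real.exp τ ^ 2 + (m 1 1) ^ 2) ^ 2| =
        2 * |m 1 0| * |m 1 1| * Real.exp τ ^ 2 /
        ((m 1 0) ^ 2 * Real.exp τ ^ 2 + (m 1 1) ^ 2) ^ 2 := by
      rw [abs_div, abs_mul, abs_mul, abs_mul, abs_of_pos (show (0 : ℝ) < 2 by norm_num),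
        abs_of_pos (pow_pos hE 2), abs_of_pos (pow_pos hN 2)]
    rw [habs]
    by_cases hd : m 1 1 = 0
    · rw [hd]
      simp
    · have hd' : 0 < |m 1 1| := abs_pos.2 hd
      have e0 : (m 1 0) ^ 2 = |m 1 0| ^ 2 := (sq_abs _).symm
      have e1 : (m 1 1) ^ 2 = |m 1 1| ^ 2 := (sq_abs _).symm
      rw [e0, e1] at hN ⊢
      have hN2 : (1 : ℝ) + (|m 1 0| * Real.exp τ / |m 1 1|) ^ 2 ≠ 0 := by positivity
      field_simp
      ring

/-- For `m = h⁻¹ g`, `u = pullw h w`, `u' = pullw h w'`: by `pull_mul`,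
`pull g (Lam h w) = pull m (lam0 u)` on the upper half plane, so that the integrand of the difference
of the two integrals at `τ` is `(P - P') * Re (dmob m z * z)`, `z = i e^τ`, where
`P - P' = ∫_{t > 0} (u - u') (mob m z + i t) dt` (`lam0_integrable`, `integral_sub`) is bounded by
`δ / Im (mob m z)` (`lam0_bd` for `u - u'`, `|u - u'| ≤ δ / y²` by `pullw_bd`).  Hence it is bounded by
`δ` times the derivative of `2 A`, `A` from `exists_arc`, and the integral from `0` to `T` is at most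
`2 δ (A T - A 0) ≤ π δ` (`0 ≤ A ≤ π / 2`).  The forms `lam0 u`, `lam0 u'` are continuous on the upper
half plane (`lam0_prim`, `IsPrim.pull`, `IsPrim.continuousOn`), so that the two integrals may be
subtracted. -/
theorem vInt_Lam_sub (g h : G) {w w' : ℂ → ℝ} {C δ T : ℝ} (hT : 0 ≤ T)
    (hw : Dens0 (pullw h w) C) (hw' : Dens0 (pullw h w') C)
    (hδ : ∀ z : ℂ, 0 < z.im → |w z - w' z| ≤ δ / z.im ^ 2) :
    |vInt (pull g (Lam h w)) T - vInt (pull g (Lam h w')) T| ≤ Real.pi * δ := by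
  obtain ⟨A, hA1, hA0, hAd⟩ := exists_arc (h⁻¹ * g)
  have hδ0 : 0 ≤ δ := by
    have h1 := hδ Complex.I (by simp)
    simp only [Complex.I_im, one_pow, div_one] at h1
    exact (abs_nonneg _).trans h1
  have hcz : Continuous (fun τ : ℝ => ((Real.exp τ : ℂ) * Complex.I)) := by
    fun_prop
  have hform : ∀ (v : ℂ → ℝ) (τ : ℝ), pull g (Lam h v) (Real.exp τ * Complex.I) =
      pull (h⁻¹ * g) (lam0 (pullw h v)) (Real.exp τ * Complex.I) := by
    intro v τ
    unfold Lam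
    rw [pull_mul h⁻¹ g _ (ppi_im τ)]
  have hcont : ∀ v : ℂ → ℝ, Dens0 (pullw h v) C → Continuous (fun τ : ℝ =>
      pull g (Lam h v) (Real.exp τ * Complex.I) (Real.exp τ * Complex.I)) := by
    intro v hv
    have h1 := ((lam0_prim hv).pull (h⁻¹ * g)).continuousOn
    have h2 : Continuous (fun τ : ℝ =>
        pull (h⁻¹ * g) (lam0 (pullw h v)) (Real.exp τ * Complex.I)) :=
      h1.comp_continuous hcz (fun τ => ppi_im τ)
    have h3 : (fun τ : ℝ => pull g (Lam h v) (Real.exp τ * Complex.I) (Real.exp τ * Complex.I)) =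
        fun τ : ℝ => pull (h⁻¹ * g) (lam0 (pullw h v)) (Real.exp τ * Complex.I)
          (Real.exp τ * Complex.I) := by
      funext τ
      rw [hform]
    rw [h3]
    exact h2.clm_apply hcz
  have hcD : Continuous (fun τ : ℝ =>
      |(dmob (h⁻¹ * g) (Real.exp τ * Complex.I) * (Real.exp τ * Complex.I)).re| /
        (mob (h⁻¹ * g) (Real.exp τ * Complex.I)).im) := by
    have h1 : ContinuousOn (mob (h⁻¹ * g)) {z : ℂ | 0 < z.im} := fun z hz =>
      (hasDerivAt_mob _ hz).continuousAt.continuousWithinAt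
    have h2 : ContinuousOn (dmob (h⁻¹ * g)) {z : ℂ | 0 < z.im} := fun z hz => by
      obtain ⟨c, hc⟩ := hasDerivAt_dmob (h⁻¹ * g) hz
      exact hc.continuousAt.continuousWithinAt
    have h3 : Continuous (fun τ : ℝ => mob (h⁻¹ * g) (Real.exp τ * Complex.I)) :=
      h1.comp_continuous hcz (fun τ => ppi_im τ)
    have h4 : Continuous (fun τ : ℝ => dmob (h⁻¹ * g) (Real.exp τ * Complex.I)) :=
      h2.comp_continuous hcz (fun τ => ppi_im τ)
    refine ((Complex.continuous_re.comp (h4.mul hcz)).abs).div (Complex.continuous_im.comp h3) ?_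
    intro τ
    exact (mob_im_pos _ (ppi_im τ)).ne'
  have hbd : ∀ τ : ℝ, |pull g (Lam h w) (Real.exp τ * Complex.I) (Real.exp τ * Complex.I) -
      pull g (Lam h w') (Real.exp τ * Complex.I) (Real.exp τ * Complex.I)| ≤
      δ * (|(dmob (h⁻¹ * g) (Real.exp τ * Complex.I) * (Real.exp τ * Complex.I)).re| /
        (mob (h⁻¹ * g) (Real.exp τ * Complex.I)).im) := by
    intro τ
    have hm := mob_im_pos (h⁻¹ * g) (ppi_im τ)
    rw [hform, hform, pull_apply, pull_apply]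
    simp only [lam0, smul_apply, Complex.reCLM_apply, smul_eq_mul]
    rw [← sub_mul, abs_mul, ← integral_sub (lam0_integrable hw hm) (lam0_integrable hw' hm)]
    have h1 : ∀ z : ℂ, 0 < z.im → |(fun z => pullw h w z - pullw h w' z) z| ≤ δ / z.im ^ 2 := by
      intro z hz
      have h2 := pullw_bd h (w := fun z => w z - w' z) hδ hz
      have h3 : pullw h (fun z => w z - w' z) z = pullw h w z - pullw h w' z := by
        simp [pullw, sub_mul]
      rw [h3] at h2
      exact h2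
    have h2 := lam0_bd h1 hm
    refine (mul_le_mul_of_nonneg_right h2 (abs_nonneg _)).trans (le_of_eq ?_)
    ring
  have hI : IntervalIntegrable (fun τ : ℝ =>
      |(dmob (h⁻¹ * g) (Real.exp τ * Complex.I) * (Real.exp τ * Complex.I)).re| /
        (mob (h⁻¹ * g) (Real.exp τ * Complex.I)).im) volume 0 T := hcD.intervalIntegrable _ _
  have hInt := intervalIntegral.integral_eq_sub_of_hasDerivAt (fun τ _ => hAd τ) hI
  unfold vInt
  rw [← intervalIntegral.integral_sub ((hcont w hw).intervalIntegrable _ _)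
    ((hcont w' hw').intervalIntegrable _ _)]
  have hfin := intervalIntegral.norm_integral_le_of_norm_le hT
    (Filter.Eventually.of_forall (fun τ _ => (by
      rw [Real.norm_eq_abs]
      exact hbd τ))) (hI.const_mul δ)
  rw [Real.norm_eq_abs, intervalIntegral.integral_const_mul, hInt] at hfin
  refine hfin.trans ?_
  have h5 := hA1 T
  have h6 := hA0 0
  rw [abs_le] at h5
  nlinarith [h5.2]

end Pool.Agent.Helper24.BC
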