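import Pool.Agent.Helper24.BC.P_KerInt

/-!
# Project BC, block POT: the kernel as a smooth map into `L¹`

`ker z w = (4/π) y² |ψ(z)(w)|²` with `ψ(z)(w) = v / (z - w̄)²`, and `z ↦ ψ(z)` is a holomorphic map into
`L²`.
-/

open scoped MatrixGroups UpperHalfPlane
open MeasureTheory

namespace Pool.Agent.Helper24.BC

open Pool.Agent.Helper11.BC

/-- The function `v / (z - w̄)²` of `w = u + i v`. -/
noncomputable def psi0 (z : ℂ) (w : ℍ) : ℂ := (w.im : ℂ) / (z - (starRingEnd ℂ) (w : ℂ)) ^ 2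

private theorem Psi_le {z : ℂ} (hz : 0 < z.im) (w : ℍ) :
    z.im ≤ ‖z - (starRingEnd ℂ) (w : ℂ)‖ := by
  have h1 : (z - (starRingEnd ℂ) (w : ℂ)).im = z.im + w.im := by
    simp [Complex.sub_im, Complex.conj_im, UpperHalfPlane.coe_im]
  have h2 := Complex.abs_im_le_norm (z - (starRingEnd ℂ) (w : ℂ))
  rw [h1] at h2
  have hw := w.im_pos
  rw [abs_of_pos (by linarith)] at h2
  linarith

private theorem Psi_ne {z : ℂ} (hz : 0 < z.im) (w : ℍ) :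
    z - (starRingEnd ℂ) (w : ℂ) ≠ 0 := by
  rw [← norm_pos_iff]
  exact lt_of_lt_of_le hz (Psi_le hz w)

private theorem Psi_cont0 {z : ℂ} (hz : 0 < z.im) : Continuous (psi0 z) := by
  unfold psi0
  refine Continuous.div ?_ ?_ ?_
  · exact Complex.continuous_ofReal.comp UpperHalfPlane.continuous_im
  · exact (continuous_const.sub (Complex.continuous_conj.comp UpperHalfPlane.continuous_coe)).pow 2
  · intro w
    exact pow_ne_zero 2 (Psi_ne hz w)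

theorem normSq_psi0 (z w : ℍ) : ‖psi0 z w‖ ^ 2 = Real.pi / (4 * z.im ^ 2) * ker z w := by
  have hz := z.im_pos
  have hpi := Real.pi_pos
  have h0 : 0 < ‖(z : ℂ) - (starRingEnd ℂ) (w : ℂ)‖ :=
    lt_of_lt_of_le hz (Psi_le (z := (z : ℂ)) (by simpa using hz) w)
  rw [ker_eq, psi0, norm_div, norm_pow, Complex.norm_real, Real.norm_of_nonneg w.im_pos.le]
  field_simp

theorem memLp_psi0 {z : ℂ} (hz : 0 < z.im) : MemLp (psi0 z) 2 (volume : Measure ℍ) := by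
  rw [memLp_two_iff_integrable_sq_norm (Psi_cont0 hz).aestronglyMeasurable]
  have h : (fun w : ℍ => ‖psi0 z w‖ ^ 2) =
      fun w : ℍ => Real.pi / (4 * z.im ^ 2) * ker (⟨z, hz⟩ : ℍ) w := by
    funext w
    exact normSq_psi0 (⟨z, hz⟩ : ℍ) w
  rw [h]
  exact (integrable_ker _).const_mul _

/-- The derivative of `psi0` in the first variable. -/
private noncomputable def psi1 (z : ℂ) (w : ℍ) : ℂ :=
  -(2 * (w.im : ℂ)) / (z - (starRingEnd ℂ) (w : ℂ)) ^ 3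

private theorem Psi_cont1 {z : ℂ} (hz : 0 < z.im) : Continuous (psi1 z) := by
  unfold psi1
  refine Continuous.div ?_ ?_ ?_
  · exact (continuous_const.mul (Complex.continuous_ofReal.comp UpperHalfPlane.continuous_im)).neg
  · exact (continuous_const.sub (Complex.continuous_conj.comp UpperHalfPlane.continuous_coe)).pow 3
  · intro w
    exact pow_ne_zero 3 (Psi_ne hz w)

private theorem Psi_memLp1 {z : ℂ} (hz : 0 < z.im) :
    MemLp (psi1 z) 2 (volume : Measure ℍ) := by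
  refine MemLp.of_le_mul (memLp_psi0 hz) (Psi_cont1 hz).aestronglyMeasurable
    (c := 2 / z.im) (Filter.Eventually.of_forall fun w => ?_)
  have h1 := Psi_le hz w
  have h2 : 0 < ‖z - (starRingEnd ℂ) (w : ℂ)‖ := lt_of_lt_of_le hz h1
  have hw := w.im_pos
  rw [psi1, psi0, norm_div, norm_div, norm_pow, norm_pow, norm_neg, norm_mul, Complex.norm_real,
    Real.norm_of_nonneg hw.le, Complex.norm_two]
  rw [div_mul_div_comm, div_le_div_iff₀ (by positivity) (by positivity)]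
  have h3 : z.im * ‖z - (starRingEnd ℂ) (w : ℂ)‖ ^ 2 ≤ ‖z - (starRingEnd ℂ) (w : ℂ)‖ ^ 3 := by
    calc z.im * ‖z - (starRingEnd ℂ) (w : ℂ)‖ ^ 2
        ≤ ‖z - (starRingEnd ℂ) (w : ℂ)‖ * ‖z - (starRingEnd ℂ) (w : ℂ)‖ ^ 2 :=
          mul_le_mul_of_nonneg_right h1 (by positivity)
      _ = ‖z - (starRingEnd ℂ) (w : ℂ)‖ ^ 3 := by ring
  exact mul_le_mul_of_nonneg_left h3 (by positivity)

private theorem Psi_alg (a h : ℂ) (v : ℝ) (y : ℝ) (hy : 0 < y) (hv : 0 < v) (ha : y ≤ ‖a‖)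
    (hh : ‖h‖ ≤ y / 2) :
    ‖(v : ℂ) / (a + h) ^ 2 - (v : ℂ) / a ^ 2 - h * (-(2 * (v : ℂ)) / a ^ 3)‖ ≤
      16 / y ^ 2 * ‖h‖ ^ 2 * ‖(v : ℂ) / a ^ 2‖ := by
  have ha0 : 0 < ‖a‖ := lt_of_lt_of_le hy ha
  have hane : a ≠ 0 := norm_pos_iff.mp ha0
  have hb : ‖a‖ / 2 ≤ ‖a + h‖ := by
    have h1 : ‖a‖ ≤ ‖a + h‖ + ‖h‖ := by
      calc ‖a‖ = ‖(a + h) - h‖ := by rw [add_sub_cancel_right]
        _ ≤ ‖a + h‖ + ‖h‖ := norm_sub_le _ _
    linarith
  have hb0 : 0 < ‖a + h‖ := by linarith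
  have hbne : a + h ≠ 0 := norm_pos_iff.mp hb0
  have e : (v : ℂ) / (a + h) ^ 2 - (v : ℂ) / a ^ 2 - h * (-(2 * (v : ℂ)) / a ^ 3) =
      (v : ℂ) * h ^ 2 * (3 * a + 2 * h) / (a ^ 3 * (a + h) ^ 2) := by
    field_simp
    ring
  have h3 : ‖3 * a + 2 * h‖ ≤ 4 * ‖a‖ := by
    calc ‖3 * a + 2 * h‖ ≤ ‖3 * a‖ + ‖2 * h‖ := norm_add_le _ _
      _ = 3 * ‖a‖ + 2 * ‖h‖ := by rw [norm_mul, norm_mul]; norm_num
      _ ≤ 4 * ‖a‖ := by linarith
  rw [e, norm_div, norm_mul, norm_mul, norm_mul, norm_pow, norm_pow, norm_pow, norm_div, norm_pow,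
    Complex.norm_real, Real.norm_of_nonneg hv.le]
  have h4 : v * ‖h‖ ^ 2 * ‖3 * a + 2 * h‖ ≤ v * ‖h‖ ^ 2 * (4 * ‖a‖) :=
    mul_le_mul_of_nonneg_left h3 (by positivity)
  have h5 : (‖a‖ / 2) ^ 2 ≤ ‖a + h‖ ^ 2 := by gcongr
  calc v * ‖h‖ ^ 2 * ‖3 * a + 2 * h‖ / (‖a‖ ^ 3 * ‖a + h‖ ^ 2)
      ≤ v * ‖h‖ ^ 2 * (4 * ‖a‖) / (‖a‖ ^ 3 * (‖a‖ / 2) ^ 2) := by
        gcongr
    _ = 16 / ‖a‖ ^ 2 * ‖h‖ ^ 2 * (v / ‖a‖ ^ 2) := by
        field_simp
        ring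
    _ ≤ 16 / y ^ 2 * ‖h‖ ^ 2 * (v / ‖a‖ ^ 2) := by
        gcongr

open Classical in
/-- `psi0 z` as an element of `L²` (`0` outside of the upper half plane). -/
noncomputable def psi (z : ℂ) : Lp ℂ 2 (volume : Measure ℍ) :=
  if hz : 0 < z.im then (memLp_psi0 hz).toLp (psi0 z) else 0

/-- The complex derivative at `z` is `ψ₁(z)(w) = - 2 v / (z - w̄)³` (in `L²` since
`|ψ₁| ≤ (2 / y) |ψ|`).  With `a = z - w̄`, `|a| ≥ y + v ≥ y`:
`1/(a+h)² - 1/a² + 2h/a³ = h² (3a + 2h) / (a³ (a+h)²)`, which is at most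
`16 |h|² / |a|⁴ ≤ (16 / y²) |h|² / |a|²` for `|h| ≤ y / 2`.  Hence
`‖ψ(z+h) - ψ(z) - h ψ₁(z)‖ ≤ (16 / y²) |h|² ‖ψ(z)‖` (`Lp.norm_le_mul_norm_of_ae_le_mul`). -/
theorem differentiableAt_psi {z : ℂ} (hz : 0 < z.im) : DifferentiableAt ℂ psi z := by
  suffices H : HasDerivAt psi ((Psi_memLp1 hz).toLp (psi1 z)) z from H.differentiableAt
  rw [hasDerivAt_iff_isLittleO_nhds_zero]
  have hO : (fun h : ℂ => psi (z + h) - psi z - h • (Psi_memLp1 hz).toLp (psi1 z)) =O[nhds 0]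
      fun h : ℂ => ‖h‖ ^ 2 := by
    refine Asymptotics.IsBigO.of_bound (16 / z.im ^ 2 * ‖psi z‖) ?_
    have hev : ∀ᶠ h : ℂ in nhds 0, ‖h‖ ≤ z.im / 2 := by
      have : Metric.closedBall (0 : ℂ) (z.im / 2) ∈ nhds (0 : ℂ) :=
        Metric.closedBall_mem_nhds _ (by positivity)
      filter_upwards [this] with h hh
      simpa using hh
    filter_upwards [hev] with h hh
    have hzh : 0 < (z + h).im := by
      have h1 := Complex.abs_im_le_norm h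
      have h2 := neg_abs_le h.im
      rw [Complex.add_im]
      linarith
    have e1 : psi (z + h) = (memLp_psi0 hzh).toLp (psi0 (z + h)) := by
      rw [psi, dif_pos hzh]
    have e2 : psi z = (memLp_psi0 hz).toLp (psi0 z) := by
      rw [psi, dif_pos hz]
    have key : ‖psi (z + h) - psi z - h • (Psi_memLp1 hz).toLp (psi1 z)‖ ≤
        (16 / z.im ^ 2 * ‖h‖ ^ 2) * ‖psi z‖ := by
      rw [e1, e2]
      refine Lp.norm_le_mul_norm_of_ae_le_mul ?_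
      have a1 := MemLp.coeFn_toLp (memLp_psi0 hzh)
      have a2 := MemLp.coeFn_toLp (memLp_psi0 hz)
      have a3 := MemLp.coeFn_toLp (Psi_memLp1 hz)
      have a4 := Lp.coeFn_sub ((memLp_psi0 hzh).toLp (psi0 (z + h)) -
        (memLp_psi0 hz).toLp (psi0 z)) (h • (Psi_memLp1 hz).toLp (psi1 z))
      have a5 := Lp.coeFn_sub ((memLp_psi0 hzh).toLp (psi0 (z + h)))
        ((memLp_psi0 hz).toLp (psi0 z))
      have a6 := Lp.coeFn_smul h ((Psi_memLp1 hz).toLp (psi1 z))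
      filter_upwards [a1, a2, a3, a4, a5, a6] with w w1 w2 w3 w4 w5 w6
      rw [w4, Pi.sub_apply, w5, Pi.sub_apply, w6, Pi.smul_apply, w1, w2, w3, smul_eq_mul]
      have := Psi_alg (z - (starRingEnd ℂ) (w : ℂ)) h w.im z.im hz w.im_pos (Psi_le hz w) hh
      have e3 : z + h - (starRingEnd ℂ) (w : ℂ) = z - (starRingEnd ℂ) (w : ℂ) + h := by ring
      rw [psi0, psi0, psi1, e3]
      exact this
    rw [Real.norm_of_nonneg (by positivity)]
    calc _ ≤ (16 / z.im ^ 2 * ‖h‖ ^ 2) * ‖psi z‖ := key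
      _ = 16 / z.im ^ 2 * ‖psi z‖ * ‖h‖ ^ 2 := by ring
  exact hO.trans_isLittleO (Asymptotics.isLittleO_norm_pow_id one_lt_two)

end Pool.Agent.Helper24.BC
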