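import Pool.Agent.Helper24.BC.P_Mob

/-!
# Project BC, block POT: pull-backs, primitives, potentials
-/

open scoped MatrixGroups UpperHalfPlane
open MeasureTheory

namespace Pool.Agent.Helper24.BC

open Pool.Agent.Helper11.BC

theorem pull_apply (g : G) (a : Form) (z v : ℂ) : pull g a z v = a (mob g z) (dmob g z * v) := by
  simp [pull]

theorem pull_mul (g h : G) (a : Form) {z : ℂ} (hz : 0 < z.im) :
    pull (g * h) a z = pull h (pull g a) z := by
  ext1 v
  rw [pull_apply, pull_apply, pull_apply, mob_mul g h hz, dmob_mul g h hz, mul_assoc]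

theorem pull_one (a : Form) (z : ℂ) : pull 1 a z = a z := by
  ext1 v
  rw [pull_apply, mob_one, dmob_one, one_mul]

/-- `pull g` depends only on the values in the upper half plane. -/
theorem pull_congr (g : G) {a b : Form} (h : ∀ z : ℂ, 0 < z.im → a z = b z) {z : ℂ}
    (hz : 0 < z.im) : pull g a z = pull g b z := by
  ext1 v
  rw [pull_apply, pull_apply, h _ (mob_im_pos g hz)]

theorem pull_sub (g : G) (a b : Form) (z : ℂ) :
    pull g (fun z => a z - b z) z = pull g a z - pull g b z := by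
  ext1 v
  simp [pull_apply]

theorem pull_smul (g : G) (c : ℝ) (a : Form) (z : ℂ) :
    pull g (fun z => c • a z) z = c • pull g a z := by
  ext1 v
  simp [pull_apply]

theorem pullw_mul (g h : G) (w : ℂ → ℝ) {z : ℂ} (hz : 0 < z.im) :
    pullw (g * h) w z = pullw h (pullw g w) z := by
  unfold pullw
  rw [mob_mul g h hz, dmob_mul g h hz, Complex.normSq_mul, mul_assoc]

theorem pullw_one (w : ℂ → ℝ) (z : ℂ) : pullw 1 w z = w z := by
  simp [pullw, mob_one, dmob_one]

theorem pullw_congr (g : G) {a b : ℂ → ℝ} (h : ∀ z : ℂ, 0 < z.im → a z = b z) {z : ℂ}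
    (hz : 0 < z.im) : pullw g a z = pullw g b z := by
  unfold pullw
  rw [h _ (mob_im_pos g hz)]

theorem pullw_bd (g : G) {w : ℂ → ℝ} {C : ℝ} (h : ∀ z : ℂ, 0 < z.im → |w z| ≤ C / z.im ^ 2)
    {z : ℂ} (hz : 0 < z.im) : |pullw g w z| ≤ C / z.im ^ 2 := by
  unfold pullw
  rw [abs_mul, abs_of_nonneg (Complex.normSq_nonneg _), normSq_dmob g hz]
  have h1 := h _ (mob_im_pos g hz)
  have h2 := mob_im_pos g hz
  calc |w (mob g z)| * ((mob g z).im / z.im) ^ 2
      ≤ C / (mob g z).im ^ 2 * ((mob g z).im / z.im) ^ 2 := by gcongr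
    _ = C / z.im ^ 2 := by field_simp

/-- Congruence of primitives. -/
theorem IsPrim.congr {a b : Form} {w w' : ℂ → ℝ} (h : IsPrim a w)
    (hab : ∀ z : ℂ, 0 < z.im → a z = b z) (hw : ∀ z : ℂ, 0 < z.im → w z = w' z) :
    IsPrim b w' := by
  intro z hz
  obtain ⟨a', h1, h2⟩ := h z hz
  refine ⟨a', h1.congr_of_eventuallyEq ?_, ?_⟩
  · have : ∀ᶠ y : ℂ in nhds z, 0 < y.im :=
      (isOpen_lt continuous_const Complex.continuous_im).mem_nhds hz
    filter_upwards [this] with y hy
    exact (hab y hy).symm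
  · intro u v
    rw [h2, hw z hz]

theorem IsPrim.sub {a b : Form} {w w' : ℂ → ℝ} (h : IsPrim a w) (h' : IsPrim b w') :
    IsPrim (fun z => a z - b z) (fun z => w z - w' z) := by
  intro z hz
  obtain ⟨a', h1, h2⟩ := h z hz
  obtain ⟨b', h3, h4⟩ := h' z hz
  refine ⟨a' - b', h1.sub h3, ?_⟩
  intro u v
  simp only [sub_apply]
  linear_combination h2 u v - h4 u v

theorem IsPrim.smul {a : Form} {w : ℂ → ℝ} (c : ℝ) (h : IsPrim a w) :
    IsPrim (fun z => c • a z) (fun z => c * w z) := by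
  intro z hz
  obtain ⟨a', h1, h2⟩ := h z hz
  refine ⟨c • a', h1.const_smul c, ?_⟩
  intro u v
  simp only [smul_apply, smul_eq_mul]
  linear_combination c * h2 u v

theorem IsPrim.sum {ι : Type*} (s : Finset ι) {a : ι → Form} {w : ι → ℂ → ℝ}
    (h : ∀ i ∈ s, IsPrim (a i) (w i)) :
    IsPrim (fun z => ∑ i ∈ s, a i z) (fun z => ∑ i ∈ s, w i z) := by
  intro z hz
  have h' : ∀ i : s, ∃ a' : ℂ →L[ℝ] ℂ →L[ℝ] ℝ, HasFDerivAt (a i.1) a' z ∧
    ∀ u v : ℂ, a' u v - a' v u = w i.1 z * (u.re * v.im - u.im * v.re) := fun i => h i.1 i.2 z hz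
  choose a' ha using h'
  refine ⟨∑ i : s, a' i, ?_, ?_⟩
  · have := HasFDerivAt.fun_sum (u := (Finset.univ : Finset s)) (fun i _ => (ha i).1)
    refine this.congr_of_eventuallyEq ?_
    filter_upwards with y
    exact (Finset.sum_coe_sort s (fun i => a i y)).symm
  · intro u v
    simp only [sum_apply, ← Finset.sum_sub_distrib]
    rw [Finset.sum_congr rfl (fun i _ => (ha i).2 u v), ← Finset.sum_mul,
      Finset.sum_coe_sort s (fun i => w i z)]

/-- Pull-back of a primitive: `d (g^* a) = g^* (d a)`. -/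
theorem IsPrim.pull {a : Form} {w : ℂ → ℝ} (g : G) (h : IsPrim a w) :
    IsPrim (pull g a) (pullw g w) := by
  intro z hz
  obtain ⟨a', h1, h2⟩ := h _ (mob_im_pos g hz)
  obtain ⟨c, hc⟩ := hasDerivAt_dmob g hz
  have hm : HasFDerivAt (mob g) (ContinuousLinearMap.mul ℝ ℂ (dmob g z)) z := by
    have := (hasDerivAt_mob g hz).hasFDerivAt.restrictScalars ℝ
    refine this.congr_fderiv ?_
    ext1 v
    simp [mul_comm]
  have hd : HasFDerivAt (dmob g) (ContinuousLinearMap.mul ℝ ℂ c) z := by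
    have := hc.hasFDerivAt.restrictScalars ℝ
    refine this.congr_fderiv ?_
    ext1 v
    simp [mul_comm]
  have h3 : HasFDerivAt (fun y => a (mob g y)) (a'.comp (ContinuousLinearMap.mul ℝ ℂ (dmob g z))) z :=
    h1.comp z hm
  have h4 : HasFDerivAt (fun y => ContinuousLinearMap.mul ℝ ℂ (dmob g y))
      ((ContinuousLinearMap.mul ℝ ℂ).comp (ContinuousLinearMap.mul ℝ ℂ c)) z :=
    (ContinuousLinearMap.mul ℝ ℂ).hasFDerivAt.comp z hd
  have h5 := h3.clm_comp h4
  refine ⟨_, h5, ?_⟩
  intro u v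
  simp only [add_apply, ContinuousLinearMap.comp_apply,
    ContinuousLinearMap.compL_apply, ContinuousLinearMap.flip_apply,
    ContinuousLinearMap.mul_apply']
  have e1 : c * u * v = c * v * u := by ring
  rw [e1]
  have h6 := h2 (dmob g z * u) (dmob g z * v)
  have h7 : (dmob g z * u).re * (dmob g z * v).im - (dmob g z * u).im * (dmob g z * v).re =
      Complex.normSq (dmob g z) * (u.re * v.im - u.im * v.re) := by
    simp only [Complex.mul_re, Complex.mul_im, Complex.normSq_apply]
    ring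
  rw [h7] at h6
  simp only [pullw]
  linear_combination h6

/-- The upper half plane is convex. -/
theorem convex_uhp : Convex ℝ {z : ℂ | 0 < z.im} := convex_halfSpace_im_gt 0

theorem isOpen_uhp : IsOpen {z : ℂ | 0 < z.im} :=
  isOpen_lt continuous_const Complex.continuous_im

/-- A closed 1-form on the upper half plane has a potential. -/
theorem exists_potential {a : Form} (h : IsPrim a (fun _ => 0)) :
    ∃ U : ℂ → ℝ, ∀ z : ℂ, 0 < z.im → HasFDerivAt U (a z) z := by
  have := convex_uhp.exists_forall_hasFDerivAt_of_fderiv_symmetric isOpen_uhp (ω := a) ?_ ?_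
  · exact this
  · intro z hz
    obtain ⟨a', h1, -⟩ := h z hz
    exact h1.differentiableAt.differentiableWithinAt
  · intro z hz u v
    obtain ⟨a', h1, h2⟩ := h z hz
    rw [h1.fderiv]
    have := h2 u v
    simp only [zero_mul] at this
    linarith

/-- The potential is unique up to a constant. -/
theorem potential_unique {a : Form} {U U' : ℂ → ℝ}
    (h : ∀ z : ℂ, 0 < z.im → HasFDerivAt U (a z) z)
    (h' : ∀ z : ℂ, 0 < z.im → HasFDerivAt U' (a z) z) {s t : ℂ} (hs : 0 < s.im) (ht : 0 < t.im) :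
    U t - U s = U' t - U' s := by
  have h1 : ∀ z ∈ {z : ℂ | 0 < z.im}, HasFDerivAt (fun z => U z - U' z) (0 : ℂ →L[ℝ] ℝ) z := by
    intro z hz
    have := (h z hz).sub (h' z hz)
    rw [sub_self] at this
    exact this
  have h2 := convex_uhp.is_const_of_fderivWithin_eq_zero (𝕜 := ℝ) (f := fun z => U z - U' z)
    (fun z hz => (h1 z hz).differentiableAt.differentiableWithinAt)
    (fun z hz => by
      rw [fderivWithin_of_isOpen isOpen_uhp hz]
      exact (h1 z hz).fderiv) hs ht
  linarith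

theorem IsPrim.continuousOn {a : Form} {w : ℂ → ℝ} (h : IsPrim a w) :
    ContinuousOn a {z : ℂ | 0 < z.im} := by
  intro z hz
  obtain ⟨a', h1, -⟩ := h z hz
  exact h1.continuousAt.continuousWithinAt

end Pool.Agent.Helper24.BC
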