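import Pool.Agent.Helper24.BC.P_Kap

/-!
# Project BC, block POT: the group acts by isometries on `L¹`
-/

open scoped MatrixGroups UpperHalfPlane
open MeasureTheory

namespace Pool.Agent.Helper24.BC

open Pool.Agent.Helper11.BC

/-- From the instance `SMulInvariantMeasure (GL (Fin 2) ℝ) ℍ volume`. -/
theorem measurePreserving_smulG (g : G) :
    MeasurePreserving (fun w : ℍ => g • w) (volume : Measure ℍ) volume :=
  measurePreserving_smul (Matrix.SpecialLinearGroup.mapGL ℝ g) (volume : Measure ℍ)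

/-- `(rho g φ) (w) = φ (g⁻¹ • w)`. -/
noncomputable def rho (g : G) : V1 →L[ℝ] V1 :=
  (Lp.compMeasurePreservingₗᵢ ℝ (fun w : ℍ => g⁻¹ • w)
    (measurePreserving_smulG g⁻¹)).toContinuousLinearMap

theorem rho_ae (g : G) (φ : V1) : (rho g φ : ℍ → ℝ) =ᵐ[volume] fun w => φ (g⁻¹ • w) :=
  Lp.coeFn_compMeasurePreserving φ (measurePreserving_smulG g⁻¹)

theorem norm_rho (g : G) (φ : V1) : ‖rho g φ‖ = ‖φ‖ :=
  Lp.norm_compMeasurePreserving φ (measurePreserving_smulG g⁻¹)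

/-- `ker (g z) w = ker z (g⁻¹ w)` (`ker_smul`). -/
theorem rho_kap (g : G) (z : ℍ) : kap (g • z) = rho g (kap z) := by
  apply Lp.ext
  have h1 := kap_ae (g • z)
  have h2 := rho_ae g (kap z)
  have h3 := (measurePreserving_smulG g⁻¹).quasiMeasurePreserving.ae_eq_comp (kap_ae z)
  filter_upwards [h1, h2, h3] with w e1 e2 e3
  rw [e1, e2]
  have e4 : (kap z : ℍ → ℝ) (g⁻¹ • w) = ker z (g⁻¹ • w) := e3
  rw [e4, ← ker_smul g z (g⁻¹ • w), smul_inv_smul]

end Pool.Agent.Helper24.BC
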