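import Pool.Agent.Helper11.BC.Defs

/-!
# Project BC, block POT: definitions

1-forms and densities on the upper half plane are functions on `ℂ`; only the values at the points
with positive imaginary part matter.
-/

open scoped MatrixGroups UpperHalfPlane
open MeasureTheory

namespace Pool.Agent.Helper24.BC

open Pool.Agent.Helper11.BC

/-- The Möbius map of `g` on the complex numbers. -/
noncomputable def mob (g : G) (z : ℂ) : ℂ :=
  ((g 0 0 : ℝ) * z + (g 0 1 : ℝ)) / ((g 1 0 : ℝ) * z + (g 1 1 : ℝ))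

/-- The derivative of `mob g`. -/
noncomputable def dmob (g : G) (z : ℂ) : ℂ := (((g 1 0 : ℝ) * z + (g 1 1 : ℝ)) ^ 2)⁻¹

/-- A 1-form. -/
abbrev Form : Type := ℂ → ℂ →L[ℝ] ℝ

/-- Pull-back of a 1-form. -/
noncomputable def pull (g : G) (a : Form) : Form := fun z =>
  (a (mob g z)).comp (ContinuousLinearMap.mul ℝ ℂ (dmob g z))

/-- Pull-back of a density. -/
noncomputable def pullw (g : G) (w : ℂ → ℝ) : ℂ → ℝ := fun z =>
  w (mob g z) * Complex.normSq (dmob g z)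

/-- `a` is a differentiable 1-form on the upper half plane with `d a = w dx ∧ dy`. -/
def IsPrim (a : Form) (w : ℂ → ℝ) : Prop :=
  ∀ z : ℂ, 0 < z.im → ∃ a' : ℂ →L[ℝ] ℂ →L[ℝ] ℝ, HasFDerivAt a a' z ∧
    ∀ u v : ℂ, a' u v - a' v u = w z * (u.re * v.im - u.im * v.re)

/-- A `C¹` density on the upper half plane with the bounds of the constant `C`. -/
structure Dens0 (w : ℂ → ℝ) (C : ℝ) : Prop where
  smooth : ∀ z : ℂ, 0 < z.im → ContDiffAt ℝ 1 w z
  bd : ∀ z : ℂ, 0 < z.im → |w z| ≤ C / z.im ^ 2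
  bd1 : ∀ z : ℂ, 0 < z.im → ‖fderiv ℝ w z‖ ≤ C / z.im ^ 3

/-- The primitive of the density `w` with ideal vertex `∞`. -/
noncomputable def lam0 (w : ℂ → ℝ) : Form := fun z =>
  (∫ t in Set.Ioi (0 : ℝ), w (z + t * Complex.I)) • Complex.reCLM

/-- The primitive of the density `w` with ideal vertex `h • ∞`. -/
noncomputable def Lam (h : G) (w : ℂ → ℝ) : Form := pull h⁻¹ (lam0 (pullw h w))

/-- The integral of the form `a` over the geodesic segment from `i` to `i e^T`. -/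
noncomputable def vInt (a : Form) (T : ℝ) : ℝ :=
  ∫ τ in (0 : ℝ)..T, a (Real.exp τ * Complex.I) (Real.exp τ * Complex.I)

/-- The differential forms of a smooth bounded cocycle. -/
structure Forms (N : ℕ) where
  f : List ℍ → ℝ
  α : List ℍ → Form
  w : List ℍ → ℂ → ℝ
  C : ℝ
  one_le_C : 1 ≤ C
  f_bdd : ∀ L, |f L| ≤ C
  f_lip : ∀ (l₁ l₂ : List ℍ) (p q : ℍ), |f (l₁ ++ p :: l₂) - f (l₁ ++ q :: l₂)| ≤ C * dist p q
  f_inv : ∀ (g : G) L, f (L.map (g • ·)) = f L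
  f_coc : ∀ W, W.length = N + 3 → dl f W = 0
  α_bd : ∀ (X : List ℍ) (z v : ℂ), 0 < z.im → |α X z v| ≤ C * ‖v‖ / z.im
  α_lip : ∀ (l₁ l₂ : List ℍ) (p q : ℍ) (z v : ℂ), 0 < z.im →
    |α (l₁ ++ p :: l₂) z v - α (l₁ ++ q :: l₂) z v| ≤ C * dist p q * ‖v‖ / z.im
  α_inv : ∀ (g : G) (X : List ℍ) (z : ℂ), 0 < z.im → pull g (α (X.map (g • ·))) z = α X z
  α_prim : ∀ X, X.length = N → IsPrim (α X) (fun z => dl (fun D => w D z) X)
  α_dl : ∀ Y, Y.length = N + 1 → ∀ z : ℂ, 0 < z.im →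
    HasFDerivAt (fun ζ : ℂ => f (UpperHalfPlane.ofComplex ζ :: Y)) (-dl (fun X => α X z) Y) z
  w_dens : ∀ D, Dens0 (w D) C
  w_lip : ∀ (l₁ l₂ : List ℍ) (p q : ℍ) (z : ℂ), 0 < z.im →
    |w (l₁ ++ p :: l₂) z - w (l₁ ++ q :: l₂) z| ≤ C * dist p q / z.im ^ 2
  w_inv : ∀ (g : G) (D : List ℍ) (z : ℂ), 0 < z.im → pullw g (w (D.map (g • ·))) z = w D z

/-- A function on lists of vectors which is linear and bounded in every entry. -/
structure IsMul {V : Type*} [NormedAddCommGroup V] [NormedSpace ℝ V] (Φ : List V → ℝ) (M : ℝ) :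
    Prop where
  add : ∀ l₁ l₂ u v, Φ (l₁ ++ (u + v) :: l₂) = Φ (l₁ ++ u :: l₂) + Φ (l₁ ++ v :: l₂)
  smul : ∀ l₁ l₂ (c : ℝ) u, Φ (l₁ ++ (c • u) :: l₂) = c * Φ (l₁ ++ u :: l₂)
  bd : ∀ l : List V, |Φ l| ≤ M * (l.map norm).prod

/-- The kernel data: a smooth equivariant map `kap` from the upper half plane to a normed space `V`
and a multilinear function `Φ`. -/
structure KData (N : ℕ) (V : Type) [NormedAddCommGroup V] [NormedSpace ℝ V] where
  kap : ℍ → V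
  Φ : List V → ℝ
  M : ℝ
  rho : G → V →L[ℝ] V
  kap_norm : ∀ z, ‖kap z‖ ≤ 1
  smooth : ∀ z : ℂ, 0 < z.im → ContDiffAt ℝ 2 (fun ζ : ℂ => kap (UpperHalfPlane.ofComplex ζ)) z
  isMul : IsMul Φ M
  rho_norm : ∀ g u, ‖rho g u‖ = ‖u‖
  rho_kap : ∀ (g : G) z, kap (g • z) = rho g (kap z)
  Φ_inv : ∀ (g : G) (l : List V), Φ (l.map (rho g)) = Φ l
  coc : ∀ W : List ℍ, W.length = N + 3 → dl (fun L => Φ (L.map kap)) W = 0

end Pool.Agent.Helper24.BC
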